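import Pool.Agent.Lib.MP_0d68fc_nt.Osc

/-! The two dual oscillatory integrals, their size and their amplitude. -/

set_option autoImplicit false

namespace Pool.Agent.Lib.MP_0d68fc_nt

open Finset Pool.Agent.Lib.MP_028aa5_nt Pool.Agent.Lib.MP_786755_nt MeasureTheory
open scoped ComplexConjugate

def W (u : ℝ) : ℝ := ((u - 1) * (4 - u)) ^ 2
def W1 (u : ℝ) : ℝ := 2 * ((u - 1) * (4 - u)) * (5 - 2 * u)
def W2 (u : ℝ) : ℝ := 2 * (5 - 2 * u) ^ 2 - 4 * ((u - 1) * (4 - u))

@[fun_prop] lemma continuous_W : Continuous W := by unfold W; fun_prop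
@[fun_prop] lemma continuous_W1 : Continuous W1 := by unfold W1; fun_prop
@[fun_prop] lemma continuous_W2 : Continuous W2 := by unfold W2; fun_prop

lemma hd_w (u : ℝ) : HasDerivAt (fun u : ℝ => (u - 1) * (4 - u)) (5 - 2 * u) u := by
  refine (((hasDerivAt_id u).sub_const 1).mul ((hasDerivAt_id u).const_sub 4)).congr_deriv ?_
  simp only [id]; ring

lemma hd_W (u : ℝ) : HasDerivAt W (W1 u) u := by
  refine ((hd_w u).pow 2).congr_deriv ?_
  simp [W1]

lemma hd_W1 (u : ℝ) : HasDerivAt W1 (W2 u) u := by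
  refine (((hd_w u).const_mul 2).mul (((hasDerivAt_id u).const_mul 2).const_sub 5)).congr_deriv ?_
  simp only [id, W2]; ring

lemma W_bd {u : ℝ} (hu : u ∈ Set.Icc (1 : ℝ) 4) : |W u| ≤ 9 ∧ |W1 u| ≤ 18 ∧ |W2 u| ≤ 30 := by
  have h0 : 0 ≤ (u - 1) * (4 - u) := mul_nonneg (by linarith [hu.1]) (by linarith [hu.2])
  have h1 : (u - 1) * (4 - u) ≤ 3 := by nlinarith [sq_nonneg (2 * u - 5)]
  have h2 : -3 ≤ 5 - 2 * u := by linarith [hu.2]
  have h3 : 5 - 2 * u ≤ 3 := by linarith [hu.1]
  unfold W W1 W2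
  generalize (u - 1) * (4 - u) = x at *
  generalize 5 - 2 * u = y at *
  simp only [abs_le]
  refine ⟨⟨?_, ?_⟩, ⟨?_, ?_⟩, ?_, ?_⟩ <;> nlinarith

/-- admissible to the second order, with a bound -/
structure Ad2 (V V' V'' : ℝ → ℝ) (a : ℝ) : Prop where
  a1 : Adm V V'
  a2 : Adm V' V''
  b0 : ∀ u ∈ Set.Icc (1 : ℝ) 4, |V u| ≤ a
  b1 : ∀ u ∈ Set.Icc (1 : ℝ) 4, |V' u| ≤ a
  b2 : ∀ u ∈ Set.Icc (1 : ℝ) 4, |V'' u| ≤ a

lemma admW {G G' G'' : ℝ → ℝ} {k : ℝ} (h0 : ∀ u ∈ Set.Icc (1 : ℝ) 4, HasDerivAt G (G' u) u)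
    (h1 : ∀ u ∈ Set.Icc (1 : ℝ) 4, HasDerivAt G' (G'' u) u) (c2 : ContinuousOn G'' (Set.Icc 1 4))
    (hb : ∀ u ∈ Set.Icc (1 : ℝ) 4, |G u| ≤ k ∧ |G' u| ≤ k ∧ |G'' u| ≤ k) :
    ∃ V' V'', Ad2 (fun u => W u * G u) V' V'' (75 * k) := by
  have c0 : ContinuousOn G (Set.Icc 1 4) := fun u hu => (h0 u hu).continuousAt.continuousWithinAt
  have c1 : ContinuousOn G' (Set.Icc 1 4) := fun u hu => (h1 u hu).continuousAt.continuousWithinAt
  have hk : 0 ≤ k := (abs_nonneg _).trans (hb 1 (by norm_num)).1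
  have m : ∀ {x y c : ℝ}, |x| ≤ c → |y| ≤ k → |x * y| ≤ c * k := fun hx hy => by
    rw [abs_mul]; exact mul_le_mul hx hy (abs_nonneg _) ((abs_nonneg _).trans hx)
  refine ⟨fun u => W1 u * G u + W u * G' u, fun u => W2 u * G u + 2 * (W1 u * G' u) + W u * G'' u,
    ⟨fun u hu => (hd_W u).mul (h0 u hu), by fun_prop, by simp [W], by norm_num [W]⟩,
    ⟨fun u hu => (((hd_W1 u).mul (h0 u hu)).add ((hd_W u).mul (h1 u hu))).congr_deriv (by ring),
      by fun_prop, by simp [W, W1], by norm_num [W, W1]⟩, fun u hu => ?_, fun u hu => ?_,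
      fun u hu => ?_⟩
  · linarith [m (W_bd hu).1 (hb u hu).1]
  · have e1 := abs_le.mp (m (W_bd hu).2.1 (hb u hu).1)
    have e2 := abs_le.mp (m (W_bd hu).1 (hb u hu).2.1)
    rw [abs_le]; constructor <;> linarith [e1.1, e1.2, e2.1, e2.2]
  · have e1 := abs_le.mp (m (W_bd hu).2.2 (hb u hu).1)
    have e2 := abs_le.mp (m (W_bd hu).2.1 (hb u hu).2.1)
    have e3 := abs_le.mp (m (W_bd hu).1 (hb u hu).2.2)
    rw [abs_le]; constructor <;> linarith [e1.1, e1.2, e2.1, e2.2, e3.1, e3.2]

noncomputable def rt : Bool → ℝ → ℝ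
  | true, t => t
  | false, t => √t

def pw : Bool → ℝ → ℝ
  | true, u => u
  | false, u => u ^ 2

def dw : Bool → ℝ → ℝ
  | true, _ => 1
  | false, u => 2 * u

@[fun_prop] lemma continuous_rt (j : Bool) : Continuous (rt j) := by
  cases j
  · exact Real.continuous_sqrt
  · exact continuous_id

@[fun_prop] lemma continuous_dw (j : Bool) : Continuous (dw j) := by
  cases j
  · exact continuous_const.mul continuous_id
  · exact continuous_const

noncomputable def II (j : Bool) (A B : ℝ) : ℂ :=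
  Os (fun u => W u * dw j u) A (bif j then 0 else B) (bif j then B else 0)

/-- the stationary point -/
noncomputable def st (j : Bool) (B A : ℝ) : ℝ := rt (!j) (dw j 1 * B / (3 * A))

lemma ad_wt (j : Bool) : ∃ V' V'', Ad2 (fun u => W u * dw j u) V' V'' (75 * 8) := by
  cases j
  · refine admW (G' := fun _ => 2) (G'' := fun _ => 0) (fun u _ => ?_)
      (fun u _ => hasDerivAt_const _ _) (by fun_prop) fun u hu => ⟨?_, by norm_num, by norm_num⟩
    · exact ((hasDerivAt_id u).const_mul 2).congr_deriv (mul_one 2)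
    · simp only [dw, abs_le]; constructor <;> linarith [hu.1, hu.2]
  · exact admW (G' := fun _ => 0) (G'' := fun _ => 0) (fun u _ => hasDerivAt_const _ _)
      (fun u _ => hasDerivAt_const _ _) (by fun_prop) fun u hu => by norm_num [dw]

lemma st_nonneg (j : Bool) {A B : ℝ} (hA : 0 < A) (hB : 0 < B) : 0 < st j B A := by
  cases j
  · show 0 < 2 * 1 * B / (3 * A)
    positivity
  · show 0 < √(1 * B / (3 * A))
    positivity

lemma p1_true {A B : ℝ} (hA : 0 < A) (hB : 0 < B) (u : ℝ) :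
    p1 A 0 B u = 3 * A * (u - st true B A) * (u + st true B A) := by
  have : st true B A ^ 2 = 1 * B / (3 * A) :=
    Real.sq_sqrt (x := 1 * B / (3 * A)) (by positivity)
  rw [mul_assoc, show (u - st true B A) * (u + st true B A) = u ^ 2 - st true B A ^ 2 by ring, this]
  unfold p1
  field_simp
  ring

lemma p1_false {A : ℝ} (hA : 0 < A) (B u : ℝ) : p1 A B 0 u = 3 * A * (u - st false B A) * u := by
  simp only [p1, st, rt, dw, Bool.not_false]
  field_simp
  ring

lemma near' {V V' : ℝ → ℝ} (h : Adm V V') (j : Bool) {A B a : ℝ} (hB : 0 < B) (hb : B ≤ 256 * A)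
    (h0 : ∀ u ∈ Set.Icc (1 : ℝ) 4, |V u| ≤ a) (h1 : ∀ u ∈ Set.Icc (1 : ℝ) 4, |V' u| ≤ a) :
    ‖Os V A (bif j then 0 else B) (bif j then B else 0)‖ ≤ 2200 * a / √A := by
  have hA : 0 < A := by linarith
  refine near h (v := st j B A) hA ?_ (fun u hu => ?_) h0 h1
  · cases j
    · simpa [abs_of_pos hB] using hb
    · simpa using hA.le
  have h2 := st_nonneg j hA hB
  have h3 := hu.1
  have h4 : 0 ≤ A * |u - st j B A| := by positivity
  cases j
  · rw [cond_false, cond_false, p1_false hA, abs_mul, abs_mul, abs_of_pos (by positivity : 0 < 3 * A),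
      abs_of_pos (by linarith : 0 < u)]
    nlinarith
  · rw [cond_true, cond_true, p1_true hA hB, abs_mul, abs_mul,
      abs_of_pos (by positivity : 0 < 3 * A), abs_of_pos (by linarith : 0 < u + st true B A)]
    nlinarith

lemma II_triv (j : Bool) (A B : ℝ) : ‖II j A B‖ ≤ 1800 := by
  obtain ⟨V', V'', h⟩ := ad_wt j
  exact (Os_triv h.b0 _ _ _).trans (by norm_num)

lemma II_near (j : Bool) {A B : ℝ} (hB : 0 < B) (hb : B ≤ 256 * A) :
    ‖II j A B‖ ≤ 1320000 / √A := by
  obtain ⟨V', V'', h⟩ := ad_wt j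
  exact (near' h.a1 j hB hb h.b0 h.b1).trans (by norm_num)

lemma II_far (j : Bool) {A B : ℝ} (hA : 0 ≤ A) (hB : B ≤ A ∨ 97 * A ≤ B) :
    ‖II j A B‖ ≤ 10 ^ 9 / (1 + A + |B|) ^ 2 := by
  obtain ⟨V', V'', h⟩ := ad_wt j
  have b0 := abs_nonneg B
  rw [le_div_iff₀ (by positivity)]
  rcases le_or_gt (A + |B|) 1 with h1 | h1
  · have := mul_le_mul (II_triv j A B) (pow_le_pow_left₀ (by positivity)
      (by linarith : 1 + A + |B| ≤ 2) 2) (by positivity) (by norm_num)
    linarith
  have h2 : ‖II j A B‖ ≤ 30000 * (75 * 8) / ((A + |B|) / 2) ^ 2 := by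
    refine far h.a1 h.a2 (by linarith) (by rw [abs_of_nonneg hA]; linarith) ?_ (fun u hu => ?_)
      h.b0 h.b1 h.b2
    · cases j
      · rw [cond_false]; linarith
      · rw [cond_true, abs_zero]; linarith
    have u1 := hu.1
    have u4 := hu.2
    have u2 : 1 ≤ u ^ 2 := by nlinarith
    have u3 : u ^ 2 ≤ 16 := by nlinarith
    have a1 := mul_le_mul_of_nonneg_left u2 hA
    have a2 := mul_le_mul_of_nonneg_left u3 hA
    have a3 := mul_le_mul_of_nonneg_left u1 hA
    have a4 := mul_le_mul_of_nonneg_left u4 hA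
    rw [le_abs]
    unfold p1
    cases j
    · rw [cond_false, cond_false]
      rcases hB with hB | hB
      · left
        have : (A + |B|) / 2 ≤ 3 * A * u - 2 * B := by
          rcases abs_cases B with e | e <;> linarith [e.1, e.2]
        nlinarith
      · right
        have : (A + |B|) / 2 ≤ 2 * B - 3 * A * u := by
          rcases abs_cases B with e | e <;> linarith [e.1, e.2]
        nlinarith
    · rw [cond_true, cond_true]
      rcases hB with hB | hB
      · left
        rcases abs_cases B with e | e <;> linarith [e.1, e.2]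
      · right
        rcases abs_cases B with e | e <;> linarith [e.1, e.2]
  rw [le_div_iff₀ (by positivity)] at h2
  have h3 : (1 + A + |B|) ^ 2 ≤ 16 * ((A + |B|) / 2) ^ 2 := by nlinarith
  have := mul_le_mul_of_nonneg_left h3 (norm_nonneg (II j A B))
  linarith

lemma II_neg (j : Bool) (A B : ℝ) : II j (-A) (-B) = conj (II j A B) := by
  unfold II
  rw [← Os_neg]
  cases j <;> simp

lemma II_zero (j : Bool) (A : ℝ) : ‖II j A 0‖ ≤ 10 ^ 9 / (1 + |A|) ^ 2 := by
  wlog hA : 0 ≤ A generalizing A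
  · have h := this (-A) (by linarith)
    rwa [← neg_zero, II_neg, Complex.norm_conj, abs_neg] at h
  simpa [abs_of_nonneg hA] using II_far j hA (B := 0) (Or.inl hA)

lemma II_maj (j : Bool) (A B : ℝ) :
    ‖II j A B‖ ≤ 10 ^ 11 / √(1 + |A|) * (1 / (1 + 1 / (1 + |A|) * |B|) ^ 2) := by
  wlog hA : 0 ≤ A generalizing A B
  · have h := this (-A) (-B) (by linarith)
    rwa [II_neg, Complex.norm_conj, abs_neg, abs_neg] at h
  rw [abs_of_nonneg hA]
  have b0 := abs_nonneg B
  have s1 : 1 ≤ √(1 + A) := Real.one_le_sqrt.mpr (by linarith)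
  have s2 : √(1 + A) ^ 2 = 1 + A := Real.sq_sqrt (by linarith)
  rw [mul_one_div, div_div, le_div_iff₀ (by positivity)]
  by_cases h : B ≤ A ∨ 97 * A ≤ B
  · have h1 := II_far j hA h
    rw [le_div_iff₀ (by positivity)] at h1
    refine le_trans (mul_le_mul_of_nonneg_left ?_ (norm_nonneg _)) (h1.trans (by norm_num))
    rw [show 1 + A + |B| = (1 + A) * (1 + 1 / (1 + A) * |B|) by field_simp, mul_pow]
    refine mul_le_mul_of_nonneg_right ?_ (by positivity)
    nlinarith
  push Not at h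
  have A0 : 0 < A := by linarith
  have h1 : 1 / (1 + A) * |B| ≤ 97 := by
    rw [one_div_mul_eq_div, div_le_iff₀ (by positivity), abs_of_pos (by linarith)]
    linarith
  have h2 : (1 + 1 / (1 + A) * |B|) ^ 2 ≤ 98 ^ 2 :=
    pow_le_pow_left₀ (by positivity) (by linarith) 2
  have h3 : ‖II j A B‖ * √(1 + A) ≤ 2640000 := by
    rcases le_or_gt A 1 with h4 | h4
    · have : √(1 + A) ≤ 2 := by nlinarith
      nlinarith [II_triv j A B, norm_nonneg (II j A B)]
    · have h5 := II_near j (by linarith : 0 < B) (by linarith : B ≤ 256 * A)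
      rw [le_div_iff₀ (by positivity)] at h5
      have : √(1 + A) ≤ 2 * √A := by
        refine Real.sqrt_le_iff.mpr ⟨by positivity, ?_⟩
        rw [mul_pow, Real.sq_sqrt hA]; linarith
      nlinarith [norm_nonneg (II j A B)]
  rw [← mul_assoc]
  exact (mul_le_mul h3 h2 (by positivity) (by norm_num)).trans (by norm_num)

lemma hd_Os {V : ℝ → ℝ} (hV : Continuous V) (b c A : ℝ) :
    HasDerivAt (fun A => Os V A b c) (tp * Os (fun u => V u * u ^ 3) A b c) A := by
  have h := (intervalIntegral.hasDerivAt_integral_of_dominated_loc_of_deriv_le (μ := volume)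
    (a := 1) (b := 4) (F := fun A u => (V u : ℂ) * e (ph A b c u))
    (F' := fun A u => tp * (((V u * u ^ 3 : ℝ) : ℂ) * e (ph A b c u))) (x₀ := A) (s := Set.univ)
    (bound := fun u => ‖tp‖ * |V u * u ^ 3|) Filter.univ_mem
    (Filter.Eventually.of_forall fun x => Continuous.aestronglyMeasurable (by fun_prop))
    (Continuous.intervalIntegrable (by fun_prop) _ _)
    (Continuous.aestronglyMeasurable (by fun_prop))
    (ae_of_all _ fun t _ x _ => by simp [abs_mul])
    (Continuous.intervalIntegrable (by fun_prop) _ _)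
    (ae_of_all _ fun t _ x _ => ?_)).2
  · rwa [intervalIntegral.integral_const_mul] at h
  have h1 : HasDerivAt (fun A => ph A b c t) (t ^ 3) x := by
    simpa [ph] using (((hasDerivAt_id x).mul_const (t ^ 3)).sub_const (b * t ^ 2)).sub_const (c * t)
  refine ((hd_e h1).const_mul _).congr_deriv ?_
  push_cast; ring

lemma continuous_Os {V : ℝ → ℝ} (hV : Continuous V) (b c : ℝ) : Continuous fun A => Os V A b c :=
  continuous_iff_continuousAt.mpr fun A => (hd_Os hV b c A).continuousAt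

/-- the phase at the stationary point -/
noncomputable def ps (j : Bool) (B A : ℝ) : ℝ := (bif j then -2 else -1 / 2) * (A * st j B A ^ 3)

lemma hd_st (j : Bool) {A B : ℝ} (hA : 0 < A) (hB : 0 < B) :
    HasDerivAt (st j B) (-(st j B A / A) * (bif j then 1 / 2 else 1)) A := by
  have h : ∀ d : ℝ, HasDerivAt (fun A => d / (3 * A)) (-(d / (3 * A) / A)) A := fun d => by
    refine ((hasDerivAt_const A d).div ((hasDerivAt_id A).const_mul 3)
      (by simp only [id]; positivity)).congr_deriv ?_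
    simp only [id]; field_simp; ring
  cases j
  · exact (h (dw false 1 * B)).congr_deriv (by simp [st, rt])
  · have h0 : 0 < st true B A := st_nonneg true hA hB
    have h1 : st true B A ^ 2 = dw true 1 * B / (3 * A) := Real.sq_sqrt (by simp only [dw]; positivity)
    refine ((h (dw true 1 * B)).sqrt (by simp only [dw]; positivity)).congr_deriv ?_
    rw [← h1, Real.sqrt_sq h0.le, cond_true]
    field_simp

lemma hd_ps (j : Bool) {A B : ℝ} (hA : 0 < A) (hB : 0 < B) :
    HasDerivAt (ps j B) (st j B A ^ 3) A := by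
  refine (((hasDerivAt_id A).mul ((hd_st j hA hB).pow 3)).const_mul _).congr_deriv ?_
  cases j <;> simp <;> field_simp <;> ring

lemma rt_mul (j : Bool) {s : ℝ} (hs : 0 ≤ s) (t : ℝ) : rt j (s * t) = rt j s * rt j t := by
  cases j
  · exact Real.sqrt_mul hs t
  · rfl

lemma ps_mul (j : Bool) {s : ℝ} (hs : 0 ≤ s) (B A : ℝ) :
    ps j (s * B) A = rt (!j) s ^ 3 * ps j B A := by
  unfold ps st
  rw [show dw j 1 * (s * B) / (3 * A) = s * (dw j 1 * B / (3 * A)) by ring, rt_mul _ hs]
  ring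

lemma st_bd (j : Bool) {A B : ℝ} (h1 : A ≤ 2 * B) (h2 : B ≤ 256 * A) (hA : 0 < A) :
    1 / 6 ≤ st j B A ∧ st j B A ≤ 171 := by
  cases j
  · simp only [st, rt, dw, Bool.not_false]
    rw [le_div_iff₀ (by positivity), div_le_iff₀ (by positivity)]
    constructor <;> linarith
  · simp only [st, rt, dw, Bool.not_true]
    constructor
    · refine Real.le_sqrt_of_sq_le ?_
      rw [le_div_iff₀ (by positivity)]; linarith
    · refine Real.sqrt_le_iff.mpr ⟨by norm_num, ?_⟩
      rw [div_le_iff₀ (by positivity)]; linarith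

lemma amp_bd (j : Bool) {A B : ℝ} (h1 : A ≤ 2 * B) (h2 : B ≤ 256 * A) (hA : 0 < A) :
    ‖tp * Os (fun u => W u * dw j u * (u ^ 3 - st j B A ^ 3)) A (bif j then 0 else B)
      (bif j then B else 0)‖ ≤ 10 ^ 10 / √A / A := by
  have hB : 0 < B := by linarith
  have hv := st_bd j h1 h2 hA
  have key : ∃ G V' V'' : ℝ → ℝ, Ad2 (fun u => W u * G u) V' V'' (75 * 60000) ∧ ∀ u ∈ Set.Icc (1 : ℝ) 4,
      W u * dw j u * (u ^ 3 - st j B A ^ 3) = 1 / (3 * A) *
        (W u * G u * p1 A (bif j then 0 else B) (bif j then B else 0) u) := by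
    cases j
    · obtain ⟨v, e⟩ : ∃ v, st false B A = v := ⟨_, rfl⟩
      obtain ⟨V', V'', h⟩ := admW (G := fun u => 2 * (u ^ 2 + u * v + v ^ 2))
        (G' := fun u => 2 * (2 * u + v)) (G'' := fun _ => 4) (k := 60000) (fun u _ => by
          refine ((((hasDerivAt_pow 2 u).add ((hasDerivAt_id u).mul_const v)).add_const
            (v ^ 2)).const_mul 2).congr_deriv (by simp)) (fun u _ => by
          refine ((((hasDerivAt_id u).const_mul 2).add_const v).const_mul 2).congr_deriv
            (by norm_num)) (by fun_prop) fun u hu => by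
          rw [e] at hv
          simp only [abs_le]
          refine ⟨⟨?_, ?_⟩, ⟨?_, ?_⟩, ?_, ?_⟩ <;> nlinarith [hu.1, hu.2, hv.1, hv.2]
      refine ⟨_, V', V'', h, fun u _ => ?_⟩
      rw [cond_false, cond_false, p1_false hA, e]
      simp only [dw]
      field_simp
      ring
    · obtain ⟨v, e⟩ : ∃ v, st true B A = v := ⟨_, rfl⟩
      rw [e] at hv
      have n0 : ∀ u ∈ Set.Icc (1 : ℝ) 4, u + v ≠ 0 := fun u hu => by linarith [hu.1, hv.1]
      have d0 : ∀ u ∈ Set.Icc (1 : ℝ) 4, HasDerivAt (fun u => v / (u + v)) (-(v / (u + v) / (u + v))) u :=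
        fun u hu => by
          refine ((hasDerivAt_const u v).div ((hasDerivAt_id u).add_const v) (n0 u hu)).congr_deriv ?_
          have := n0 u hu
          simp only [id]; field_simp; ring
      obtain ⟨V', V'', h⟩ := admW (G := fun u => u + v * (v / (u + v)))
        (G' := fun u => 1 - (v / (u + v)) ^ 2) (G'' := fun u => 2 * (v / (u + v)) ^ 2 / (u + v))
        (k := 60000) (fun u hu => by
          refine ((hasDerivAt_id u).add ((d0 u hu).const_mul v)).congr_deriv (by ring))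
        (fun u hu => by
          refine (((d0 u hu).pow 2).const_sub 1).congr_deriv (by simp; ring))
        (by fun_prop (disch := assumption)) fun u hu => by
          have q0 : 1 ≤ u + v := by linarith [hu.1, hv.1]
          have q1 : 0 ≤ v / (u + v) := div_nonneg (by linarith [hv.1]) (by linarith)
          have q2 : v / (u + v) ≤ 1 := by rw [div_le_one (by linarith)]; linarith [hu.1]
          have q3 : 2 * (v / (u + v)) ^ 2 / (u + v) ≤ 2 := by
            rw [div_le_iff₀ (by linarith)]; nlinarith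
          have q4 : 0 ≤ 2 * (v / (u + v)) ^ 2 / (u + v) := by positivity
          generalize 2 * (v / (u + v)) ^ 2 / (u + v) = z at *
          generalize v / (u + v) = y at *
          simp only [abs_le]
          refine ⟨⟨?_, ?_⟩, ⟨?_, ?_⟩, ?_, ?_⟩ <;> nlinarith [hu.1, hu.2, hv.1, hv.2]
      refine ⟨_, V', V'', h, fun u hu => ?_⟩
      rw [cond_true, cond_true, p1_true hA hB, e]
      have := n0 u hu
      simp only [dw]
      field_simp
      ring
  obtain ⟨G, V', V'', h, e⟩ := key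
  rw [Os_congr e, Os_mul, mul_left_comm, h.a1.ibp, norm_mul, norm_neg, Complex.norm_real,
    Real.norm_eq_abs, abs_of_pos (by positivity), le_div_iff₀ hA]
  have h3 := near' h.a2 j hB h2 h.b1 h.b2
  have h4 : 2200 * (75 * 60000) / √A ≤ 10 ^ 10 / √A := by gcongr; norm_num
  have h5 := norm_nonneg (Os V' A (bif j then 0 else B) (bif j then B else 0))
  rw [mul_right_comm, show 1 / (3 * A) * A = 1 / 3 by field_simp]
  linarith

/-- the amplitude -/
noncomputable def Am (j : Bool) (B A : ℝ) : ℂ := e (-ps j B A) * II j A B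

noncomputable def Am1 (j : Bool) (B A : ℝ) : ℂ := e (-ps j B A) *
  (tp * Os (fun u => W u * dw j u * u ^ 3) A (bif j then 0 else B) (bif j then B else 0) -
    tp * (st j B A ^ 3 : ℝ) * II j A B)

lemma II_eq (j : Bool) (B A : ℝ) : II j A B = Am j B A * e (ps j B A) := by
  rw [Am, mul_right_comm, ← e_add, neg_add_cancel, e_zero, one_mul]

@[fun_prop] lemma continuous_II (j : Bool) (B : ℝ) : Continuous fun A => II j A B :=
  continuous_Os (by fun_prop) _ _

lemma hd_Am (j : Bool) {A B : ℝ} (hA : 0 < A) (hB : 0 < B) : HasDerivAt (Am j B) (Am1 j B A) A := by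
  refine ((hd_e (hd_ps j hA hB).neg).mul (hd_Os (V := fun u => W u * dw j u) (by fun_prop) _ _
    A)).congr_deriv ?_
  simp only [Am1, II, Pi.neg_apply]
  push_cast
  ring

lemma ct_Am1 (j : Bool) {B X Y : ℝ} (hX : 0 < X) (hB : 0 < B) :
    ContinuousOn (Am1 j B) (Set.Icc X Y) := by
  have c1 : ContinuousOn (ps j B) (Set.Icc X Y) :=
    fun A hA => (hd_ps j (hX.trans_le hA.1) hB).continuousAt.continuousWithinAt
  have c2 : ContinuousOn (st j B) (Set.Icc X Y) :=
    fun A hA => (hd_st j (hX.trans_le hA.1) hB).continuousAt.continuousWithinAt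
  have c3 := continuous_Os (V := fun u => W u * dw j u * u ^ 3) (by fun_prop)
    (bif j then 0 else B) (bif j then B else 0)
  unfold Am1
  fun_prop

lemma Am_bd (j : Bool) {A B : ℝ} (h1 : A ≤ 2 * B) (h2 : B ≤ 256 * A) (hA : 0 < A) :
    ‖Am j B A‖ ≤ 10 ^ 10 / √A ∧ ‖Am1 j B A‖ ≤ 10 ^ 10 / √A / A := by
  constructor
  · rw [Am, norm_mul, norm_e, one_mul]
    refine (II_near j (by linarith) h2).trans ?_
    gcongr; norm_num
  · rw [Am1, norm_mul, norm_e, one_mul]
    refine le_trans (le_of_eq ?_) (amp_bd j h1 h2 hA)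
    rw [Os_congr (V := fun u => W u * dw j u * (u ^ 3 - st j B A ^ 3))
      (W := fun u => W u * dw j u * u ^ 3 + (-st j B A ^ 3) * (W u * dw j u)) (fun u _ => by ring),
      Os_add (by fun_prop) (by fun_prop), Os_mul, II]
    congr 1
    push_cast
    ring

end Pool.Agent.Lib.MP_0d68fc_nt
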