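import Pool.Agent.Lib.MP_786755_nt.Int

/-! The variance and the differenced cubic sums. -/

set_option autoImplicit false

namespace Pool.Agent.Lib.MP_0d68fc_nt

open Finset Pool.Agent.Lib.MP_028aa5_nt Pool.Agent.Lib.MP_786755_nt MeasureTheory
open scoped ComplexConjugate

lemma sq_id (u : ℕ → ℝ) {a b N : ℕ} (hb : b ≤ a + N) :
    ‖∑ n ∈ Ioc a b, e (u n)‖ ^ 2 = #(Ioc a b) +
      2 * ∑ h ∈ Icc 1 N, (∑ n ∈ Ioc a (b - h), e (u (n + h) - u n)).re := by
  set T : ℂ := ∑ h ∈ Icc 1 N, ∑ n ∈ Ioc a (b - h), e (u (n + h) - u n) with hT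
  have h1 : ∑ x ∈ (Ioc a b ×ˢ Ioc a b).filter (fun x => x.2 < x.1), e (u x.1 - u x.2) = T := by
    rw [hT, sum_sigma']
    refine sum_bij' (fun x _ => ⟨x.1 - x.2, x.2⟩) (fun y _ => (y.2 + y.1, y.2)) ?_ ?_ ?_ ?_ ?_
    · intro x hx
      simp only [mem_filter, mem_product, mem_Ioc, mem_sigma, mem_Icc] at hx ⊢
      omega
    · intro y hy
      simp only [mem_filter, mem_product, mem_Ioc, mem_sigma, mem_Icc] at hy ⊢
      omega
    · intro x hx
      simp only [mem_filter] at hx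
      ext <;> simp only
      omega
    · intro y hy
      simp
    · intro x hx
      simp only [mem_filter] at hx
      rw [Nat.add_sub_cancel' hx.2.le]
  have h2 : ∑ x ∈ (Ioc a b ×ˢ Ioc a b).filter (fun x => x.1 < x.2), e (u x.1 - u x.2) =
      conj T := by
    rw [← h1, map_sum]
    refine sum_bij' (fun x _ => x.swap) (fun x _ => x.swap) ?_ ?_ ?_ ?_ ?_
    · intro x hx
      simp only [mem_filter, mem_product, Prod.fst_swap, Prod.snd_swap] at hx ⊢
      tauto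
    · intro x hx
      simp only [mem_filter, mem_product, Prod.fst_swap, Prod.snd_swap] at hx ⊢
      tauto
    · intro x _; simp
    · intro x _; simp
    · intro x _
      simp [conj_e]
  have h3 : ∑ x ∈ (Ioc a b ×ˢ Ioc a b).filter (fun x => x.1 = x.2), e (u x.1 - u x.2) =
      (#(Ioc a b) : ℂ) := by
    rw [sum_congr rfl (g := fun _ => (1 : ℂ)) fun x hx => by
      rw [(mem_filter.1 hx).2, sub_self, e_zero]]
    rw [sum_const, nsmul_eq_mul, mul_one, ← diag_card (s := Ioc a b), diag_eq_filter]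
  have h4 : ((‖∑ n ∈ Ioc a b, e (u n)‖ ^ 2 : ℝ) : ℂ) = #(Ioc a b) + T + conj T := by
    push_cast
    rw [← Complex.mul_conj', map_sum, sum_mul_sum, ← sum_product', ← h3, ← h2]
    nth_rewrite 1 [← h1]
    simp only [sum_filter, ← sum_add_distrib, e_mul_conj]
    refine sum_congr rfl fun x _ => ?_
    rcases lt_trichotomy x.1 x.2 with h | h | h
    · simp [h, h.ne, h.not_gt]
    · simp [h]
    · simp [h, h.ne', h.not_gt]
  have h5 := congrArg Complex.re h4
  rw [Complex.ofReal_re, Complex.add_re, Complex.add_re, Complex.conj_re, Complex.natCast_re,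
    hT, Complex.re_sum] at h5
  linarith

/-- the differenced sum -/
noncomputable def Tk (a b k : ℕ) (α : ℝ) : ℂ :=
  ∑ x ∈ Ioc a (b - k), e (α * ((x + k : ℕ) : ℝ) ^ 3 - α * (x : ℝ) ^ 3)

@[fun_prop] lemma continuous_Tk (a b k : ℕ) : Continuous (Tk a b k) := by unfold Tk; fun_prop

noncomputable def Fs (a b K : ℕ) (α : ℝ) : ℝ := ∑ k ∈ Icc 1 K, ‖Tk a b k α‖

@[fun_prop] lemma continuous_Fs (a b K : ℕ) : Continuous (Fs a b K) := by unfold Fs; fun_prop

lemma Fs_nonneg (a b K : ℕ) (α : ℝ) : 0 ≤ Fs a b K α := sum_nonneg fun _ _ => norm_nonneg _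

theorem var {ι : Type*} (S : Finset ι) (γ : ι → ℂ) (m : ι → ℤ) {a b K : ℕ}
    (hK : ∀ i ∈ S, ∀ l ∈ S, m l - m i ≤ 3 * a ^ 2 * K) (T : Finset ℕ) (τ : ℝ) :
    ∑ n ∈ T, ‖∑ x ∈ Ioc a b, ∑ i ∈ S, if (x : ℤ) ^ 3 + m i = n then γ i else 0‖ ^ 2 ≤
      ∫ α in τ..τ + 1, ‖∑ i ∈ S, γ i * e (α * m i)‖ ^ 2 * (b + 2 * Fs a b K α) := by
  obtain ⟨φ, hφ⟩ : ∃ φ : ℝ → ℂ, φ = fun α => ∑ i ∈ S, γ i * e (α * m i) := ⟨_, rfl⟩
  have cφ : Continuous φ := by rw [hφ]; fun_prop
  have h1 := bessel_int (h := fun α => φ α * ∑ x ∈ Ioc a b, e (α * (x : ℝ) ^ 3)) (by fun_prop) T τ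
  have h2 : ∀ n : ℕ, ∫ α in τ..τ + 1, (φ α * ∑ x ∈ Ioc a b, e (α * (x : ℝ) ^ 3)) * e (-(α * n)) =
      ∑ x ∈ Ioc a b, ∑ i ∈ S, if (x : ℤ) ^ 3 + m i = n then γ i else 0 := fun n => by
    rw [← sum_product', intervalIntegral.integral_congr (g := fun α => ∑ z ∈ Ioc a b ×ˢ S,
      γ z.2 * e (α * ((z.1 : ℤ) ^ 3 + m z.2 - n : ℤ))) fun α _ => ?_, int_sum]
    · simp only [sub_eq_zero]
    · simp only [hφ]
      rw [mul_comm (∑ i ∈ S, γ i * e (α * m i)), sum_mul_sum, ← sum_product', sum_mul]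
      refine sum_congr rfl fun z _ => ?_
      rw [mul_left_comm, mul_assoc, ← e_add, ← e_add]
      congr 2
      push_cast; ring
  have h3 : ∀ k, K < k → ∫ α in τ..τ + 1, ‖φ α‖ ^ 2 * (Tk a b k α).re = 0 := fun k hk => by
    have e1 : ∫ α in τ..τ + 1, ((‖φ α‖ ^ 2 : ℝ) : ℂ) * Tk a b k α = 0 := by
      rw [intervalIntegral.integral_congr (g := fun α => ∑ z ∈ (S ×ˢ S) ×ˢ Ioc a (b - k),
        γ z.1.1 * conj (γ z.1.2) *
          e (α * (m z.1.1 - m z.1.2 + (((z.2 + k : ℕ) : ℤ) ^ 3 - (z.2 : ℤ) ^ 3) : ℤ)))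
        fun α _ => ?_, int_sum]
      · refine sum_eq_zero fun z hz => if_neg ?_
        simp only [mem_product, mem_Ioc] at hz
        have e1 := hK _ hz.1.1 _ hz.1.2
        have e2 : (a : ℤ) + 1 ≤ z.2 := by exact_mod_cast hz.2.1
        have e3 : (K : ℤ) + 1 ≤ k := by exact_mod_cast hk
        have e4 : 3 * (a : ℤ) ^ 2 * K ≤ 3 * (z.2 : ℤ) ^ 2 * k := by gcongr; linarith
        have e5 : (0 : ℤ) < (k : ℤ) ^ 3 := pow_pos (by omega) 3
        have e6 : (0 : ℤ) ≤ 3 * z.2 * (k : ℤ) ^ 2 := by positivity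
        push_cast
        nlinarith
      · simp only [hφ, Tk]
        rw [Complex.ofReal_pow, ← Complex.mul_conj', map_sum, sum_mul_sum, ← sum_product',
          sum_mul_sum, ← sum_product']
        refine sum_congr rfl fun z _ => ?_
        rw [map_mul, conj_e, mul_mul_mul_comm, mul_assoc, ← e_add, ← e_add]
        congr 2
        push_cast; ring
    have e2 := Complex.reCLM.intervalIntegral_comp_comm (μ := volume) (a := τ) (b := τ + 1)
      (f := fun α => ((‖φ α‖ ^ 2 : ℝ) : ℂ) * Tk a b k α)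
      (Continuous.intervalIntegrable (by fun_prop) _ _)
    rw [e1] at e2
    simpa only [Complex.reCLM_apply, Complex.re_ofReal_mul, Complex.zero_re] using e2
  simp only [h2] at h1
  refine h1.trans ?_
  have h4 : ∀ α : ℝ, ‖φ α * ∑ x ∈ Ioc a b, e (α * (x : ℝ) ^ 3)‖ ^ 2 = ‖φ α‖ ^ 2 * #(Ioc a b) +
      2 * ∑ k ∈ Icc 1 b, ‖φ α‖ ^ 2 * (Tk a b k α).re := fun α => by
    rw [norm_mul, mul_pow, sq_id (fun x => α * (x : ℝ) ^ 3) (N := b) (by omega), ← mul_sum]
    unfold Tk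
    ring
  have h5 : ∀ α : ℝ, ‖∑ i ∈ S, γ i * e (α * m i)‖ ^ 2 * (b + 2 * Fs a b K α) = ‖φ α‖ ^ 2 * b +
      2 * ∑ k ∈ Icc 1 K, ‖φ α‖ ^ 2 * ‖Tk a b k α‖ := fun α => by
    rw [← mul_sum, hφ, Fs]; ring
  simp only [h4, h5]
  have i : ∀ {f : ℝ → ℝ}, Continuous f → IntervalIntegrable f volume τ (τ + 1) :=
    fun h => h.intervalIntegrable _ _
  rw [intervalIntegral.integral_add (i (by fun_prop)) (i (by fun_prop)),
    intervalIntegral.integral_add (i (by fun_prop)) (i (by fun_prop)),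
    intervalIntegral.integral_const_mul, intervalIntegral.integral_const_mul,
    intervalIntegral.integral_finsetSum fun _ _ => i (by fun_prop),
    intervalIntegral.integral_finsetSum fun _ _ => i (by fun_prop)]
  refine add_le_add (intervalIntegral.integral_mono_on (by linarith) (i (by fun_prop))
    (i (by fun_prop)) fun α _ => ?_) (mul_le_mul_of_nonneg_left ?_ (by norm_num))
  · gcongr
    simp
  · rw [← sum_filter_add_sum_filter_not (Icc 1 b) (fun k => k ≤ K),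
      sum_eq_zero (s := (Icc 1 b).filter fun k => ¬ k ≤ K)
        fun k hk => h3 k (not_le.mp (mem_filter.mp hk).2), add_zero]
    refine (sum_le_sum fun k _ => intervalIntegral.integral_mono_on (by linarith) (i (by fun_prop))
      (i (by fun_prop)) fun α _ => mul_le_mul_of_nonneg_left (Complex.re_le_norm _)
        (by positivity)).trans (sum_le_sum_of_subset_of_nonneg (fun k hk => ?_) fun k _ _ =>
          intervalIntegral.integral_nonneg (by linarith) fun α _ => by positivity)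
    simp only [mem_filter, mem_Icc] at hk ⊢
    omega

theorem F_bound {α E : ℝ} {q a b K : ℕ} {r : ℤ} (hq : 1 ≤ q) (hr : IsCoprime r q)
    (hα : |α - r / q| ≤ 1 / (q : ℝ) ^ 2)
    (hE : ∀ k, 1 ≤ k → k ≤ 6 * K * b → (#k.divisors : ℝ) ≤ E) (hE0 : 0 ≤ E) :
    Fs a b K α ^ 2 ≤
      K * (K * b + 4 * E * ((12 * K * b / q + 1) * (3 * b + 4 * q * (1 + Real.log q)))) := by
  have h1 : ∀ k ∈ Icc 1 K, ‖Tk a b k α‖ ^ 2 ≤
      b + 4 * ∑ h ∈ Icc 1 b, gm b ((6 * k * h : ℕ) * α) := by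
    intro k _
    have := vdC (fun x => α * ((x + k : ℕ) : ℝ) ^ 3 - α * (x : ℝ) ^ 3) (a := a) (b := b - k)
      (N := b) (by omega)
    refine this.trans ?_
    rw [show (4 : ℝ) * ∑ h ∈ Icc 1 b, gm b ((6 * k * h : ℕ) * α) =
      2 * ∑ h ∈ Icc 1 b, 2 * gm b ((6 * k * h : ℕ) * α) by rw [← mul_sum]; ring]
    gcongr with h hh
    refine geom_gm (fun n => α * ((n + h + k : ℕ) : ℝ) ^ 3 - α * ((n + h : ℕ) : ℝ) ^ 3 -
      (α * ((n + k : ℕ) : ℝ) ^ 3 - α * (n : ℝ) ^ 3)) (fun n => ?_) (by positivity) ?_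
    · push_cast; ring
    · exact_mod_cast (by omega : b - k - h ≤ a + b)
  refine sq_sum_le_card_mul_sum_sq.trans ?_
  rw [Nat.card_Icc, Nat.add_sub_cancel]
  refine mul_le_mul_of_nonneg_left ((sum_le_sum h1).trans ?_) (by positivity)
  rw [sum_add_distrib, sum_const, Nat.card_Icc, Nat.add_sub_cancel, ← mul_sum, nsmul_eq_mul]
  have h3 := sum_pair_le (X := K) (Y := b) (c := 6) (by norm_num)
    (fun k => gm b (k * α)) (fun k => gm_nonneg (by positivity) _) hE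
  have h4 := vino_sum hq hr hα (Y := b) (by positivity) (6 * K * b)
  have h5 := mul_le_mul_of_nonneg_left h4 hE0
  rw [show 2 * ((6 * K * b : ℕ) : ℝ) = 12 * K * b by push_cast; ring] at h5
  linarith

end Pool.Agent.Lib.MP_0d68fc_nt
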