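import Pool.Agent.Lib.MP_0d68fc_nt.G
import Pool.Agent.Lib.MP_0d68fc_nt.Var
import Pool.Agent.Lib.MP_786755_nt.Count

/-! Major and minor arcs. -/

set_option autoImplicit false

namespace Pool.Agent.Lib.MP_0d68fc_nt

open Finset Pool.Agent.Lib.MP_028aa5_nt Pool.Agent.Lib.MP_786755_nt MeasureTheory
open scoped ComplexConjugate

def EB (u : ℕ) (E : ℝ) : Prop :=
  ∀ m : ℕ, 1 ≤ m → m ≤ 1000 * u ^ 48 → (#m.divisors : ℝ) ≤ E ∧ 1 + Real.log m ≤ E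

lemma EB.one {u : ℕ} {E : ℝ} (h : EB u E) (hu : 2 ≤ u) : 1 ≤ E := by
  simpa using (h 1 le_rfl (Nat.succ_le_of_lt (by positivity))).1

lemma EB.pow {u : ℕ} {E : ℝ} (h : EB u E) (hu : 2 ≤ u) {m : ℕ} (h1 : 1 ≤ m) (h2 : m ≤ u ^ 9) :
    (#m.divisors : ℝ) ≤ E ∧ 1 + Real.log m ≤ E :=
  h m h1 (h2.trans ((Nat.pow_le_pow_right (by omega) (by norm_num)).trans
    (Nat.le_mul_of_pos_left _ (by norm_num))))

noncomputable def FF (u : ℕ) : ℝ → ℝ := Fs (u ^ 6) (256 * u ^ 6) (2 ^ 17 * u ^ 3)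

lemma FF_le {u q : ℕ} {E α : ℝ} {r : ℤ} (hu : 2 ≤ u) (hE : EB u E) (hq : 1 ≤ q) (hq' : q ≤ u ^ 9)
    (hr : IsCoprime r q) (hα : |α - r / q| ≤ 1 / (q : ℝ) ^ 2) :
    FF u α ≤ 2 ^ 30 * E * u ^ 9 ∧ FF u α ≤ 2 ^ 29 * E * (u ^ 6 + u ^ 12 / q) := by
  have E1 := hE.one hu
  have u1 : (1 : ℝ) ≤ u := by exact_mod_cast (by omega : 1 ≤ u)
  have q1 : (1 : ℝ) ≤ q := by exact_mod_cast hq
  have q2 : (q : ℝ) ≤ u ^ 9 := by exact_mod_cast hq'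
  have h := F_bound (a := u ^ 6) (b := 256 * u ^ 6) (K := 2 ^ 17 * u ^ 3) hq hr hα
    (fun k h1 h2 => (hE k h1 (h2.trans (by
      calc 6 * (2 ^ 17 * u ^ 3) * (256 * u ^ 6) = 6 * (2 ^ 25 * u ^ 9) := by ring
        _ ≤ 1000 * (u ^ 39 * u ^ 9) := by
          gcongr <;> omega
        _ = _ := by ring))).1) (by linarith)
  have hL := (hE.pow hu hq hq').2
  have h2 : FF u α ^ 2 ≤ 2 ^ 58 * E ^ 2 * (u ^ 12 + u ^ 18 / q) := by
    refine h.trans (le_trans (b := (2 ^ 17 * u ^ 3 : ℕ) * ((2 ^ 17 * u ^ 3 : ℕ) * (256 * u ^ 6 : ℕ) +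
      4 * E * ((12 * (2 ^ 17 * u ^ 3 : ℕ) * (256 * u ^ 6 : ℕ) / q + 1) *
        (3 * (256 * u ^ 6 : ℕ) + 4 * q * E)))) (by gcongr) ?_)
    have e1 : (u : ℝ) ^ 9 ≤ u ^ 12 := pow_le_pow_right₀ u1 (by norm_num)
    have e2 : E ≤ E ^ 2 := by nlinarith
    have e3 : E * (u ^ 18 / q) ≤ E ^ 2 * (u ^ 18 / q) := by gcongr
    have e4 : E * u ^ 9 ≤ E ^ 2 * u ^ 12 := by gcongr
    have e5 : E ^ 2 * (u ^ 3 * q) ≤ E ^ 2 * (u ^ 3 * u ^ 9) := by gcongr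
    have e6 : 1 * (u : ℝ) ^ 12 ≤ E ^ 2 * u ^ 12 := by gcongr; linarith
    have e7 : 0 ≤ E ^ 2 * (u ^ 18 / q) := by positivity
    have e8 : 0 ≤ E ^ 2 * u ^ 12 := by positivity
    have e9 : ((2 ^ 17 * u ^ 3 : ℕ) : ℝ) * ((2 ^ 17 * u ^ 3 : ℕ) * (256 * u ^ 6 : ℕ) +
      4 * E * ((12 * (2 ^ 17 * u ^ 3 : ℕ) * (256 * u ^ 6 : ℕ) / q + 1) *
        (3 * (256 * u ^ 6 : ℕ) + 4 * q * E))) = 2 ^ 42 * u ^ 12 + 144 * 2 ^ 50 * (E * (u ^ 18 / q)) +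
          192 * 2 ^ 42 * (E ^ 2 * u ^ 12) + 12 * 2 ^ 25 * (E * u ^ 9) +
            16 * 2 ^ 17 * (E ^ 2 * (u ^ 3 * q)) := by
      push_cast
      field_simp
      ring
    rw [e9]
    linarith
  constructor
  · refine abs_le_of_sq_le_sq' (h2.trans ?_) (by positivity) |>.2
    have e1 : (u : ℝ) ^ 12 ≤ u ^ 18 := pow_le_pow_right₀ u1 (by norm_num)
    have e2 : (u : ℝ) ^ 18 / q ≤ u ^ 18 := div_le_self (by positivity) q1
    have e3 := mul_le_mul_of_nonneg_left (add_le_add e1 e2) (by positivity : 0 ≤ E ^ 2)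
    have e4 : 0 ≤ E ^ 2 * u ^ 18 := by positivity
    nlinarith
  · refine abs_le_of_sq_le_sq' (h2.trans ?_) (by positivity) |>.2
    rw [mul_pow, mul_pow, show ((u : ℝ) ^ 6 + u ^ 12 / q) ^ 2 =
      u ^ 12 + u ^ 18 / q + (u ^ 18 / q + (u ^ 12 / q) ^ 2) by ring, ← pow_mul]
    exact mul_le_mul_of_nonneg_left (le_add_of_nonneg_right (by positivity)) (by positivity)

lemma g4 {u q : ℕ} {E β : ℝ} {r : ℤ} (hu : 2 ≤ u) (hE : EB u E) (hq : 1 ≤ q) (hq' : q ≤ u ^ 6)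
    (hr : IsCoprime r q) (hβ : |β| * (u ^ 9 * q) ≤ 1) : ‖gg (u ^ 5) (r / q + β)‖ ^ 4 ≤
      10 ^ 37 * u ^ 20 * ‖s3 q r 1‖ ^ 4 / (1 + u ^ 15 * |β|) ^ 8 + 10 ^ 47 * E ^ 28 * u ^ 12 := by
  have E1 := hE.one hu
  have q2 : (q : ℝ) ≤ u ^ 6 := by exact_mod_cast hq'
  have h := g_approx (Q := u ^ 5) (by positivity) hq hr
    (hE.pow hu hq (hq'.trans (Nat.pow_le_pow_right (by omega) (by norm_num)))).1 β
  push_cast at h
  rw [← pow_mul, show 5 * 3 = 15 from rfl] at h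
  have e1 : q * (1 + (u : ℝ) ^ 15 * |β|) ≤ 2 * u ^ 6 := by
    have := mul_le_mul_of_nonneg_left hβ (by positivity : (0 : ℝ) ≤ u ^ 6)
    linarith
  have e2 : √(q * (1 + (u : ℝ) ^ 15 * |β|)) ^ 4 ≤ (2 * u ^ 6) ^ 2 := by
    rw [show 4 = 2 * 2 by norm_num, pow_mul, Real.sq_sqrt (by positivity)]
    gcongr
  refine (pow_le_pow_left₀ (norm_nonneg _) h 4).trans
    ((add_pow_le (by positivity) (by positivity) 4).trans ?_)
  rw [mul_add]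
  refine add_le_add ?_ ?_
  · rw [div_pow, ← pow_mul, ← mul_div_assoc]
    refine div_le_div_of_nonneg_right ?_ (by positivity)
    have : 0 ≤ (u : ℝ) ^ 20 * ‖s3 q r 1‖ ^ 4 := by positivity
    rw [show (10 ^ 9 * (u : ℝ) ^ 5 * ‖s3 q r 1‖) ^ 4 = 10 ^ 36 * (u ^ 20 * ‖s3 q r 1‖ ^ 4) by ring,
      mul_assoc]
    norm_num
    linarith
  · rw [mul_pow]
    refine (mul_le_mul_of_nonneg_left (mul_le_mul_of_nonneg_left e2 (by positivity))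
      (by positivity)).trans ?_
    have : 0 ≤ E ^ 28 * (u : ℝ) ^ 12 := by positivity
    rw [show (2 * 10 ^ 11 * E ^ 7) ^ 4 * (2 * (u : ℝ) ^ 6) ^ 2 = 64 * 10 ^ 44 * (E ^ 28 * u ^ 12) by
      ring, mul_assoc]
    norm_num
    linarith

noncomputable def GG (u H Y : ℕ) (α : ℝ) : ℝ := ‖gg (u ^ 5) α‖ ^ 4 * ‖kk H α - kk Y α‖ ^ 2

noncomputable def bump (N B c α : ℝ) : ℝ := B / (1 + N * |α - c|) ^ 2

lemma continuous_bump {N : ℝ} (hN : 0 ≤ N) (B c : ℝ) : Continuous (bump N B c) :=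
  Continuous.div (by fun_prop) (by fun_prop) fun β => by positivity

noncomputable def Mq (u H q : ℕ) (r : ℤ) (α : ℝ) : ℝ :=
  bump (u ^ 15) (u ^ 29 * (tq q ^ 2 / q) / H * (1 / |(r : ℝ)|)) (r / q) α +
    bump (u ^ 9 * q) (u ^ 24 / H * (1 / |(r : ℝ)|)) (r / q) α

noncomputable def Maj (u H : ℕ) (α : ℝ) : ℝ :=
  bump (u ^ 15) (u ^ 23) 0 α + bump (u ^ 9) (u ^ 21) 0 α +
    ∑ q ∈ Icc 1 (u ^ 6), ∑ r ∈ Icc (-(q : ℤ)) q, Mq u H q r α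

lemma Mq_nonneg (u H q : ℕ) (r : ℤ) (α : ℝ) : 0 ≤ Mq u H q r α := by
  unfold Mq bump; positivity

lemma pt {u H Y : ℕ} {E α : ℝ} (hu : 2 ≤ u) (hE : EB u E) (hH : 1 ≤ H) (hH' : H ≤ u ^ 4)
    (hY : Y = 2 ^ 18 * u ^ 12) (hα : |α| ≤ 1 / 2) :
    GG u H Y α * FF u α ≤ 2 ^ 30 * E * u ^ 6 * GG u H Y α + 10 ^ 60 * E ^ 29 * Maj u H α := by
  have E1 := hE.one hu
  have u2 : (2 : ℝ) ≤ u := by exact_mod_cast hu
  have u1 : (1 : ℝ) ≤ u := by linarith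
  have H1 : (1 : ℝ) ≤ H := by exact_mod_cast hH
  have G0 : 0 ≤ GG u H Y α := by unfold GG; positivity
  have S0 : 0 ≤ ∑ q ∈ Icc 1 (u ^ 6), ∑ r ∈ Icc (-(q : ℤ)) q, Mq u H q r α :=
    sum_nonneg fun _ _ => sum_nonneg fun _ _ => Mq_nonneg _ _ _ _ _
  have hY' : (Y : ℝ) = 2 ^ 18 * u ^ 12 := by rw [hY]; push_cast; ring
  have HY : (H : ℝ) ≤ Y := by
    rw [hY]
    exact_mod_cast hH'.trans ((Nat.pow_le_pow_right (by omega) (by norm_num)).trans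
      (Nat.le_mul_of_pos_left _ (by norm_num)))
  obtain ⟨q, r, q1, q2, hr, b1, b2⟩ := dirich α (Y := u ^ 9) (by positivity)
  obtain ⟨f1, f2⟩ := FF_le hu hE q1 q2 hr b2
  have q3 : (1 : ℝ) ≤ q := by exact_mod_cast q1
  push_cast at b1
  rcases lt_or_ge (u ^ 6) q with hq | hq
  · have e1 : (u : ℝ) ^ 12 / q ≤ u ^ 6 := by
      have : (u : ℝ) ^ 6 ≤ q := by exact_mod_cast hq.le
      rw [div_le_iff₀ (by positivity), show (u : ℝ) ^ 12 = u ^ 6 * u ^ 6 by ring]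
      gcongr
    have e2 : FF u α ≤ 2 ^ 30 * E * u ^ 6 := f2.trans (by nlinarith)
    have e3 : 0 ≤ 10 ^ 60 * E ^ 29 * Maj u H α := by unfold Maj bump; positivity
    nlinarith
  refine le_add_of_nonneg_of_le (by positivity) ?_
  have g := g4 hu hE q1 hq hr b1
  rw [add_sub_cancel] at g
  have F0 : 0 ≤ FF u α := Fs_nonneg _ _ _ _
  have EE : ∀ k ≤ 29, E ^ k ≤ E ^ 29 := fun k hk => pow_le_pow_right₀ E1 hk
  obtain ⟨T, hT⟩ : ∃ T : ℝ, T = 1 + u ^ 15 * |α - r / q| := ⟨_, rfl⟩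
  have T1 : 1 ≤ T := by rw [hT]; exact le_add_of_nonneg_right (by positivity)
  obtain ⟨R, hR⟩ : ∃ R : ℝ, R = 1 + u ^ 9 * q * |α - r / q| := ⟨_, rfl⟩
  have R1 : 1 ≤ R := by rw [hR]; exact le_add_of_nonneg_right (by positivity)
  have R2 : 1 ≤ 4 / R ^ 2 := by
    rw [le_div_iff₀ (by positivity)]
    have : R ≤ 2 := by rw [hR]; linarith
    nlinarith
  rw [← hT] at g
  obtain ⟨κ, hκ⟩ : ∃ κ, κ = ‖kk H α - kk Y α‖ ^ 2 := ⟨_, rfl⟩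
  have κ0 : 0 ≤ κ := by rw [hκ]; positivity
  have k1 := kk_one H α
  have k2 := kk_one Y α
  have k3 := norm_sub_le (kk H α) (kk Y α)
  have main : ∀ {A B : ℝ}, 10 ^ 37 * u ^ 20 * ‖s3 q r 1‖ ^ 4 / T ^ 8 * κ * FF u α ≤ A →
      10 ^ 47 * E ^ 28 * u ^ 12 * κ * FF u α ≤ B → GG u H Y α * FF u α ≤ A + B := fun h1 h2 => by
    rw [GG, ← hκ]
    refine (mul_le_mul_of_nonneg_right (mul_le_mul_of_nonneg_right g κ0) F0).trans ?_
    linarith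
  by_cases r0 : r = 0
  · have q0 : q = 1 := by
      rw [r0, isCoprime_zero_left, Int.isUnit_iff_natAbs_eq] at hr
      simpa using hr
    simp only [r0, q0, Int.cast_zero, zero_div, sub_zero, Nat.cast_one, mul_one] at hT hR
    have k4 : κ ≤ 2 ^ 2 := by rw [hκ]; gcongr; linarith
    have k5 : κ ≤ (14 * (2 ^ 18 * u ^ 12) * (T / u ^ 15)) ^ 2 := by
      have a1 := kk_sub hH α
      have a2 := kk_sub (H := Y) (by rw [hY]; positivity) α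
      have a3 := norm_sub_le (kk H α - 1) (kk Y α - 1)
      rw [sub_sub_sub_cancel_right] at a3
      have a4 : |α| ≤ T / u ^ 15 := by rw [le_div_iff₀ (by positivity), hT]; linarith
      have a5 := mul_le_mul_of_nonneg_right HY (abs_nonneg α)
      have a6 := mul_le_mul_of_nonneg_left a4 (by positivity : (0 : ℝ) ≤ Y)
      rw [hκ, ← hY']
      gcongr
      linarith
    have s1 := norm_s3_one_le q r
    refine (main (A := 10 ^ 60 * E ^ 29 * (u ^ 23 / T ^ 2)) (B := 10 ^ 60 * E ^ 29 * (u ^ 21 / R ^ 2))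
      ?_ ?_).trans ?_
    · calc _ ≤ 10 ^ 37 * u ^ 20 * 1 ^ 4 / T ^ 4 * (14 * (2 ^ 18 * u ^ 12) * (T / u ^ 15)) ^ 2 *
            (2 ^ 30 * E ^ 1 * u ^ 9) := by
            rw [pow_one]; gcongr; norm_num
        _ = 10 ^ 37 * 196 * 2 ^ 66 * E ^ 1 * (u ^ 23 / T ^ 2) := by field_simp; norm_num
        _ ≤ _ := by gcongr <;> norm_num
    · calc _ ≤ 10 ^ 47 * E ^ 28 * u ^ 12 * 2 ^ 2 * (2 ^ 30 * E * u ^ 9) * 1 := by
            rw [mul_one]; gcongr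
        _ ≤ 10 ^ 47 * E ^ 28 * u ^ 12 * 2 ^ 2 * (2 ^ 30 * E * u ^ 9) * (4 / R ^ 2) := by gcongr
        _ = 10 ^ 47 * 2 ^ 34 * E ^ 29 * (u ^ 21 / R ^ 2) := by field_simp; norm_num
        _ ≤ _ := by gcongr; norm_num
    · rw [← mul_add, Maj, bump, bump, sub_zero, ← hT, ← hR]
      exact mul_le_mul_of_nonneg_left (le_add_of_nonneg_right S0) (by positivity)
  have r1 : (1 : ℝ) ≤ |(r : ℝ)| := by exact_mod_cast Int.one_le_abs r0
  have b3 : |α - r / q| * q ≤ 1 / 2 := by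
    have : (2 : ℝ) ≤ u ^ 9 := u2.trans (le_self_pow₀ u1 (by norm_num))
    have h1 : |α - r / q| * (2 * q) ≤ |α - r / q| * (u ^ 9 * q) := by gcongr
    linarith
  have b4 : |(r : ℝ)| ≤ |α| * q + |α - r / q| * q := by
    have h1 := abs_sub α (α - r / q)
    rw [sub_sub_cancel, abs_div, Nat.abs_cast, div_le_iff₀ (by positivity)] at h1
    linarith
  have b5 : |r| ≤ q := by
    have : |(r : ℝ)| ≤ q := by nlinarith
    exact_mod_cast this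
  have k4 : κ ≤ 4 * q / H * (1 / |(r : ℝ)|) := by
    have a1 := kk_inv H hα
    have a2 := kk_inv Y hα
    have a3 : ‖kk Y α‖ * (H * |α|) ≤ 1 / 2 := le_trans (by gcongr) a2
    have a4 : κ ≤ 2 * (‖kk H α‖ + ‖kk Y α‖) := by
      rw [hκ, sq]
      exact mul_le_mul (by linarith) k3 (norm_nonneg _) (by norm_num)
    have a5 : κ * (H * |α|) ≤ 2 := by
      have := mul_le_mul_of_nonneg_right a4 (by positivity : 0 ≤ H * |α|)
      linarith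
    have a6 : |(r : ℝ)| ≤ 2 * (|α| * q) := by linarith
    rw [mul_one_div, div_div, le_div_iff₀ (by positivity)]
    have a7 := mul_le_mul_of_nonneg_left a6 (by positivity : 0 ≤ κ * H)
    have a8 := mul_le_mul_of_nonneg_right a5 (by positivity : (0 : ℝ) ≤ q)
    linarith
  have s1 : ‖s3 q r 1‖ ^ 4 ≤ (E ^ 7 * tq q / q) ^ 2 := by
    rw [show 4 = 2 * 2 by norm_num, pow_mul]
    gcongr
    refine ((tq_spec (by omega : q ≠ 0)).2.2 r 1 hr).trans ?_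
    gcongr
    exact le_trans (by norm_num) (pow_om_le (by omega) (hE.pow hu q1 q2).1 7)
  have f3 : FF u α ≤ 2 ^ 30 * E * (u ^ 12 / q) := by
    have : (u : ℝ) ^ 6 ≤ u ^ 12 / q := by
      have : (q : ℝ) ≤ u ^ 6 := by exact_mod_cast hq
      rw [le_div_iff₀ (by positivity), show (u : ℝ) ^ 12 = u ^ 6 * u ^ 6 by ring]
      gcongr
    exact f2.trans (by nlinarith)
  refine (main (A := 10 ^ 60 * E ^ 29 * (u ^ 29 * (tq q ^ 2 / q) / H * (1 / |(r : ℝ)|) / T ^ 2))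
    (B := 10 ^ 60 * E ^ 29 * (u ^ 24 / H * (1 / |(r : ℝ)|) / R ^ 2)) ?_ ?_).trans ?_
  · calc _ ≤ 10 ^ 37 * u ^ 20 * (E ^ 7 * tq q / q) ^ 2 / T ^ 2 * (4 * q / H * (1 / |(r : ℝ)|)) *
          (2 ^ 30 * E * u ^ 9) := by gcongr; norm_num
      _ = 10 ^ 37 * 2 ^ 32 * E ^ 15 * (u ^ 29 * (tq q ^ 2 / q) / H * (1 / |(r : ℝ)|) / T ^ 2) := by
          field_simp; norm_num
      _ ≤ _ := by gcongr <;> norm_num
  · calc _ ≤ 10 ^ 47 * E ^ 28 * u ^ 12 * (4 * q / H * (1 / |(r : ℝ)|)) *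
          (2 ^ 30 * E * (u ^ 12 / q)) * 1 := by rw [mul_one]; gcongr
      _ ≤ 10 ^ 47 * E ^ 28 * u ^ 12 * (4 * q / H * (1 / |(r : ℝ)|)) *
          (2 ^ 30 * E * (u ^ 12 / q)) * (4 / R ^ 2) := by gcongr
      _ = 10 ^ 47 * 2 ^ 34 * E ^ 29 * (u ^ 24 / H * (1 / |(r : ℝ)|) / R ^ 2) := by
          field_simp; norm_num
      _ ≤ _ := by gcongr; norm_num
  · rw [← mul_add, Maj]
    refine mul_le_mul_of_nonneg_left (le_add_of_nonneg_of_le (by unfold bump; positivity) ?_)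
      (by positivity)
    refine le_trans ?_ (single_le_sum (f := fun q : ℕ => ∑ r ∈ Icc (-(q : ℤ)) q, Mq u H q r α)
      (fun _ _ => sum_nonneg fun _ _ => Mq_nonneg _ _ _ _ _) (mem_Icc.mpr ⟨q1, hq⟩))
    refine le_trans ?_ (single_le_sum (f := fun r => Mq u H q r α)
      (fun _ _ => Mq_nonneg _ _ _ _ _) (mem_Icc.mpr (abs_le.mp b5)))
    simp only [Mq, bump, ← hT, ← hR, le_refl]

end Pool.Agent.Lib.MP_0d68fc_nt
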