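import Pool.Agent.Lib.MP_0d68fc_nt.Pois

/-! Spacing counts and mean squares. -/

set_option autoImplicit false

namespace Pool.Agent.Lib.MP_0d68fc_nt

open Finset Pool.Agent.Lib.MP_028aa5_nt Pool.Agent.Lib.MP_786755_nt MeasureTheory
open scoped ComplexConjugate

/-- weighted number of pairs with close frequencies -/
noncomputable def cw {ι : Type*} (s : Finset ι) (c ν : ι → ℝ) (δ : ℝ) : ℝ :=
  ∑ i ∈ s, ∑ k ∈ s, if |ν i - ν k| ≤ δ then c i * c k else 0

lemma cw_mono {ι : Type*} (s : Finset ι) {c : ι → ℝ} (hc : ∀ i, 0 ≤ c i) (ν : ι → ℝ) {δ δ' : ℝ}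
    (h : δ ≤ δ') : cw s c ν δ ≤ cw s c ν δ' := by
  refine sum_le_sum fun i _ => sum_le_sum fun k _ => ?_
  have := mul_nonneg (hc i) (hc k)
  split_ifs with h1 h2
  · exact le_rfl
  · exact absurd (h1.trans h) h2
  · exact this
  · exact le_rfl

lemma sq_expand {ι : Type*} (s : Finset ι) (a : ι → ℂ) (ν : ι → ℝ) (x : ℝ) :
    ((‖∑ i ∈ s, a i * e (ν i * x)‖ ^ 2 : ℝ) : ℂ) =
      ∑ i ∈ s, ∑ k ∈ s, a i * conj (a k) * e ((ν i - ν k) * x) := by
  rw [Complex.ofReal_pow, ← Complex.mul_conj', map_sum, sum_mul_sum]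
  refine sum_congr rfl fun i _ => sum_congr rfl fun k _ => ?_
  rw [map_mul, sub_mul, ← e_mul_conj]
  ring

lemma low {ι : Type*} (s : Finset ι) {c : ι → ℝ} (hc : ∀ i, 0 ≤ c i) (ν : ι → ℝ) {η δ : ℝ}
    (hη : 0 < η) (h : 2 * η * δ ≤ 1) :
    η / 3 * cw s c ν δ ≤ ∫ β in (-η)..η, ‖∑ i ∈ s, (c i : ℂ) * e (ν i * β)‖ ^ 2 := by
  choose k k1 k2 k3 using int_tent hη
  have e1 : ((∫ β in (-η)..η, tent η β * ‖∑ i ∈ s, (c i : ℂ) * e (ν i * β)‖ ^ 2 : ℝ) : ℂ) =
      ((∑ i ∈ s, ∑ l ∈ s, c i * c l * k (ν i - ν l) : ℝ) : ℂ) := by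
    rw [← intervalIntegral.integral_ofReal]
    simp only [Complex.ofReal_mul, sq_expand, mul_sum, Complex.ofReal_sum, ← k1]
    rw [intervalIntegral.integral_finsetSum fun i _ =>
      Continuous.intervalIntegrable (by fun_prop) _ _]
    refine sum_congr rfl fun i _ => ?_
    rw [intervalIntegral.integral_finsetSum fun i _ =>
      Continuous.intervalIntegrable (by fun_prop) _ _]
    refine sum_congr rfl fun l _ => ?_
    rw [← intervalIntegral.integral_const_mul]
    refine intervalIntegral.integral_congr fun β _ => ?_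
    simp only [Complex.conj_ofReal, mul_comm β]
    ring
  calc _ ≤ ∑ i ∈ s, ∑ l ∈ s, c i * c l * k (ν i - ν l) := by
        simp only [cw, mul_sum]
        refine sum_le_sum fun i _ => sum_le_sum fun l _ => ?_
        have h0 := mul_nonneg (hc i) (hc l)
        split_ifs with h1
        · rw [mul_comm]
          exact mul_le_mul_of_nonneg_left (k3 _ (le_trans (by gcongr) h)) h0
        · rw [mul_zero]; exact mul_nonneg h0 (k2 _)
    _ = _ := (Complex.ofReal_injective e1).symm
    _ ≤ _ := by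
        refine intervalIntegral.integral_mono_on (by linarith)
          (Continuous.intervalIntegrable (by fun_prop) _ _)
          (Continuous.intervalIntegrable (by fun_prop) _ _) fun β _ => ?_
        refine mul_le_of_le_one_left (by positivity) (max_le zero_le_one ?_)
        have : 0 ≤ |β| / η := by positivity
        linarith

lemma dy_pt {t β δ z : ℝ} (hβ : 0 ≤ β) (hδ : 0 < δ) (h1 : t ≤ β) (h2 : t * z ≤ β * δ) (I : ℕ)
    (hz : z ≤ 2 ^ I * δ) :
    t ≤ ∑ l ∈ range (I + 1), 2 * β / 2 ^ l * if z ≤ 2 ^ l * δ then 1 * 1 else 0 := by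
  induction I with
  | zero => rw [sum_range_one, if_pos hz]; linarith
  | succ n ih =>
    rw [sum_range_succ, if_pos hz]
    rcases le_or_gt z (2 ^ n * δ) with h | h
    · have : 0 ≤ 2 * β / 2 ^ (n + 1) * (1 * 1) := by positivity
      linarith [ih h]
    · have h3 : 0 ≤ ∑ l ∈ range (n + 1), 2 * β / 2 ^ l * if z ≤ 2 ^ l * δ then 1 * 1 else 0 :=
        sum_nonneg fun l _ => by split_ifs <;> positivity
      have h4 : t ≤ 2 * β / 2 ^ (n + 1) * (1 * 1) := by
        rw [show 2 * β / 2 ^ (n + 1) * (1 * 1) = β / 2 ^ n by field_simp; ring,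
          le_div_iff₀ (by positivity)]
        rcases le_or_gt t 0 with h5 | h5
        · exact (mul_nonpos_of_nonpos_of_nonneg h5 (by positivity)).trans hβ
        · have := mul_le_mul_of_nonneg_left h.le h5.le
          refine le_of_mul_le_mul_right ?_ hδ
          linarith
      linarith

lemma quad {ι : Type*} (s : Finset ι) (ν : ι → ℝ) {a a1 : ι → ℝ → ℂ} {Ψ p : ℝ → ℝ}
    {X α0 α1 pm β δ B : ℝ} (hX : 0 < X) (hδ : 0 < δ)
    (ha : ∀ i ∈ s, ∀ x ∈ Set.Icc X (2 * X), HasDerivAt (a i) (a1 i x) x ∧ ‖a i x‖ ≤ α0 ∧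
      ‖a1 i x‖ ≤ α1) (c1 : ∀ i ∈ s, ContinuousOn (a1 i) (Set.Icc X (2 * X)))
    (hΨ : ∀ x ∈ Set.Icc X (2 * X), HasDerivAt Ψ (p x) x ∧ |p x| ≤ pm)
    (cp : ContinuousOn p (Set.Icc X (2 * X))) (hβ : 0 ≤ β) (b1 : α0 ^ 2 * pm * X ≤ β)
    (b2 : 2 * α0 ^ 2 + 2 * α0 * α1 * X ≤ β * δ) {I : ℕ}
    (hI : ∀ i ∈ s, ∀ k ∈ s, |ν i - ν k| ≤ 2 ^ I * δ)
    (hB : ∀ l : ℕ, cw s (fun _ => 1) ν (2 ^ l * δ) ≤ 2 ^ l * B) :
    ∫ x in X..2 * X, p x * ‖∑ i ∈ s, a i x * e (ν i * Ψ x)‖ ^ 2 ≤ 2 * (I + 1) * β * B := by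
  have hX2 : X ≤ 2 * X := by linarith
  have c0 : ∀ i ∈ s, ContinuousOn (a i) (Set.Icc X (2 * X)) :=
    fun i hi x hx => (ha i hi x hx).1.continuousAt.continuousWithinAt
  have cΨ : ContinuousOn Ψ (Set.Icc X (2 * X)) :=
    fun x hx => (hΨ x hx).1.continuousAt.continuousWithinAt
  have cc : ∀ i ∈ s, ∀ k ∈ s, ContinuousOn
      (fun x => a i x * conj (a k x) * p x * e ((ν i - ν k) * Ψ x)) (Set.Icc X (2 * X)) := by
    intro i hi k hk
    have := c0 i hi
    have := c0 k hk
    fun_prop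
  have e1 : ((∫ x in X..2 * X, p x * ‖∑ i ∈ s, a i x * e (ν i * Ψ x)‖ ^ 2 : ℝ) : ℂ) =
      ∑ i ∈ s, ∑ k ∈ s, ∫ x in X..2 * X, a i x * conj (a k x) * p x * e ((ν i - ν k) * Ψ x) := by
    rw [← intervalIntegral.integral_ofReal, intervalIntegral.integral_congr
      (g := fun x => ∑ i ∈ s, ∑ k ∈ s, a i x * conj (a k x) * p x * e ((ν i - ν k) * Ψ x))
      fun x _ => by
        simp only [Complex.ofReal_mul, sq_expand, mul_sum]
        exact sum_congr rfl fun i _ => sum_congr rfl fun k _ => by ring,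
      intervalIntegral.integral_finsetSum fun i hi => ContinuousOn.intervalIntegrable_of_Icc hX2
        (continuousOn_finsetSum _ fun k hk => cc i hi k hk)]
    exact sum_congr rfl fun i hi => intervalIntegral.integral_finsetSum fun k hk =>
      (cc i hi k hk).intervalIntegrable_of_Icc hX2
  refine (le_abs_self _).trans ?_
  rw [← Real.norm_eq_abs, ← Complex.norm_real, e1]
  calc _ ≤ ∑ i ∈ s, ∑ k ∈ s, ∑ l ∈ range (I + 1),
        2 * β / 2 ^ l * if |ν i - ν k| ≤ 2 ^ l * δ then 1 * 1 else 0 := by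
        refine (norm_sum_le _ _).trans (sum_le_sum fun i hi => (norm_sum_le _ _).trans
          (sum_le_sum fun k hk => dy_pt hβ hδ ?_ ?_ I (hI i hi k hk)))
        · refine (intervalIntegral.norm_integral_le_of_norm_le_const (C := α0 ^ 2 * pm)
            fun x hx => ?_).trans (by rwa [show 2 * X - X = X by ring, abs_of_pos hX])
          rw [Set.uIoc_of_le hX2] at hx
          have hx' : x ∈ Set.Icc X (2 * X) := ⟨hx.1.le, hx.2⟩
          have h0 := (norm_nonneg _).trans (ha i hi x hx').2.1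
          simp only [norm_mul, norm_e, mul_one, Complex.norm_conj, Complex.norm_real,
            Real.norm_eq_abs, sq]
          exact mul_le_mul (mul_le_mul (ha i hi x hx').2.1 (ha k hk x hx').2.1 (norm_nonneg _) h0)
            (hΨ x hx').2 (abs_nonneg _) (by positivity)
        · have h0 := (norm_nonneg _).trans (ha i hi X ⟨le_rfl, hX2⟩).2.1
          have q0 : ∀ x ∈ Set.Icc X (2 * X), ∀ y, ‖a i x * conj (a k x) * e y‖ ≤ α0 ^ 2 := by
            intro x hx y
            simp only [norm_mul, norm_e, mul_one, Complex.norm_conj, sq]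
            exact mul_le_mul (ha i hi x hx).2.1 (ha k hk x hx).2.1 (norm_nonneg _) h0
          have := c0 i hi
          have := c0 k hk
          have := c1 i hi
          have := c1 k hk
          have q1 := ibp (V := fun x => a i x * conj (a k x))
            (V' := fun x => a1 i x * conj (a k x) + a i x * conj (a1 k x))
            (ψ := fun x => (ν i - ν k) * Ψ x) (p := fun x => (ν i - ν k) * p x) hX2
            (fun x hx => (ha i hi x hx).1.mul (ha k hk x hx).1.star)
            (fun x hx => (hΨ x hx).1.const_mul _) (by fun_prop) (by fun_prop)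
          have q2 : ‖∫ x in X..2 * X, (a1 i x * conj (a k x) + a i x * conj (a1 k x)) *
              e ((ν i - ν k) * Ψ x)‖ ≤ 2 * α0 * α1 * X := by
            refine (intervalIntegral.norm_integral_le_of_norm_le_const (C := 2 * α0 * α1)
              fun x hx => ?_).trans (by rw [show 2 * X - X = X by ring, abs_of_pos hX])
            rw [Set.uIoc_of_le hX2] at hx
            have hx' : x ∈ Set.Icc X (2 * X) := ⟨hx.1.le, hx.2⟩
            rw [norm_mul, norm_e, mul_one]
            refine (norm_add_le _ _).trans ?_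
            simp only [norm_mul, Complex.norm_conj]
            have r1 := mul_le_mul (ha i hi x hx').2.2 (ha k hk x hx').2.1 (norm_nonneg _)
              ((norm_nonneg _).trans (ha i hi x hx').2.2)
            have r2 := mul_le_mul (ha i hi x hx').2.1 (ha k hk x hx').2.2 (norm_nonneg _) h0
            linarith
          rw [intervalIntegral.integral_congr (g := fun x => ((ν i - ν k : ℝ) : ℂ) *
            (a i x * conj (a k x) * p x * e ((ν i - ν k) * Ψ x))) fun x _ => by push_cast; ring,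
            intervalIntegral.integral_const_mul] at q1
          have q3 := congrArg norm q1
          rw [norm_mul, norm_mul, Complex.norm_real, Real.norm_eq_abs] at q3
          have q4 := mul_le_mul_of_nonneg_right one_le_tp (by positivity : 0 ≤ |ν i - ν k| *
            ‖∫ x in X..2 * X, a i x * conj (a k x) * p x * e ((ν i - ν k) * Ψ x)‖)
          rw [q3] at q4
          have q5 := q4.trans ((norm_sub_le _ _).trans (add_le_add ((norm_sub_le _ _).trans
            (add_le_add (q0 _ ⟨hX2, le_rfl⟩ _) (q0 _ ⟨le_rfl, hX2⟩ _))) q2))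
          linarith
    _ = ∑ l ∈ range (I + 1), 2 * β / 2 ^ l * cw s (fun _ => 1) ν (2 ^ l * δ) := by
        simp only [cw, mul_sum]
        rw [sum_congr rfl fun i _ => sum_comm, sum_comm]
    _ ≤ ∑ l ∈ range (I + 1), 2 * β * B := sum_le_sum fun l _ =>
        (mul_le_mul_of_nonneg_left (hB l) (by positivity)).trans_eq (by field_simp)
    _ = _ := by simp; ring

end Pool.Agent.Lib.MP_0d68fc_nt
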