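import Pool.Agent.Lib.MP_0d68fc_nt.Rec
import Pool.Agent.Lib.MP_786755_nt.W.Comp

/-! The smooth cubic sum near rationals, the kernel, and mean values. -/

set_option autoImplicit false

namespace Pool.Agent.Lib.MP_0d68fc_nt

open Finset Pool.Agent.Lib.MP_028aa5_nt Pool.Agent.Lib.MP_786755_nt MeasureTheory
open scoped ComplexConjugate

noncomputable def gg (Q : ℕ) (α : ℝ) : ℂ := ∑ y ∈ range (16 * Q), om true (y / Q) * e (α * y ^ 3)

@[fun_prop] lemma continuous_gg (Q : ℕ) : Continuous (gg Q) := by unfold gg; fun_prop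

lemma sum_range_mul' (q : ℕ) (f : ℕ → ℂ) (L : ℕ) :
    ∑ y ∈ range (q * L), f y = ∑ c ∈ range q, ∑ n ∈ range L, f (q * n + c) := by
  induction L with
  | zero => simp
  | succ n ih =>
    rw [mul_add, mul_one, sum_range_add, ih, ← sum_add_distrib]
    exact sum_congr rfl fun c _ => (sum_range_succ _ _).symm

lemma gg_sum {Q q : ℕ} (hQ : 0 < Q) (hq : 0 < q) (r : ℤ) (β : ℝ) :
    HasSum (fun t : ℤ => ((Q / q : ℝ) : ℂ) * II true (β * Q ^ 3) (t * (Q / q)) * Sc q r t)
      (gg Q (r / q + β)) := by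
  have Q0 : (0 : ℝ) < Q := by exact_mod_cast hQ
  have q0 : (0 : ℝ) < q := by exact_mod_cast hq
  have q1 : (1 : ℝ) ≤ q := by exact_mod_cast hq
  have h := hasSum_sum (s := range q) fun c hc =>
    (pois true (β * Q ^ 3) (M := Q / q) (x := c / q) (by positivity) (by positivity)
      (by rw [div_le_one q0]; exact_mod_cast (mem_range.mp hc).le) (L := 16 * Q) (by
        have : (Q : ℝ) / q ≤ Q := div_le_self Q0.le q1
        simp only [pw]; push_cast; linarith)).mul_left (ec q (r * c ^ 3))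
  have e1 : gg Q (r / q + β) = ∑ c ∈ range q, ec q (r * c ^ 3) *
      ∑ n ∈ range (16 * Q), fz true (β * Q ^ 3) (Q / q) (c / q + n) := by
    rw [gg, sum_subset (range_mono (Nat.le_mul_of_pos_left _ hq)) fun y _ hy => ?_, sum_range_mul']
    · refine sum_congr rfl fun c _ => ?_
      rw [mul_sum]
      refine sum_congr rfl fun n _ => ?_
      have e2 := e_add_div q r (((q * n + c : ℕ) : ℤ) ^ 3) β
      rw [ec_congr (y := r * c ^ 3) (Int.ModEq.mul_left _ (Int.ModEq.pow 3 (by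
        push_cast
        exact Int.modEq_iff_dvd.mpr ⟨-n, by ring⟩)))] at e2
      rw [fz, show ((c : ℝ) / q + n) / (Q / q) = (q * n + c : ℕ) / Q by push_cast; field_simp; ring,
        show β * Q ^ 3 * rt true ((q * n + c : ℕ) / Q) ^ 3 = β * ((q * n + c : ℕ) : ℝ) ^ 3 by
          simp only [rt]; field_simp]
      simp only [Int.cast_pow, Int.cast_natCast] at e2
      rw [e2]
      ring
    · have h1 : om true (y / Q) = 0 := by
        by_contra h1
        have h2 := (om_supp true h1).2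
        rw [div_lt_iff₀ Q0] at h2
        have h3 : ((16 * Q : ℕ) : ℝ) ≤ y := by exact_mod_cast not_lt.mp (mt mem_range.mpr hy)
        simp only [pw] at h2
        push_cast at h3
        linarith
      simp [h1]
  rw [e1]
  refine (congrArg (HasSum · _) (funext fun t => ?_)).mp h
  rw [Sc, mul_sum]
  refine sum_congr rfl fun c _ => ?_
  rw [ec_add, show e (t * (c / q)) = ec q (t * c) by rw [ec]; push_cast; rw [mul_div_assoc]]
  ring

lemma pow_om_le {q : ℕ} (hq : q ≠ 0) {E : ℝ} (hE : (#q.divisors : ℝ) ≤ E) (k : ℕ) :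
    ((2 : ℝ) ^ k) ^ #q.primeFactors ≤ E ^ k := by
  rw [← pow_mul, mul_comm, pow_mul]
  exact pow_le_pow_left₀ (by positivity)
    (le_trans (by exact_mod_cast two_pow_le_divisors hq) hE) k

theorem g_approx {Q q : ℕ} (hQ : 0 < Q) (hq : 0 < q) {r : ℤ} (hr : IsCoprime r q) {E : ℝ}
    (hE : (#q.divisors : ℝ) ≤ E) (β : ℝ) :
    ‖gg Q (r / q + β)‖ ≤ 10 ^ 9 * Q * ‖s3 q r 1‖ / (1 + Q ^ 3 * |β|) ^ 2 +
      2 * 10 ^ 11 * E ^ 7 * √(q * (1 + Q ^ 3 * |β|)) := by
  have Q0 : (0 : ℝ) < Q := by exact_mod_cast hQ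
  have q0 : (0 : ℝ) < q := by exact_mod_cast hq
  have E0 : 0 ≤ E := le_trans (by positivity) hE
  have hA : |β * Q ^ 3| = Q ^ 3 * |β| := by rw [abs_mul, abs_of_pos (pow_pos Q0 3), mul_comm]
  obtain ⟨T, hT⟩ : ∃ T, T = 1 + Q ^ 3 * |β| := ⟨_, rfl⟩
  have T0 : 0 < T := by rw [hT]; positivity
  have h := hs_bound (gg_sum hQ hq r β) {0} (B := 2 * 10 ^ 11 * E ^ 7 * √(q * T)) fun s => ?_
  · rw [sum_singleton] at h
    rw [← hT]
    refine (norm_le_norm_sub_add _ _).trans ((add_le_add h ?_).trans_eq (add_comm _ _))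
    have e1 : Sc q r 0 = q * s3 q r 1 := by
      rw [s3, av, mul_div_cancel₀ _ (by exact_mod_cast hq.ne'), Sc]
      simp [wq_one]
    have e2 := II_zero true (β * Q ^ 3)
    rw [hA, ← hT] at e2
    rw [e1, norm_mul, norm_mul, norm_mul, Complex.norm_real, Real.norm_eq_abs,
      abs_of_pos (by positivity), Complex.norm_natCast, Int.cast_zero, zero_mul]
    refine (mul_le_mul_of_nonneg_right (mul_le_mul_of_nonneg_left e2 (by positivity))
      (by positivity)).trans_eq (by field_simp)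
  calc _ ≤ ∑ t ∈ s, Q / q * (10 ^ 11 / √T) * (E ^ 6 * √q) * ∑ d ∈ q.divisors, (d : ℝ) *
        if t ≠ 0 ∧ (d : ℤ) ∣ t then 1 / (1 + Q / q / T * |(t : ℝ)|) ^ 2 else 0 := by
        refine sum_le_sum fun t _ => ?_
        have p0 : ∀ d ∈ q.divisors, 0 ≤ (d : ℝ) *
            if t ≠ 0 ∧ (d : ℤ) ∣ t then 1 / (1 + Q / q / T * |(t : ℝ)|) ^ 2 else 0 :=
          fun d _ => by split_ifs <;> positivity
        by_cases ht : t = 0
        · rw [if_pos (mem_singleton.mpr ht)]
          exact mul_nonneg (by positivity) (sum_nonneg p0)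
        have e1 := II_maj true (β * Q ^ 3) (t * (Q / q))
        rw [hA, ← hT, abs_mul, abs_of_pos (by positivity : (0 : ℝ) < Q / q),
          show 1 / T * (|(t : ℝ)| * (Q / q)) = Q / q / T * |(t : ℝ)| by ring] at e1
        have e2 : ‖Sc q r t‖ ≤ E ^ 6 * √q * Int.gcd t q := by
          refine (pow_le_pow_iff_left₀ (norm_nonneg _) (by positivity) two_ne_zero).mp
            ((Sc_le q hq.ne' r t hr).trans ?_)
          rw [mul_pow, mul_pow, Real.sq_sqrt q0.le, ← pow_mul]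
          gcongr
          exact le_trans (by norm_num) (pow_om_le hq.ne' hE 12)
        have e3 := single_le_sum p0 (a := Int.gcd t q) (Nat.mem_divisors.mpr
          ⟨Int.natCast_dvd_natCast.mp (Int.gcd_dvd_right _ _), hq.ne'⟩)
        rw [if_pos ⟨ht, Int.gcd_dvd_left _ _⟩] at e3
        rw [if_neg (mt mem_singleton.mp ht), norm_mul, norm_mul, Complex.norm_real,
          Real.norm_eq_abs, abs_of_pos (by positivity)]
        refine le_trans ?_ (mul_le_mul_of_nonneg_left e3 (by positivity))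
        refine (mul_le_mul (mul_le_mul_of_nonneg_left e1 (by positivity)) e2 (norm_nonneg _)
          (by positivity)).trans_eq (by ring)
    _ ≤ Q / q * (10 ^ 11 / √T) * (E ^ 6 * √q) * (E * (2 / (Q / q / T))) := by
        rw [← mul_sum, sum_comm]
        refine mul_le_mul_of_nonneg_left ((sum_le_card_nsmul _ _ (2 / (Q / q / T))
          fun d hd => ?_).trans ?_) (by positivity)
        · have d0 := Nat.pos_of_mem_divisors hd
          have d1 : (0 : ℝ) < d := by exact_mod_cast d0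
          rw [← mul_sum]
          exact (mul_le_mul_of_nonneg_left (sumd (by positivity) d0 s) d1.le).trans_eq
            (by field_simp)
        · rw [nsmul_eq_mul]; gcongr
    _ = _ := by
        have s0 := Real.sqrt_pos.mpr T0
        rw [Real.sqrt_mul q0.le, show (10 : ℝ) ^ 11 / √T = 10 ^ 11 * √T / T by
          rw [div_eq_div_iff s0.ne' T0.ne', mul_assoc, Real.mul_self_sqrt T0.le]]
        field_simp

/-- the averaging kernel -/
noncomputable def kk (H : ℕ) (α : ℝ) : ℂ := ∑ h ∈ Icc 1 H, ((1 / H : ℝ) : ℂ) * e (-(α * h))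

@[fun_prop] lemma continuous_kk (H : ℕ) : Continuous (kk H) := by unfold kk; fun_prop

lemma kk_one (H : ℕ) (α : ℝ) : ‖kk H α‖ ≤ 1 := by
  refine (norm_sum_le _ _).trans ?_
  simp only [norm_mul, norm_e, mul_one, sum_const, Nat.card_Icc, Nat.add_sub_cancel, nsmul_eq_mul,
    Complex.norm_real, Real.norm_eq_abs]
  rw [abs_of_nonneg (by positivity), mul_one_div]
  exact div_self_le_one _

lemma kk_sub {H : ℕ} (hH : 0 < H) (α : ℝ) : ‖kk H α - 1‖ ≤ 7 * H * |α| := by
  have H0 : (0 : ℝ) < H := by exact_mod_cast hH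
  have e1 : kk H α - 1 = ∑ h ∈ Icc 1 H, ((1 / H : ℝ) : ℂ) * (e (-(α * h)) - 1) := by
    simp only [mul_sub, sum_sub_distrib, kk, sum_const, Nat.card_Icc, Nat.add_sub_cancel,
      nsmul_eq_mul]
    congr 1
    push_cast
    field_simp [show (H : ℂ) ≠ 0 by exact_mod_cast hH.ne']
  rw [e1]
  refine (norm_sum_le _ _).trans ((sum_le_card_nsmul _ _ (7 * |α|) fun h hh => ?_).trans_eq
    (by simp; ring))
  have h1 : (h : ℝ) ≤ H := by exact_mod_cast (mem_Icc.mp hh).2
  have h2 := norm_e_sub_one_le (-(α * h))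
  rw [abs_neg, abs_mul, Nat.abs_cast] at h2
  rw [norm_mul, Complex.norm_real, Real.norm_eq_abs, abs_of_pos (by positivity), one_div_mul_eq_div,
    div_le_iff₀ H0, mul_assoc]
  exact h2.trans (by gcongr)

lemma kk_inv (H : ℕ) {α : ℝ} (hα : |α| ≤ 1 / 2) : ‖kk H α‖ * (H * |α|) ≤ 1 / 2 := by
  rcases Nat.eq_zero_or_pos H with rfl | hH
  · simp
  have H0 : (0 : ℝ) < H := by exact_mod_cast hH
  have e1 : ∀ n : ℕ, (∑ h ∈ Icc 1 n, e (-(α * h))) * (e (-α) - 1) = e (-(α * (n + 1))) - e (-α) := by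
    intro n
    induction n with
    | zero => simp
    | succ n ih =>
      rw [sum_Icc_succ_top (by omega), add_mul, ih, mul_sub, ← e_add]
      push_cast
      rw [show -(α * (n + 1)) + -α = -(α * (n + 1 + 1)) by ring]
      ring
  have e2 := (congrArg norm (e1 H)).trans_le (norm_sub_le _ _)
  have e3 := le_norm_e_sub_one (x := -α) (by rwa [abs_neg])
  rw [norm_mul, norm_e, norm_e] at e2
  rw [abs_neg] at e3
  have e4 := mul_le_mul_of_nonneg_left e3 (norm_nonneg (∑ h ∈ Icc 1 H, e (-(α * h))))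
  rw [kk, ← mul_sum, norm_mul, Complex.norm_real, Real.norm_eq_abs, abs_of_pos (by positivity),
    show 1 / (H : ℝ) * ‖∑ h ∈ Icc 1 H, e (-(α * h))‖ * (H * |α|) =
      ‖∑ h ∈ Icc 1 H, e (-(α * h))‖ * |α| by field_simp]
  linarith

lemma gk_eq (Q H : ℕ) (c : ℕ → ℝ) (α : ℝ) :
    gg Q α ^ 2 * ∑ h ∈ Icc 1 H, (c h : ℂ) * e (-(α * h)) =
      ∑ z ∈ (range (16 * Q) ×ˢ range (16 * Q)) ×ˢ Icc 1 H,
        ((om true (z.1.1 / Q) * om true (z.1.2 / Q) * c z.2 : ℝ) : ℂ) *
          e (α * ((z.1.1 : ℤ) ^ 3 + (z.1.2 : ℤ) ^ 3 - z.2 : ℤ)) := by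
  rw [sq, gg, sum_mul_sum, ← sum_product', sum_mul_sum, ← sum_product']
  refine sum_congr rfl fun z _ => ?_
  push_cast
  rw [show α * ((z.1.1 : ℝ) ^ 3 + (z.1.2 : ℝ) ^ 3 - z.2) =
    α * (z.1.1 : ℝ) ^ 3 + α * (z.1.2 : ℝ) ^ 3 + -(α * z.2) by ring, e_add, e_add]
  ring

lemma mean_gk {Q H : ℕ} (hQ : 0 < Q) (hH : 0 < H) (τ : ℝ) :
    ∫ α in τ..τ + 1, ‖gg Q α ^ 2 * kk H α‖ ^ 2 ≤ cW true Q (16 * Q) (H / Q ^ 3) / H := by
  have Q0 : (0 : ℝ) < Q := by exact_mod_cast hQ
  have H0 : (0 : ℝ) < H := by exact_mod_cast hH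
  simp only [kk, gk_eq Q H (fun _ => 1 / H)]
  refine (int_sq_le _ _ _ τ).trans ?_
  rw [sum_product, cW, cw, sum_div]
  refine sum_le_sum fun p _ => (sum_le_card_nsmul _ _ ((∑ k ∈ range (16 * Q) ×ˢ range (16 * Q),
    if |lam true Q p - lam true Q k| ≤ H / Q ^ 3 then om true (p.1 / Q) * om true (p.2 / Q) *
      (om true (k.1 / Q) * om true (k.2 / Q)) else 0) / H ^ 2) fun h hh => ?_).trans_eq
        (by rw [Nat.card_Icc, Nat.add_sub_cancel, nsmul_eq_mul, sq (H : ℝ), ← div_div,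
          mul_div_cancel₀ _ H0.ne'])
  rw [sum_product, sum_div]
  refine sum_le_sum fun k _ => ?_
  have o := fun p : ℕ × ℕ => mul_nonneg (om_nonneg true (p.1 / Q)) (om_nonneg true (p.2 / Q))
  have o2 := mul_nonneg (o p) (o k)
  by_cases h1 : ∃ l ∈ Icc 1 H,
      (p.1 : ℤ) ^ 3 + (p.2 : ℤ) ^ 3 - h = (k.1 : ℤ) ^ 3 + (k.2 : ℤ) ^ 3 - l
  · obtain ⟨l, hl, h1⟩ := h1
    rw [sum_eq_single l (fun l' _ h2 => if_neg fun h3 => h2 (by simp only at h3; omega))
      fun h2 => absurd hl h2, if_pos h1, if_pos]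
    · simp only [Complex.norm_real, Real.norm_eq_abs]
      rw [abs_of_nonneg (mul_nonneg (o p) (by positivity)),
        abs_of_nonneg (mul_nonneg (o k) (by positivity))]
      exact le_of_eq (by field_simp)
    · have h2 : (p.1 : ℝ) ^ 3 + (p.2 : ℝ) ^ 3 - h = (k.1 : ℝ) ^ 3 + (k.2 : ℝ) ^ 3 - l := by
        exact_mod_cast h1
      rw [show lam true Q p - lam true Q k = (h - l) / Q ^ 3 by
        simp only [lam, rt]; field_simp; linarith, abs_div, abs_of_pos (pow_pos Q0 3)]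
      gcongr
      have h3 : (h : ℝ) ≤ H := by exact_mod_cast (mem_Icc.mp hh).2
      have h4 : (l : ℝ) ≤ H := by exact_mod_cast (mem_Icc.mp hl).2
      rw [abs_le]
      constructor <;> linarith [Nat.cast_nonneg (α := ℝ) h, Nat.cast_nonneg (α := ℝ) l]
  · rw [sum_eq_zero fun l hl => if_neg fun h2 => h1 ⟨l, hl, h2⟩]
    split_ifs <;> positivity

lemma int_bump {N B : ℝ} (hN : 0 < N) (hB : 0 ≤ B) (c τ : ℝ) :
    ∫ α in τ..τ + 1, B / (1 + N * |α - c|) ^ 2 ≤ 2 * B / N := by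
  rw [intervalIntegral.integral_comp_sub_right (fun β => B / (1 + N * |β|) ^ 2) c]
  refine le_trans (intervalIntegral.integral_mono_interval ?_ (by linarith) ?_
    (ae_of_all _ fun x => by positivity) (Continuous.intervalIntegrable
      (Continuous.div (by fun_prop) (by fun_prop) fun β => by positivity) _ _))
    (int_decay hN (η := |τ - c| + 1) (by positivity) hB)
  · linarith [neg_abs_le (τ - c)]
  · linarith [le_abs_self (τ - c)]

lemma sum_inv_abs (q : ℕ) : ∑ r ∈ Icc (-(q : ℤ)) q, 1 / |(r : ℝ)| ≤ 2 * (1 + Real.log q) := by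
  refine le_trans (le_of_eq ?_) (mul_le_mul_of_nonneg_left (sum_inv_le_log q) zero_le_two)
  induction q with
  | zero => simp
  | succ n ih =>
    have : Icc (-((n + 1 : ℕ) : ℤ)) (n + 1 : ℕ) =
        insert ((n + 1 : ℕ) : ℤ) (insert (-((n + 1 : ℕ) : ℤ)) (Icc (-(n : ℤ)) n)) := by
      ext x; simp only [mem_Icc, mem_insert]; omega
    rw [this, sum_insert (by simp only [mem_Icc, mem_insert]; omega),
      sum_insert (by simp only [mem_Icc]; omega), ih, sum_Icc_succ_top (by omega)]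
    simp only [Int.cast_neg, Int.cast_natCast, abs_neg, Nat.abs_cast]
    ring

end Pool.Agent.Lib.MP_0d68fc_nt
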