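import Pool.Agent.Lib.MP_0d68fc_nt.Final

/-! Counting the sums of three cubes in almost all short intervals: one scale. -/

set_option autoImplicit false

namespace Pool.Agent.Lib.MP_0d68fc_nt.Many

open Finset Pool.Agent.Lib.MP_028aa5_nt Pool.Agent.Lib.MP_786755_nt MeasureTheory
open Pool.Agent.Lib.MP_0d68fc_nt

/-- the weight of a pair of small variables -/
noncomputable def ww (u : ℕ) (p : ℕ × ℕ) : ℝ :=
  om true (p.1 / (u ^ 5 : ℕ)) * om true (p.2 / (u ^ 5 : ℕ))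

/-- weighted number of representations -/
noncomputable def rr (u m : ℕ) : ℝ :=
  ∑ x ∈ Ioc (u ^ 6) (256 * u ^ 6), ∑ p ∈ range (16 * u ^ 5) ×ˢ range (16 * u ^ 5),
    if x ^ 3 + p.1 ^ 3 + p.2 ^ 3 = m then ww u p else 0

/-- its mean over a short interval -/
noncomputable def av (u H n : ℕ) : ℝ := (∑ h ∈ Icc 1 H, rr u (n + h)) / H

/-- sums of three positive cubes -/
def S3 (m : ℕ) : Prop := ∃ x y z : ℕ, 0 < x ∧ 0 < y ∧ 0 < z ∧ x ^ 3 + y ^ 3 + z ^ 3 = m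

open Classical in
/-- the number of sums of three positive cubes in a short interval -/
noncomputable def cnt (H n : ℕ) : ℕ := #((Icc 1 H).filter fun h => S3 (n + h))

lemma ww_nonneg (u : ℕ) (p : ℕ × ℕ) : 0 ≤ ww u p := mul_nonneg (om_nonneg _ _) (om_nonneg _ _)

lemma ww_le (u : ℕ) (p : ℕ × ℕ) : ww u p ≤ 81 :=
  (mul_le_mul (om_le _ _) (om_le _ _) (om_nonneg _ _) (by norm_num)).trans (by norm_num)

lemma term_nonneg (u : ℕ) (p : ℕ × ℕ) (c : Prop) [Decidable c] :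
    0 ≤ (if c then ww u p else 0) := by
  have := ww_nonneg u p
  split_ifs <;> positivity

lemma rr_nonneg (u m : ℕ) : 0 ≤ rr u m :=
  sum_nonneg fun _ _ => sum_nonneg fun p _ => term_nonneg u p _

lemma av_nonneg (u H n : ℕ) : 0 ≤ av u H n :=
  div_nonneg (sum_nonneg fun _ _ => rr_nonneg _ _) (Nat.cast_nonneg _)

lemma rr_supp {u m : ℕ} (hu : 1 ≤ u) (h : rr u m ≠ 0) : S3 m := by
  obtain ⟨x, hx, h1⟩ := exists_ne_zero_of_sum_ne_zero h
  obtain ⟨p, -, h2⟩ := exists_ne_zero_of_sum_ne_zero h1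
  have Q0 : (0 : ℝ) < (u ^ 5 : ℕ) := by exact_mod_cast Nat.one_le_pow _ _ hu
  split_ifs at h2 with h3
  · have e1 := (om_supp true (left_ne_zero_of_mul h2)).1
    have e2 := (om_supp true (right_ne_zero_of_mul h2)).1
    rw [one_lt_div Q0] at e1 e2
    exact ⟨x, p.1, p.2, by have := (mem_Ioc.mp hx).1; omega, by exact_mod_cast Q0.trans e1,
      by exact_mod_cast Q0.trans e2, h3⟩
  · exact absurd rfl h2

lemma cnt_mono {H H' : ℕ} (h : H ≤ H') (n : ℕ) : cnt H n ≤ cnt H' n := by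
  classical
  unfold cnt
  exact card_le_card (filter_subset_filter _ (Icc_subset_Icc_right h))

lemma varr {u H : ℕ} {E : ℝ} (hu : 2 ≤ u) (hE : EB u E) (hW : WB u E) (hH : 1 ≤ H)
    (hH' : H ≤ u ^ 4) (T : Finset ℕ) :
    ∑ n ∈ T, (av u H n - av u (2 ^ 18 * u ^ 12) n) ^ 2 ≤ 10 ^ 62 * E ^ 32 * u ^ 16 / H := by
  obtain ⟨Y, hY⟩ : ∃ Y, Y = 2 ^ 18 * u ^ 12 := ⟨_, rfl⟩
  obtain ⟨Q, hQ⟩ : ∃ Q, Q = u ^ 5 := ⟨_, rfl⟩
  have HY : H ≤ Y := hY ▸ hH'.trans ((Nat.pow_le_pow_right (by omega) (by norm_num)).trans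
    (Nat.le_mul_of_pos_left _ (by norm_num)))
  have p1 : u ^ 12 ≤ u ^ 15 := Nat.pow_le_pow_right (by omega) (by norm_num)
  have p3 : Q ^ 3 = u ^ 15 := by rw [hQ]; ring
  have h := var ((range (16 * Q) ×ˢ range (16 * Q)) ×ˢ Icc 1 Y)
    (fun z => ((om true (z.1.1 / Q) * om true (z.1.2 / Q) *
      ((if z.2 ≤ H then (1 : ℝ) / H else 0) - 1 / Y) : ℝ) : ℂ))
    (fun z => (z.1.1 : ℤ) ^ 3 + (z.1.2 : ℤ) ^ 3 - z.2) (a := u ^ 6) (b := 256 * u ^ 6)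
    (K := 2 ^ 17 * u ^ 3) (fun i hi l hl => by
      simp only [mem_product, mem_range, mem_Icc] at hi hl
      have e1 := Nat.pow_le_pow_left hl.1.1.le 3
      have e2 := Nat.pow_le_pow_left hl.1.2.le 3
      rw [mul_pow, p3] at e1 e2
      have e3 : l.1.1 ^ 3 + l.1.2 ^ 3 + i.2 ≤ 3 * (u ^ 6) ^ 2 * (2 ^ 17 * u ^ 3) := by
        rw [show 3 * (u ^ 6) ^ 2 * (2 ^ 17 * u ^ 3) = 3 * 2 ^ 17 * u ^ 15 by ring]
        omega
      have e4 : (l.1.1 : ℤ) ^ 3 + (l.1.2 : ℤ) ^ 3 + i.2 ≤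
        3 * ((u ^ 6 : ℕ) : ℤ) ^ 2 * (2 ^ 17 * u ^ 3 : ℕ) := by exact_mod_cast e3
      have e5 : (0 : ℤ) ≤ (i.1.1 : ℤ) ^ 3 + (i.1.2 : ℤ) ^ 3 + l.2 := by positivity
      linarith) T (-(1 / 2))
  have hk : ∀ α : ℝ, ∑ h ∈ Icc 1 Y, (((if h ≤ H then (1 : ℝ) / H else 0) - 1 / Y : ℝ) : ℂ) *
      e (-(α * h)) = kk H α - kk Y α := fun α => by
    simp only [Complex.ofReal_sub, sub_mul, sum_sub_distrib, kk]
    congr 1
    rw [← sum_subset (Icc_subset_Icc_right HY) fun h h1 h2 => by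
      rw [if_neg (by simp only [mem_Icc] at h1 h2; omega)]; simp]
    exact sum_congr rfl fun h hh => by rw [if_pos (mem_Icc.mp hh).2]
  simp only [← gk_eq Q Y (fun h => (if h ≤ H then (1 : ℝ) / H else 0) - 1 / Y), hk, norm_mul,
    norm_pow, mul_pow, ← pow_mul] at h
  rw [hQ] at h
  have h2 := h.trans (int_all hu hE hW hH hH' hY HY)
  rw [← hY]
  refine le_trans (le_of_eq (sum_congr rfl fun n _ => ?_)) h2
  have h3 : av u H n - av u Y n =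
      ∑ h ∈ Icc 1 Y, ((if h ≤ H then (1 : ℝ) / H else 0) - 1 / Y) * rr u (n + h) := by
    simp only [sub_mul, sum_sub_distrib, av]
    congr 1
    · rw [← sum_subset (Icc_subset_Icc_right HY) fun h h1 h2 => by
        rw [if_neg (by simp only [mem_Icc] at h1 h2; omega), zero_mul], sum_div]
      exact sum_congr rfl fun h hh => by rw [if_pos (mem_Icc.mp hh).2]; ring
    · rw [sum_div]
      exact sum_congr rfl fun h _ => by ring
  rw [← sq_abs, ← Real.norm_eq_abs, ← Complex.norm_real, h3]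
  congr 2
  simp only [rr, mul_sum]
  rw [sum_comm, Complex.ofReal_sum]
  refine sum_congr rfl fun x _ => ?_
  rw [sum_comm, sum_product (s := range (16 * u ^ 5) ×ˢ range (16 * u ^ 5)), Complex.ofReal_sum]
  refine sum_congr rfl fun p _ => ?_
  rw [Complex.ofReal_sum]
  refine sum_congr rfl fun k _ => ?_
  have h4 : x ^ 3 + p.1 ^ 3 + p.2 ^ 3 = n + k ↔
      (x : ℤ) ^ 3 + ((p.1 : ℤ) ^ 3 + (p.2 : ℤ) ^ 3 - k) = n := by
    rw [← Nat.cast_inj (R := ℤ)]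
    push_cast
    constructor <;> intro h5 <;> linarith
  by_cases h5 : x ^ 3 + p.1 ^ 3 + p.2 ^ 3 = n + k
  · rw [if_pos h5, if_pos (h4.mp h5), ww, mul_comm]
  · rw [if_neg h5, if_neg (fun h6 => h5 (h4.mpr h6)), mul_zero, Complex.ofReal_zero]

lemma exists_x' {u s : ℕ} (h1 : u ^ 18 ≤ s) (h2 : s ≤ 2 ^ 22 * u ^ 18) (hu : 1 ≤ u) :
    ∃ x ∈ Ioc (u ^ 6) (256 * u ^ 6), ∃ h ∈ Icc 1 (2 ^ 18 * u ^ 12), x ^ 3 = s + h := by
  have hex : ∃ x, s < x ^ 3 := ⟨s + 1, lt_of_lt_of_le (Nat.lt_succ_self s)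
    (Nat.le_self_pow (by norm_num) _)⟩
  have e1 := Nat.find_spec hex
  have e2 : u ^ 6 < Nat.find hex := by
    refine lt_of_pow_lt_pow_left₀ 3 (Nat.zero_le _) ?_
    rw [← pow_mul]; exact h1.trans_lt e1
  obtain ⟨y, hy⟩ : ∃ y, Nat.find hex = y + 1 := ⟨Nat.find hex - 1, by omega⟩
  have e3 : y ^ 3 ≤ s := not_lt.mp (Nat.find_min hex (by omega))
  have e4 : y ≤ 192 * u ^ 6 := by
    refine (pow_le_pow_iff_left₀ (Nat.zero_le _) (Nat.zero_le _) three_ne_zero).mp (e3.trans ?_)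
    rw [mul_pow, ← pow_mul]
    exact h2.trans (Nat.mul_le_mul_right _ (by norm_num))
  have e5 : 1 ≤ u ^ 6 := Nat.one_le_pow _ _ hu
  rw [hy] at e1 e2
  refine ⟨y + 1, mem_Ioc.mpr ⟨e2, by omega⟩, (y + 1) ^ 3 - s, mem_Icc.mpr ⟨by omega, ?_⟩, by omega⟩
  have e6 : (y + 1) ^ 3 ≤ y ^ 3 + 2 ^ 18 * u ^ 12 := by
    rw [show u ^ 12 = u ^ 6 * u ^ 6 by ring]
    nlinarith
  omega

lemma swap3 (u Y n : ℕ) : ∑ h ∈ Icc 1 Y, rr u (n + h) =
    ∑ p ∈ range (16 * u ^ 5) ×ˢ range (16 * u ^ 5), ∑ x ∈ Ioc (u ^ 6) (256 * u ^ 6),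
      ∑ h ∈ Icc 1 Y, if x ^ 3 + p.1 ^ 3 + p.2 ^ 3 = n + h then ww u p else 0 := by
  simp only [rr]
  rw [sum_comm, sum_comm (s := range (16 * u ^ 5) ×ˢ range (16 * u ^ 5))]
  exact sum_congr rfl fun x _ => sum_comm

lemma low {u n : ℕ} (hu : 2 ≤ u) (n1 : 8 * u ^ 18 < n) (n2 : n ≤ 2 ^ 22 * u ^ 18) :
    1 / (2 ^ 18 * (u : ℝ) ^ 2) ≤ av u (2 ^ 18 * u ^ 12) n := by
  have u0 : (0 : ℝ) < u := by exact_mod_cast (by omega : 0 < u)
  have Q0 : (0 : ℝ) < (u ^ 5 : ℕ) := by positivity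
  have p2 : 8 * u ^ 15 ≤ u ^ 18 := by
    rw [show u ^ 18 = u ^ 3 * u ^ 15 by ring]
    exact Nat.mul_le_mul_right _ (Nat.pow_le_pow_left hu 3)
  have p3 : (u ^ 5) ^ 3 = u ^ 15 := by ring
  have hs : Ioc (2 * u ^ 5) (3 * u ^ 5) ⊆ range (16 * u ^ 5) := fun y hy => by
    simp only [mem_Ioc, mem_range] at hy ⊢; omega
  have ho : ∀ y : ℕ, y ∈ Ioc (2 * u ^ 5) (3 * u ^ 5) →
      1 ≤ om true ((y : ℝ) / (u ^ 5 : ℕ)) := fun y hy => by
    have e1 : 2 * ((u ^ 5 : ℕ) : ℝ) ≤ y := by exact_mod_cast (mem_Ioc.mp hy).1.le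
    have e2 : (y : ℝ) ≤ 3 * (u ^ 5 : ℕ) := by exact_mod_cast (mem_Ioc.mp hy).2
    rw [← le_div_iff₀ Q0] at e1
    rw [← div_le_iff₀ Q0] at e2
    refine one_le_pow₀ (le_trans ?_ (le_max_right _ _))
    simp only [rt]
    nlinarith
  rw [av, le_div_iff₀ (by positivity), swap3]
  refine le_trans ?_ (sum_le_sum_of_subset_of_nonneg (product_subset_product hs hs)
    fun p _ _ => sum_nonneg fun x _ => sum_nonneg fun h _ => term_nonneg u p _)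
  refine le_trans (le_of_eq ?_) (card_nsmul_le_sum _ _ (1 : ℝ) fun p hp => ?_)
  · rw [card_product, Nat.card_Ioc, show 3 * u ^ 5 - 2 * u ^ 5 = u ^ 5 by omega, nsmul_eq_mul]
    push_cast
    field_simp
    norm_num
  rw [mem_product] at hp
  have e1 := Nat.pow_le_pow_left (mem_Ioc.mp hp.1).2 3
  have e2 := Nat.pow_le_pow_left (mem_Ioc.mp hp.2).2 3
  rw [mul_pow, p3] at e1 e2
  obtain ⟨x, hx, h, hh, e3⟩ := exists_x' (u := u) (s := n - p.1 ^ 3 - p.2 ^ 3) (by omega)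
    (by omega) (by omega)
  refine le_trans ?_ (single_le_sum (fun x _ => sum_nonneg fun h _ => term_nonneg u p _) hx)
  refine le_trans ?_ (single_le_sum (fun h _ => term_nonneg u p _) hh)
  rw [if_pos (by omega)]
  exact one_le_mul_of_one_le_of_one_le (ho _ hp.1) (ho _ hp.2)

lemma gap (u n s b : ℕ) : #((Ioc (u ^ 6) b).filter fun x =>
    n < x ^ 3 + s ∧ x ^ 3 + s ≤ n + 2 ^ 18 * u ^ 12) ≤ 2 ^ 18 := by
  rcases ((Ioc (u ^ 6) b).filter fun x =>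
    n < x ^ 3 + s ∧ x ^ 3 + s ≤ n + 2 ^ 18 * u ^ 12).eq_empty_or_nonempty with h | h
  · rw [h]; simp
  obtain ⟨y, hy, hm⟩ := exists_min_image _ id h
  refine (card_le_card (t := Ico y (y + 2 ^ 18)) fun x hx => ?_).trans (by simp)
  refine mem_Ico.mpr ⟨hm x hx, ?_⟩
  by_contra hc
  have e1 := Nat.pow_le_pow_left (not_lt.mp hc) 3
  have e2 := (mem_filter.mp hx).2.2
  have e3 := (mem_filter.mp hy).2.1
  have e4 := (mem_Ioc.mp (mem_filter.mp hy).1).1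
  have e5 : u ^ 12 ≤ y ^ 2 := by
    rw [show u ^ 12 = (u ^ 6) ^ 2 by ring]
    exact Nat.pow_le_pow_left e4.le 2
  have e6 : y ^ 3 + 2 ^ 18 * y ^ 2 ≤ (y + 2 ^ 18) ^ 3 := by
    rw [show (y + 2 ^ 18) ^ 3 = y ^ 3 + 2 ^ 18 * y ^ 2 + (2 ^ 19 * y ^ 2 + 3 * 2 ^ 36 * y + 2 ^ 54) by
      ring]
    exact Nat.le_add_right _ _
  omega

lemma up {u : ℕ} (hu : 2 ≤ u) (n : ℕ) : av u (2 ^ 18 * u ^ 12) n ≤ 20736 / (u : ℝ) ^ 2 := by
  have u0 : (0 : ℝ) < u := by exact_mod_cast (by omega : 0 < u)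
  rw [av, div_le_iff₀ (by positivity), swap3]
  refine (sum_le_card_nsmul _ _ (81 * 2 ^ 18) fun p _ => ?_).trans (le_of_eq ?_)
  · have h1 : ∀ x, ∑ h ∈ Icc 1 (2 ^ 18 * u ^ 12),
        (if x ^ 3 + p.1 ^ 3 + p.2 ^ 3 = n + h then ww u p else 0) ≤
        if n < x ^ 3 + (p.1 ^ 3 + p.2 ^ 3) ∧ x ^ 3 + (p.1 ^ 3 + p.2 ^ 3) ≤ n + 2 ^ 18 * u ^ 12
          then (81 : ℝ) else 0 := by
      intro x
      split_ifs with h2
      · refine (sum_le_sum (g := fun h => if h = x ^ 3 + p.1 ^ 3 + p.2 ^ 3 - n then (81 : ℝ) else 0)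
          fun h _ => ?_).trans ?_
        · by_cases h3 : x ^ 3 + p.1 ^ 3 + p.2 ^ 3 = n + h
          · rw [if_pos h3, if_pos (by omega)]
            exact ww_le u p
          · rw [if_neg h3]
            split_ifs <;> norm_num
        · rw [sum_ite_eq']
          split_ifs <;> norm_num
      · refine le_of_eq (sum_eq_zero fun h hh => if_neg fun h3 => h2 ?_)
        have := mem_Icc.mp hh
        omega
    refine (sum_le_sum fun x _ => h1 x).trans ?_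
    rw [← sum_filter, sum_const, nsmul_eq_mul, mul_comm]
    have h2 : (#((Ioc (u ^ 6) (256 * u ^ 6)).filter fun x => n < x ^ 3 + (p.1 ^ 3 + p.2 ^ 3) ∧
        x ^ 3 + (p.1 ^ 3 + p.2 ^ 3) ≤ n + 2 ^ 18 * u ^ 12) : ℝ) ≤ 2 ^ 18 := by
      exact_mod_cast gap u n _ _
    gcongr
  · rw [card_product, card_range, nsmul_eq_mul]
    push_cast
    field_simp
    norm_num

lemma two_sq (r A : ℝ) : r ^ 2 ≤ 2 * (r - A) ^ 2 + 2 * A ^ 2 := by
  nlinarith [sq_nonneg (r - 2 * A)]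

lemma two_sq' (r A : ℝ) : A ^ 2 ≤ 2 * (r - A) ^ 2 + 2 * r ^ 2 := by
  nlinarith [sq_nonneg (2 * r - A)]

lemma sq_le {u : ℕ} {E : ℝ} (hu : 2 ≤ u) (hE : EB u E) (hW : WB u E) (T : Finset ℕ)
    (hT : #T ≤ 2 ^ 21 * u ^ 18) {h : ℕ} (hh : 1 ≤ h) :
    ∑ n ∈ T, rr u (n + h) ^ 2 ≤ 3 * 10 ^ 62 * E ^ 32 * u ^ 16 := by
  have u1 : (1 : ℝ) ≤ u := by exact_mod_cast (by omega : 1 ≤ u)
  have E1 := hE.one hu
  have h1 := varr hu hE hW le_rfl (Nat.one_le_pow _ _ (by omega)) (T.map (addRightEmbedding (h - 1)))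
  rw [sum_map, Nat.cast_one, div_one] at h1
  have h2 : ∀ n ∈ T, rr u (n + h) ^ 2 ≤
      2 * (av u 1 (addRightEmbedding (h - 1) n) -
        av u (2 ^ 18 * u ^ 12) (addRightEmbedding (h - 1) n)) ^ 2 + 2 * (20736 / (u : ℝ) ^ 2) ^ 2 := by
    intro n _
    have e1 : av u 1 (addRightEmbedding (h - 1) n) = rr u (n + h) := by
      rw [av, Icc_self, sum_singleton, Nat.cast_one, div_one, addRightEmbedding_apply]
      congr 1
      omega
    have e2 := pow_le_pow_left₀ (av_nonneg _ _ _) (up hu (addRightEmbedding (h - 1) n)) 2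
    rw [e1]
    exact (two_sq _ _).trans (add_le_add le_rfl (mul_le_mul_of_nonneg_left e2 zero_le_two))
  refine (sum_le_sum h2).trans ?_
  rw [sum_add_distrib, ← mul_sum, sum_const, nsmul_eq_mul]
  have h3 : (#T : ℝ) ≤ 2 ^ 21 * u ^ 18 := by exact_mod_cast hT
  have h4 : (#T : ℝ) * (2 * (20736 / (u : ℝ) ^ 2) ^ 2) ≤ 10 ^ 62 * E ^ 32 * u ^ 16 := by
    refine (mul_le_mul_of_nonneg_right h3 (by positivity)).trans ?_
    rw [show (2 : ℝ) ^ 21 * u ^ 18 * (2 * (20736 / (u : ℝ) ^ 2) ^ 2) =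
      2 ^ 22 * 20736 ^ 2 * 1 * u ^ 14 by field_simp]
    gcongr
    · norm_num
    · exact one_le_pow₀ E1
    · norm_num
  exact (add_le_add (mul_le_mul_of_nonneg_left h1 zero_le_two) h4).trans_eq (by ring)

lemma blocks (f : ℕ → ℝ) (L J : ℕ) :
    ∑ j ∈ range J, ∑ h ∈ Icc 1 L, f (j * L + h) = ∑ h ∈ Icc 1 (J * L), f h := by
  have h1 : ∀ (g : ℕ → ℝ) (M : ℕ), ∑ h ∈ Icc 1 M, g h = ∑ i ∈ range M, g (i + 1) := by
    intro g M
    induction M with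
    | zero => simp
    | succ M ih => rw [sum_Icc_succ_top (by omega), sum_range_succ, ih]
  induction J with
  | zero => simp
  | succ J ih =>
    rw [sum_range_succ, ih, h1, h1, h1, add_mul, one_mul, sum_range_add]
    rfl

theorem scaleJ {u L J K : ℕ} {E : ℝ} (hu : 2 ≤ u) (hE : EB u E) (hW : WB u E) (hL : 1 ≤ L)
    (hL' : L ≤ u ^ 4) (hJ : 1 ≤ J) (hJ' : J * L ≤ u ^ 18) (T : Finset ℕ)
    (hT : ∀ n ∈ T, 8 * u ^ 18 < n ∧ n ≤ 2 ^ 21 * u ^ 18 ∧ cnt (J * L) n ≤ K) :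
    (#T : ℝ) ≤ 10 ^ 74 * E ^ 32 * (u ^ 20 / L + K * u ^ 20 / (J * L)) := by
  classical
  have u0 : (0 : ℝ) < u := by exact_mod_cast (by omega : 0 < u)
  have L0 : (0 : ℝ) < L := by exact_mod_cast hL
  have J0 : (0 : ℝ) < J := by exact_mod_cast hJ
  have E1 := hE.one hu
  obtain ⟨Y, hlow, hvar⟩ : ∃ Y : ℕ, (∀ n, 8 * u ^ 18 < n → n ≤ 2 ^ 22 * u ^ 18 →
      1 / (2 ^ 18 * (u : ℝ) ^ 2) ≤ av u Y n) ∧ ∀ T : Finset ℕ,
      ∑ n ∈ T, (av u L n - av u Y n) ^ 2 ≤ 10 ^ 62 * E ^ 32 * u ^ 16 / L :=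
    ⟨_, fun n => low hu, varr hu hE hW hL hL'⟩
  have hc : #T ≤ 2 ^ 21 * u ^ 18 := by
    refine (card_le_card (t := Icc 1 (2 ^ 21 * u ^ 18)) fun n hn => ?_).trans (by simp)
    have := hT n hn
    exact mem_Icc.mpr ⟨by omega, this.2.1⟩
  have h1 : ∀ n ∈ T, (J * (1 / (2 ^ 18 * (u : ℝ) ^ 2))) ^ 2 ≤
      2 * J * ∑ j ∈ range J, (av u L (n + j * L) - av u Y (n + j * L)) ^ 2 +
        2 * K / L ^ 2 * ∑ h ∈ Icc 1 (J * L), rr u (n + h) ^ 2 := by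
    intro n hn
    obtain ⟨n1, n2, n3⟩ := hT n hn
    have e1 : J * (1 / (2 ^ 18 * (u : ℝ) ^ 2)) ≤
        ∑ j ∈ range J, av u Y (n + j * L) := by
      refine le_trans (le_of_eq ?_) (card_nsmul_le_sum _ _ _ fun j hj => hlow _ (by omega) ?_)
      · rw [card_range, nsmul_eq_mul]
      · have := Nat.mul_le_mul_right L (mem_range.mp hj).le
        omega
    have e2 : ∑ j ∈ range J, av u L (n + j * L) = (∑ h ∈ Icc 1 (J * L), rr u (n + h)) / L := by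
      simp only [av, ← sum_div, add_assoc]
      rw [blocks (fun h => rr u (n + h))]
    have e3 : (∑ j ∈ range J, (av u L (n + j * L) - av u Y (n + j * L))) ^ 2 ≤
        J * ∑ j ∈ range J, (av u L (n + j * L) - av u Y (n + j * L)) ^ 2 := by
      have := sq_sum_le_card_mul_sum_sq (s := range J)
        (f := fun j => av u L (n + j * L) - av u Y (n + j * L))
      rwa [card_range] at this
    have e4 : (∑ h ∈ Icc 1 (J * L), rr u (n + h)) ^ 2 ≤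
        K * ∑ h ∈ Icc 1 (J * L), rr u (n + h) ^ 2 := by
      rw [← sum_filter_of_ne (p := fun h => S3 (n + h)) fun h _ hh => rr_supp (by omega) hh]
      refine sq_sum_le_card_mul_sum_sq.trans ?_
      refine mul_le_mul (by exact_mod_cast n3)
        (sum_le_sum_of_subset_of_nonneg (filter_subset _ _) fun _ _ _ => sq_nonneg _)
        (sum_nonneg fun _ _ => sq_nonneg _) (Nat.cast_nonneg _)
    rw [sum_sub_distrib, e2] at e3
    have e5 : ((∑ h ∈ Icc 1 (J * L), rr u (n + h)) / L) ^ 2 ≤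
        K / L ^ 2 * ∑ h ∈ Icc 1 (J * L), rr u (n + h) ^ 2 := by
      rw [div_pow, div_mul_eq_mul_div]
      gcongr
    refine (pow_le_pow_left₀ (by positivity) e1 2).trans ?_
    rw [mul_div_assoc, mul_assoc, mul_assoc]
    exact (two_sq' _ _).trans (add_le_add (mul_le_mul_of_nonneg_left e3 zero_le_two)
      (mul_le_mul_of_nonneg_left e5 zero_le_two))
  have h2 := card_nsmul_le_sum T _ _ h1
  rw [sum_add_distrib, ← mul_sum, ← mul_sum, sum_comm, sum_comm (s := T), nsmul_eq_mul] at h2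
  have h3 : ∑ j ∈ range J, ∑ n ∈ T,
      (av u L (n + j * L) - av u Y (n + j * L)) ^ 2 ≤
      J * (10 ^ 62 * E ^ 32 * u ^ 16 / L) := by
    refine (sum_le_card_nsmul _ _ _ fun j _ => ?_).trans_eq (by rw [card_range, nsmul_eq_mul])
    have := hvar (T.map (addRightEmbedding (j * L)))
    rwa [sum_map] at this
  have h4 : ∑ h ∈ Icc 1 (J * L), ∑ n ∈ T, rr u (n + h) ^ 2 ≤
      J * L * (3 * 10 ^ 62 * E ^ 32 * u ^ 16) := by
    refine (sum_le_card_nsmul _ _ _ fun h hh => sq_le hu hE hW T hc (mem_Icc.mp hh).1).trans_eq ?_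
    rw [Nat.card_Icc, Nat.add_sub_cancel, nsmul_eq_mul, Nat.cast_mul]
  have h5 := h2.trans (add_le_add (mul_le_mul_of_nonneg_left h3 (by positivity))
    (mul_le_mul_of_nonneg_left h4 (by positivity)))
  rw [← le_div_iff₀ (by positivity)] at h5
  refine h5.trans ?_
  rw [show (2 * J * (J * (10 ^ 62 * E ^ 32 * u ^ 16 / L)) +
      2 * K / L ^ 2 * (J * L * (3 * 10 ^ 62 * E ^ 32 * u ^ 16))) /
      (J * (1 / (2 ^ 18 * (u : ℝ) ^ 2))) ^ 2 =
      2 ^ 37 * 10 ^ 62 * E ^ 32 * (u ^ 20 / L) +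
        3 * 2 ^ 37 * 10 ^ 62 * E ^ 32 * (K * u ^ 20 / (J * L)) by field_simp, mul_add]
  gcongr <;> norm_num

end Pool.Agent.Lib.MP_0d68fc_nt.Many
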