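import Pool.Agent.Lib.MP_0d68fc_nt.Many

/-! Counting the sums of three cubes in almost all short intervals: summation over the scales. -/

set_option autoImplicit false

namespace Pool.Agent.Lib.MP_0d68fc_nt.Many

open Finset Pool.Agent.Lib.MP_028aa5_nt Pool.Agent.Lib.MP_786755_nt
open Pool.Agent.Lib.MP_0d68fc_nt

lemma block_le {η : ℝ} (hη : 0 < η) : ∃ C : ℝ, 0 ≤ C ∧ ∀ u H K : ℕ, 2 ≤ u → 1 ≤ H →
    ∀ T : Finset ℕ, (∀ n ∈ T, 8 * u ^ 18 < n ∧ n ≤ 2 ^ 21 * u ^ 18 ∧ cnt H n < K) →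
      (#T : ℝ) ≤ C * ((u : ℝ) ^ η) ^ 32 * (K * u ^ 20 / H + K * u ^ 2 + u ^ 16) := by
  obtain ⟨D, D0, hD⟩ := exists_E hη
  obtain ⟨C, C0, hC⟩ := fourth (ε := η / 5) (by positivity)
  refine ⟨2 * 10 ^ 74 * (D + C) ^ 32, by positivity, fun u H K hu hH T hT => ?_⟩
  have u1 : (1 : ℝ) ≤ u := by exact_mod_cast (by omega : 1 ≤ u)
  have H0 : (0 : ℝ) < H := by exact_mod_cast hH
  have hE : EB u ((D + C) * (u : ℝ) ^ η) := fun m h1 h2 =>
    ⟨(hD u m h1 h2).1.trans (by gcongr; linarith), (hD u m h1 h2).2.trans (by gcongr; linarith)⟩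
  have hW : WB u ((D + C) * (u : ℝ) ^ η) := fun δ hδ => by
    have h1 : (1 : ℝ) ≤ (u ^ 5 : ℕ) := by exact_mod_cast Nat.one_le_pow _ _ (by omega)
    refine (hC true (u ^ 5 : ℕ) δ (16 * u ^ 5) h1 hδ (by push_cast; exact le_rfl)
      (by push_cast at h1 ⊢; linarith)).trans ?_
    rw [show ((u ^ 5 : ℕ) : ℝ) ^ (η / 5) = (u : ℝ) ^ η by
      rw [Nat.cast_pow, ← Real.rpow_natCast, ← Real.rpow_mul (by positivity)]
      congr 1; push_cast; ring, mul_right_comm]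
    gcongr
    linarith
  rw [show 2 * 10 ^ 74 * (D + C) ^ 32 * ((u : ℝ) ^ η) ^ 32 * (K * u ^ 20 / H + K * u ^ 2 + u ^ 16) =
    10 ^ 74 * ((D + C) * (u : ℝ) ^ η) ^ 32 * (2 * (K * u ^ 20 / H + K * u ^ 2 + u ^ 16)) by ring]
  rcases T.eq_empty_or_nonempty with rfl | ⟨n₀, hn₀⟩
  · rw [card_empty, Nat.cast_zero]; positivity
  have K1 : (1 : ℝ) ≤ K := by exact_mod_cast (by have := (hT n₀ hn₀).2.2; omega : 1 ≤ K)
  have p1 : u ^ 4 ≤ u ^ 18 := Nat.pow_le_pow_right (by omega) (by norm_num)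
  have p0 : 1 ≤ u ^ 4 := Nat.one_le_pow _ _ (by omega)
  rcases le_total H (u ^ 4) with h | h
  · refine (scaleJ (J := 1) (K := K) hu hE hW hH h le_rfl (by omega) T fun n hn =>
      ⟨(hT n hn).1, (hT n hn).2.1, by rw [one_mul]; exact (hT n hn).2.2.le⟩).trans ?_
    refine mul_le_mul_of_nonneg_left ?_ (by positivity)
    have e1 : (u : ℝ) ^ 20 / H ≤ K * u ^ 20 / H := by
      gcongr
      exact le_mul_of_one_le_left (by positivity) K1
    have e2 : (0 : ℝ) ≤ K * u ^ 2 + u ^ 16 := by positivity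
    rw [Nat.cast_one, one_mul]
    linarith
  · obtain ⟨M, hM⟩ : ∃ M, M = min H (u ^ 18) := ⟨_, rfl⟩
    have m1 : u ^ 4 ≤ M := hM ▸ le_min h p1
    have m2 : M / u ^ 4 * u ^ 4 ≤ M := Nat.div_mul_le_self _ _
    have m3 : 1 ≤ M / u ^ 4 := (Nat.le_div_iff_mul_le (by omega)).mpr (by omega)
    have m4 : M ≤ 2 * (M / u ^ 4 * u ^ 4) := by
      have e1 := Nat.div_add_mod M (u ^ 4)
      have e2 := Nat.mod_lt M (by omega : 0 < u ^ 4)
      have e3 := Nat.mul_le_mul_right (u ^ 4) m3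
      rw [mul_comm] at e1
      omega
    have m5 : M ≤ H := hM ▸ min_le_left _ _
    have m6 : M ≤ u ^ 18 := hM ▸ min_le_right _ _
    refine (scaleJ (J := M / u ^ 4) (K := K) hu hE hW p0 le_rfl m3 (m2.trans m6) T fun n hn =>
      ⟨(hT n hn).1, (hT n hn).2.1, (cnt_mono (m2.trans m5) n).trans (hT n hn).2.2.le⟩).trans ?_
    refine mul_le_mul_of_nonneg_left ?_ (by positivity)
    have M0 : (0 : ℝ) < M := by exact_mod_cast (by omega : 0 < M)
    have e1 : (u : ℝ) ^ 20 / (u ^ 4 : ℕ) = u ^ 16 := by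
      push_cast
      field_simp
    have e2 : (K : ℝ) * u ^ 20 / ((M / u ^ 4 : ℕ) * (u ^ 4 : ℕ)) ≤ 2 * (K * u ^ 20 / M) := by
      have e3 : (M : ℝ) / 2 ≤ (M / u ^ 4 : ℕ) * (u ^ 4 : ℕ) := by
        rw [div_le_iff₀ (by norm_num), mul_comm]
        exact_mod_cast m4
      refine (div_le_div_of_nonneg_left (by positivity) (by positivity) e3).trans_eq ?_
      field_simp
    have e3 : (K : ℝ) * u ^ 20 / M ≤ K * u ^ 20 / H + K * u ^ 2 := by
      rcases min_choice H (u ^ 18) with h1 | h1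
      · rw [hM, h1]
        exact le_add_of_nonneg_right (by positivity)
      · rw [hM, h1]
        refine le_trans (le_of_eq ?_) (le_add_of_nonneg_left (by positivity))
        push_cast
        field_simp
    have e4 : (0 : ℝ) ≤ u ^ 16 := by positivity
    rw [e1]
    linarith

theorem main {ε : ℝ} (hε : 0 < ε) : ∃ C : ℝ, ∀ X H K : ℕ, 1 ≤ H → H ≤ X →
    (#((Icc 1 X).filter fun n => cnt H n < K) : ℝ) ≤
      C * (X : ℝ) ^ ε * (K * (X : ℝ) ^ (10 / 9 : ℝ) / H + (X : ℝ) ^ (8 / 9 : ℝ)) := by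
  obtain ⟨C', C0', hC⟩ := block_le (η := ε / 4) (by positivity)
  obtain ⟨C, hCC⟩ : ∃ C, C = C' * 2 := ⟨_, rfl⟩
  have C0 : 0 ≤ C := by rw [hCC]; positivity
  refine ⟨2 ^ 21 + (6 + 8 / (ε / 2)) ^ 2 * C, fun X H K hH hHX => ?_⟩
  have hX : 0 < X := by omega
  have X1 : (1 : ℝ) ≤ X := by exact_mod_cast hX
  have H0 : (0 : ℝ) < H := by exact_mod_cast hH
  obtain ⟨B, hB⟩ : ∃ B, B = K * (X : ℝ) ^ (10 / 9 : ℝ) / H + (X : ℝ) ^ (8 / 9 : ℝ) := ⟨_, rfl⟩
  have B1 : 1 ≤ B := hB ▸ le_add_of_nonneg_of_le (by positivity) (Real.one_le_rpow X1 (by norm_num))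
  have hs : (Icc 1 X).filter (fun n => cnt H n < K) ⊆ Icc 1 (2 ^ 21) ∪
      (Icc 1 (Nat.log 2 X)).biUnion fun i => (Icc 1 X).filter fun n =>
        8 * (2 ^ i) ^ 18 < n ∧ n ≤ 2 ^ 21 * (2 ^ i) ^ 18 ∧ cnt H n < K := by
    intro n hn
    rw [mem_filter] at hn
    have h0 := mem_Icc.mp hn.1
    rcases le_or_gt n (2 ^ 21) with h | h
    · exact mem_union_left _ (mem_Icc.mpr ⟨h0.1, h⟩)
    have hex : ∃ i, n ≤ 2 ^ 21 * (2 ^ i) ^ 18 := ⟨n, Nat.lt_two_pow_self.le.trans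
      ((Nat.le_self_pow (by norm_num) _).trans (Nat.le_mul_of_pos_left _ (by norm_num)))⟩
    have e1 := Nat.find_spec hex
    obtain ⟨i, hi⟩ : ∃ i, Nat.find hex = i + 1 := Nat.exists_eq_succ_of_ne_zero fun h1 => by
      rw [h1] at e1; omega
    have e2 : 8 * (2 ^ (i + 1)) ^ 18 < n := by
      have := not_le.mp (Nat.find_min hex (m := i) (by omega))
      rwa [show 2 ^ 21 * (2 ^ i) ^ 18 = 8 * (2 ^ (i + 1)) ^ 18 by ring] at this
    rw [hi] at e1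
    refine mem_union_right _ (mem_biUnion.mpr ⟨i + 1, mem_Icc.mpr ⟨by omega,
      Nat.le_log_of_pow_le (by norm_num) ?_⟩, mem_filter.mpr ⟨hn.1, e2, e1, hn.2⟩⟩)
    have := Nat.le_self_pow (n := 18) (by norm_num) (2 ^ (i + 1))
    omega
  have h1 : ∀ i ∈ Icc 1 (Nat.log 2 X), (#((Icc 1 X).filter fun n =>
      8 * (2 ^ i) ^ 18 < n ∧ n ≤ 2 ^ 21 * (2 ^ i) ^ 18 ∧ cnt H n < K) : ℝ) ≤
        C * (X : ℝ) ^ (ε / 2) * B := fun i hi => by
    rcases ((Icc 1 X).filter fun n => 8 * (2 ^ i) ^ 18 < n ∧ n ≤ 2 ^ 21 * (2 ^ i) ^ 18 ∧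
      cnt H n < K).eq_empty_or_nonempty with h | ⟨n, hn⟩
    · rw [h, card_empty, Nat.cast_zero]; positivity
    have u2 : 2 ≤ 2 ^ i := Nat.le_self_pow (by have := (mem_Icc.mp hi).1; omega) 2
    refine (hC _ H K u2 hH _ fun n hn => (mem_filter.mp hn).2).trans ?_
    have e1 : (2 ^ i) ^ 18 ≤ X := by
      have := (mem_filter.mp hn).2.1
      have := (mem_Icc.mp (mem_filter.mp hn).1).2
      omega
    generalize 2 ^ i = u at u2 e1
    have e2 : (u : ℝ) ≤ (X : ℝ) ^ (1 / 18 : ℝ) := by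
      rw [one_div, Real.le_rpow_inv_iff_of_pos (by positivity) (by positivity) (by norm_num)]
      exact_mod_cast e1
    have e3 : ∀ (k : ℕ) (s : ℝ), (k : ℝ) / 18 ≤ s → (u : ℝ) ^ k ≤ (X : ℝ) ^ s := fun k s h => by
      refine (pow_le_pow_left₀ (by positivity) e2 k).trans ?_
      rw [← Real.rpow_natCast, ← Real.rpow_mul (by positivity)]
      exact Real.rpow_le_rpow_of_exponent_le X1 (by linarith)
    have e4 : ((u : ℝ) ^ (ε / 4)) ^ 32 ≤ (X : ℝ) ^ (ε / 2) := by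
      refine (pow_le_pow_left₀ (by positivity)
        (Real.rpow_le_rpow (by positivity) e2 (by positivity)) 32).trans ?_
      rw [← Real.rpow_natCast, ← Real.rpow_mul (by positivity), ← Real.rpow_mul (by positivity)]
      exact Real.rpow_le_rpow_of_exponent_le X1 (by push_cast; linarith)
    have e5 : (K : ℝ) * u ^ 20 / H ≤ K * (X : ℝ) ^ (10 / 9 : ℝ) / H := by
      gcongr
      exact e3 20 _ (by norm_num)
    have e6 : (K : ℝ) * u ^ 2 ≤ K * (X : ℝ) ^ (10 / 9 : ℝ) / H := by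
      rw [mul_div_assoc]
      refine mul_le_mul_of_nonneg_left ((e3 2 (1 / 9) (by norm_num)).trans ?_) (by positivity)
      rw [le_div_iff₀ H0, show (10 / 9 : ℝ) = 1 / 9 + 1 by norm_num,
        Real.rpow_add (by positivity), Real.rpow_one]
      exact mul_le_mul_of_nonneg_left (by exact_mod_cast hHX) (by positivity)
    have e7 := e3 16 (8 / 9) (by norm_num)
    have e8 : (0 : ℝ) ≤ (X : ℝ) ^ (8 / 9 : ℝ) := by positivity
    have e9 : (K : ℝ) * u ^ 20 / H + K * u ^ 2 + u ^ 16 ≤ 2 * B := by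
      rw [hB]
      linarith
    rw [hCC, show C' * 2 * (X : ℝ) ^ (ε / 2) * B = C' * (X : ℝ) ^ (ε / 2) * (2 * B) by ring]
    gcongr
  have h2 : (Nat.log 2 X : ℝ) ≤ (6 + 8 / (ε / 2)) ^ 2 * (X : ℝ) ^ (ε / 2) := by
    refine le_trans ?_ (klog (k := Nat.log 2 X) (half_pos hε) X1 ?_)
    · nlinarith [Nat.cast_nonneg (α := ℝ) (Nat.log 2 X)]
    · have : (2 : ℝ) ^ Nat.log 2 X ≤ X := by exact_mod_cast Nat.pow_log_le_self 2 hX.ne'
      nlinarith
  have h3 := (card_le_card hs).trans ((card_union_le _ _).trans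
    (Nat.add_le_add_left card_biUnion_le _))
  have h4 := sum_le_card_nsmul _ _ _ h1
  rw [Nat.card_Icc, Nat.add_sub_cancel, nsmul_eq_mul] at h4
  rw [Nat.card_Icc, Nat.add_sub_cancel] at h3
  have h5 := (Nat.cast_le (α := ℝ)).mpr h3
  rw [Nat.cast_add, Nat.cast_sum] at h5
  have h6 := mul_le_mul_of_nonneg_right h2 (by positivity : 0 ≤ C * (X : ℝ) ^ (ε / 2) * B)
  have h7 : (X : ℝ) ^ ε = (X : ℝ) ^ (ε / 2) * (X : ℝ) ^ (ε / 2) := by
    rw [← Real.rpow_add (by positivity)]; congr 1; ring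
  have h8 : 1 ≤ (X : ℝ) ^ ε * B :=
    one_le_mul_of_one_le_of_one_le (Real.one_le_rpow X1 hε.le) B1
  rw [← hB, add_mul, add_mul]
  refine h5.trans (add_le_add ?_ ((h4.trans h6).trans_eq (by rw [h7]; ring)))
  push_cast
  linarith

end Pool.Agent.Lib.MP_0d68fc_nt.Many
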