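import Pool.Agent.Lib.MP_786755_nt.Int

/-! Oscillatory integrals with a cubic phase. -/

set_option autoImplicit false

namespace Pool.Agent.Lib.MP_0d68fc_nt

open Finset Pool.Agent.Lib.MP_028aa5_nt Pool.Agent.Lib.MP_786755_nt MeasureTheory
open scoped ComplexConjugate

noncomputable def tp : ℂ := 2 * Real.pi * Complex.I

lemma norm_tp : ‖tp‖ = 2 * Real.pi := by
  simp [tp, abs_of_pos Real.pi_pos]

lemma one_le_tp : 1 ≤ ‖tp‖ := by rw [norm_tp]; linarith [Real.pi_gt_three]

lemma tp_le : ‖tp‖ ≤ 7 := by rw [norm_tp]; linarith [Real.pi_lt_d2]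

lemma tp_ne : tp ≠ 0 := norm_pos_iff.mp (lt_of_lt_of_le one_pos one_le_tp)

lemma hd_e {ψ : ℝ → ℝ} {p x : ℝ} (h : HasDerivAt ψ p x) :
    HasDerivAt (fun u => e (ψ u)) (tp * p * e (ψ x)) x := by
  have h1 := (h.ofReal_comp.const_mul tp).cexp
  unfold e
  refine h1.congr_deriv ?_
  rw [mul_comm]; rfl

lemma ibp {V V' : ℝ → ℂ} {ψ p : ℝ → ℝ} {a b : ℝ} (hab : a ≤ b)
    (hV : ∀ u ∈ Set.Icc a b, HasDerivAt V (V' u) u) (hψ : ∀ u ∈ Set.Icc a b, HasDerivAt ψ (p u) u)
    (cV : ContinuousOn V' (Set.Icc a b)) (cp : ContinuousOn p (Set.Icc a b)) :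
    tp * ∫ u in a..b, V u * p u * e (ψ u) =
      V b * e (ψ b) - V a * e (ψ a) - ∫ u in a..b, V' u * e (ψ u) := by
  have cψ : ContinuousOn ψ (Set.Icc a b) := fun u hu => (hψ u hu).continuousAt.continuousWithinAt
  rw [← intervalIntegral.integral_mul_deriv_eq_deriv_mul (u := V) (v := fun u => e (ψ u))
    (u' := V') (v' := fun u => tp * p u * e (ψ u)), ← intervalIntegral.integral_const_mul]
  · exact intervalIntegral.integral_congr fun u _ => by ring
  · rw [Set.uIcc_of_le hab]; exact hV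
  · rw [Set.uIcc_of_le hab]; exact fun u hu => hd_e (hψ u hu)
  · exact cV.intervalIntegrable_of_Icc hab
  · exact ContinuousOn.intervalIntegrable_of_Icc hab (by fun_prop)

def ph (A b c u : ℝ) : ℝ := A * u ^ 3 - b * u ^ 2 - c * u
def p1 (A b c u : ℝ) : ℝ := 3 * A * u ^ 2 - 2 * b * u - c
def p2 (A b u : ℝ) : ℝ := 6 * A * u - 2 * b

@[fun_prop] lemma continuous_ph (A b c : ℝ) : Continuous (ph A b c) := by unfold ph; fun_prop
@[fun_prop] lemma continuous_p1 (A b c : ℝ) : Continuous (p1 A b c) := by unfold p1; fun_prop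
@[fun_prop] lemma continuous_p2 (A b : ℝ) : Continuous (p2 A b) := by unfold p2; fun_prop

lemma hd_ph (A b c u : ℝ) : HasDerivAt (ph A b c) (p1 A b c u) u := by
  refine (((((hasDerivAt_pow 3 u).const_mul A).sub ((hasDerivAt_pow 2 u).const_mul b)).sub
    ((hasDerivAt_id u).const_mul c))).congr_deriv ?_
  simp [p1]; ring

lemma hd_p1 (A b c u : ℝ) : HasDerivAt (p1 A b c) (p2 A b u) u := by
  refine (((((hasDerivAt_pow 2 u).const_mul (3 * A)).sub
    ((hasDerivAt_id u).const_mul (2 * b))).sub_const c)).congr_deriv ?_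
  simp [p2]; ring

lemma hd_p2 (A b u : ℝ) : HasDerivAt (p2 A b) (6 * A) u := by
  refine (((hasDerivAt_id u).const_mul (6 * A)).sub_const (2 * b)).congr_deriv ?_
  simp

noncomputable def Os (V : ℝ → ℝ) (A b c : ℝ) : ℂ := ∫ u in (1 : ℝ)..4, V u * e (ph A b c u)

/-- `V'` is a continuous derivative of `V` on `[1,4]`, and `V` vanishes at both ends -/
structure Adm (V V' : ℝ → ℝ) : Prop where
  hd : ∀ u ∈ Set.Icc (1 : ℝ) 4, HasDerivAt V (V' u) u
  ct : ContinuousOn V' (Set.Icc 1 4)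
  z1 : V 1 = 0
  z4 : V 4 = 0

lemma Adm.c0 {V V' : ℝ → ℝ} (h : Adm V V') : ContinuousOn V (Set.Icc 1 4) :=
  fun u hu => (h.hd u hu).continuousAt.continuousWithinAt

lemma Adm.ibp {V V' : ℝ → ℝ} (h : Adm V V') (A b c : ℝ) :
    tp * Os (fun u => V u * p1 A b c u) A b c = - Os V' A b c := by
  have h1 := MP_0d68fc_nt.ibp (V := fun u => (V u : ℂ)) (V' := fun u => (V' u : ℂ))
    (ψ := ph A b c) (p := p1 A b c) (by norm_num : (1 : ℝ) ≤ 4)
    (fun u hu => (h.hd u hu).ofReal_comp) (fun u _ => hd_ph A b c u)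
    (Complex.continuous_ofReal.comp_continuousOn h.ct) (by fun_prop)
  simp only [h.z1, h.z4, Complex.ofReal_zero, zero_mul, sub_self, zero_sub] at h1
  unfold Os
  simpa using h1

lemma Os_congr {V W : ℝ → ℝ} (h : ∀ u ∈ Set.Icc (1 : ℝ) 4, V u = W u) (A b c : ℝ) :
    Os V A b c = Os W A b c :=
  intervalIntegral.integral_congr fun u hu => by
    rw [Set.uIcc_of_le (by norm_num)] at hu
    simp only [h u hu]

lemma Os_add {V W : ℝ → ℝ} (hV : ContinuousOn V (Set.Icc 1 4)) (hW : ContinuousOn W (Set.Icc 1 4))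
    (A b c : ℝ) : Os (fun u => V u + W u) A b c = Os V A b c + Os W A b c := by
  unfold Os
  rw [← intervalIntegral.integral_add (ContinuousOn.intervalIntegrable_of_Icc (by norm_num)
    (by fun_prop)) (ContinuousOn.intervalIntegrable_of_Icc (by norm_num) (by fun_prop))]
  exact intervalIntegral.integral_congr fun u _ => by push_cast; ring

lemma Os_mul (k : ℝ) (V : ℝ → ℝ) (A b c : ℝ) : Os (fun u => k * V u) A b c = k * Os V A b c := by
  unfold Os
  rw [← intervalIntegral.integral_const_mul]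
  exact intervalIntegral.integral_congr fun u _ => by push_cast; ring

lemma Os_le {V m : ℝ → ℝ} (hm : ContinuousOn m (Set.Icc 1 4))
    (h : ∀ u ∈ Set.Icc (1 : ℝ) 4, |V u| ≤ m u) (A b c : ℝ) :
    ‖Os V A b c‖ ≤ ∫ u in (1 : ℝ)..4, m u := by
  refine intervalIntegral.norm_integral_le_of_norm_le (by norm_num) (ae_of_all _ fun u hu => ?_)
    (hm.intervalIntegrable_of_Icc (by norm_num))
  simpa using h u ⟨hu.1.le, hu.2⟩

lemma Os_triv {V : ℝ → ℝ} {a : ℝ} (h : ∀ u ∈ Set.Icc (1 : ℝ) 4, |V u| ≤ a) (A b c : ℝ) :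
    ‖Os V A b c‖ ≤ 3 * a := by
  refine (Os_le (m := fun _ => a) (by fun_prop) h A b c).trans_eq ?_
  rw [intervalIntegral.integral_const, smul_eq_mul]; norm_num

lemma Os_neg (V : ℝ → ℝ) (A b c : ℝ) : Os V (-A) (-b) (-c) = conj (Os V A b c) := by
  unfold Os
  rw [intervalIntegral.integral_of_le (by norm_num), intervalIntegral.integral_of_le (by norm_num),
    ← integral_conj]
  congr 1
  ext u
  rw [map_mul, Complex.conj_ofReal, conj_e]
  congr 2
  unfold ph; ring

lemma osc {V V' m : ℝ → ℝ} (h : Adm V V') {A b c l : ℝ} (hl : 0 ≤ l)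
    (hD : ∀ u ∈ Set.Icc (1 : ℝ) 4, 0 < p1 A b c u ^ 2 + l) (hm : ContinuousOn m (Set.Icc 1 4))
    (hb : ∀ u ∈ Set.Icc (1 : ℝ) 4, (|V u| * (l + |p2 A b u|) + |V' u| * |p1 A b c u|) /
      (p1 A b c u ^ 2 + l) ≤ m u) : ‖Os V A b c‖ ≤ ∫ u in (1 : ℝ)..4, m u := by
  have c0 := h.c0
  have c1 := h.ct
  have hD' : ∀ u ∈ Set.Icc (1 : ℝ) 4, p1 A b c u ^ 2 + l ≠ 0 := fun u hu => (hD u hu).ne'
  have hD2 : ∀ u ∈ Set.Icc (1 : ℝ) 4, (p1 A b c u ^ 2 + l) ^ 2 ≠ 0 :=
    fun u hu => pow_ne_zero 2 (hD' u hu)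
  have a1 : Adm (fun u => V u * p1 A b c u / (p1 A b c u ^ 2 + l))
      (fun u => V' u * p1 A b c u / (p1 A b c u ^ 2 + l) +
        V u * p2 A b u * (l - p1 A b c u ^ 2) / (p1 A b c u ^ 2 + l) ^ 2) := by
    refine ⟨fun u hu => ?_, by fun_prop (disch := assumption), by simp [h.z1], by simp [h.z4]⟩
    refine (((h.hd u hu).mul (hd_p1 A b c u)).div (((hd_p1 A b c u).pow 2).add_const l)
      (hD' u hu)).congr_deriv ?_
    have := hD' u hu
    simp only [Pi.mul_apply, Pi.pow_apply]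
    field_simp
    ring
  have e1 := a1.ibp A b c
  have e2 : Os V A b c = Os (fun u => V u * l / (p1 A b c u ^ 2 + l)) A b c +
      Os (fun u => V u * p1 A b c u / (p1 A b c u ^ 2 + l) * p1 A b c u) A b c := by
    rw [← Os_add (by fun_prop (disch := assumption)) (by fun_prop (disch := assumption))]
    refine Os_congr (fun u hu => ?_) A b c
    have := hD' u hu
    field_simp
    ring
  have e3 := Os_le (V := fun u => V u * l / (p1 A b c u ^ 2 + l))
    (m := fun u => |V u| * l / (p1 A b c u ^ 2 + l)) (by fun_prop (disch := assumption))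
    (fun u hu => by rw [abs_div, abs_mul, abs_of_nonneg hl, abs_of_pos (hD u hu)]) A b c
  have e4 := Os_le (V := fun u => V' u * p1 A b c u / (p1 A b c u ^ 2 + l) +
        V u * p2 A b u * (l - p1 A b c u ^ 2) / (p1 A b c u ^ 2 + l) ^ 2)
    (m := fun u => m u - |V u| * l / (p1 A b c u ^ 2 + l)) (by fun_prop (disch := assumption))
    (fun u hu => by
      have h0 := hD u hu
      refine (abs_add_le _ _).trans (le_sub_iff_add_le.mpr (le_trans ?_ (hb u hu)))
      have h1 : |l - p1 A b c u ^ 2| ≤ p1 A b c u ^ 2 + l := by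
        rw [abs_le]; constructor <;> nlinarith [sq_nonneg (p1 A b c u)]
      have h2 : |V u * p2 A b u * (l - p1 A b c u ^ 2) / (p1 A b c u ^ 2 + l) ^ 2| ≤
          |V u| * |p2 A b u| / (p1 A b c u ^ 2 + l) := by
        rw [abs_div, abs_mul, abs_mul, abs_of_pos (pow_pos h0 2), div_le_div_iff₀ (pow_pos h0 2) h0]
        have := mul_le_mul_of_nonneg_left h1
          (by positivity : 0 ≤ |V u| * |p2 A b u| * (p1 A b c u ^ 2 + l))
        nlinarith
      rw [abs_div, abs_mul, abs_of_pos h0, mul_add, add_div, add_div]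
      linarith) A b c
  rw [intervalIntegral.integral_sub (hm.intervalIntegrable_of_Icc (by norm_num))
    (ContinuousOn.intervalIntegrable_of_Icc (by norm_num) (by fun_prop (disch := assumption)))]
    at e4
  have e5 := congrArg norm e1
  rw [norm_mul, norm_neg] at e5
  have e6 := mul_le_mul_of_nonneg_right one_le_tp (norm_nonneg
    (Os (fun u => V u * p1 A b c u / (p1 A b c u ^ 2 + l) * p1 A b c u) A b c))
  rw [e2]
  refine (norm_add_le _ _).trans ?_
  linarith

lemma near {V V' : ℝ → ℝ} (h : Adm V V') {A b c a v : ℝ} (hA : 0 < A) (hb : |b| ≤ 256 * A)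
    (hp : ∀ u ∈ Set.Icc (1 : ℝ) 4, A * |u - v| ≤ |p1 A b c u|)
    (h0 : ∀ u ∈ Set.Icc (1 : ℝ) 4, |V u| ≤ a) (h1 : ∀ u ∈ Set.Icc (1 : ℝ) 4, |V' u| ≤ a) :
    ‖Os V A b c‖ ≤ 2200 * a / √A := by
  have ha : 0 ≤ a := (abs_nonneg _).trans (h0 1 (by norm_num))
  have hs : 0 < √A := Real.sqrt_pos.mpr hA
  have hs2 : √A ^ 2 = A := Real.sq_sqrt hA.le
  have hc : Continuous fun u : ℝ => 537 * a / (1 + (√A * (u - v)) ^ 2) + a / √A :=
    (Continuous.div (by fun_prop) (by fun_prop) fun u => by positivity).add (by fun_prop)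
  refine (osc h hA.le (fun u _ => by positivity) hc.continuousOn fun u hu => ?_).trans ?_
  · have e1 : |p2 A b u| ≤ 536 * A := by
      unfold p2
      rw [abs_le] at hb ⊢
      constructor <;> nlinarith [hu.1, hu.2]
    have e2 : (A * |u - v|) ^ 2 ≤ p1 A b c u ^ 2 := by
      rw [← sq_abs (p1 A b c u)]
      exact pow_le_pow_left₀ (by positivity) (hp u hu) 2
    rw [add_div]
    refine add_le_add ?_ ?_
    · rw [div_le_div_iff₀ (by positivity) (by positivity), mul_pow, hs2]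
      rw [mul_pow, sq_abs] at e2
      have e3 : |V u| * (A + |p2 A b u|) ≤ a * (537 * A) :=
        mul_le_mul (h0 u hu) (by linarith) (by positivity) ha
      have e4 := mul_le_mul_of_nonneg_right e3 (by positivity : 0 ≤ 1 + A * (u - v) ^ 2)
      have e5 := mul_le_mul_of_nonneg_left e2 ha
      nlinarith
    · rw [div_le_div_iff₀ (by positivity) hs]
      have e3 : |p1 A b c u| * √A ≤ p1 A b c u ^ 2 + A := by
        nlinarith [sq_nonneg (|p1 A b c u| - √A), sq_abs (p1 A b c u), sq_nonneg (p1 A b c u)]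
      rw [mul_assoc]
      exact mul_le_mul (h1 u hu) e3 (by positivity) ha
  · rw [intervalIntegral.integral_eq_sub_of_hasDerivAt
      (f := fun u => 537 * a / √A * Real.arctan (√A * (u - v)) + a / √A * u) (fun u _ => ?_)
      (hc.intervalIntegrable _ _)]
    · have e1 := Real.arctan_lt_pi_div_two (√A * (4 - v))
      have e2 := Real.neg_pi_div_two_lt_arctan (√A * (1 - v))
      have e3 := Real.pi_lt_four
      have e4 : 0 ≤ a / √A := by positivity
      rw [mul_div_assoc, mul_div_assoc]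
      nlinarith
    · refine ((((((hasDerivAt_id u).sub_const v).const_mul √A).arctan).const_mul _).add
        ((hasDerivAt_id u).const_mul _)).congr_deriv ?_
      simp only [id]
      field_simp

lemma far {V V' V'' : ℝ → ℝ} (h : Adm V V') (h' : Adm V' V'') {A b c a μ : ℝ} (hμ : 0 < μ)
    (hA : |A| ≤ 2 * μ) (hb : |b| ≤ 2 * μ) (hp : ∀ u ∈ Set.Icc (1 : ℝ) 4, μ ≤ |p1 A b c u|)
    (h0 : ∀ u ∈ Set.Icc (1 : ℝ) 4, |V u| ≤ a) (h1 : ∀ u ∈ Set.Icc (1 : ℝ) 4, |V' u| ≤ a)
    (h2 : ∀ u ∈ Set.Icc (1 : ℝ) 4, |V'' u| ≤ a) : ‖Os V A b c‖ ≤ 30000 * a / μ ^ 2 := by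
  have ha : 0 ≤ a := (abs_nonneg _).trans (h0 1 (by norm_num))
  have c0 := h.c0
  have c1 := h.ct
  have c2 := h'.ct
  have n1 : ∀ u ∈ Set.Icc (1 : ℝ) 4, p1 A b c u ≠ 0 :=
    fun u hu => abs_pos.mp (hμ.trans_le (hp u hu))
  have a1 : Adm (fun u => V u / p1 A b c u)
      (fun u => (V' u - V u * (p2 A b u / p1 A b c u)) / p1 A b c u) := by
    refine ⟨fun u hu => ?_, by fun_prop (disch := assumption), by simp [h.z1], by simp [h.z4]⟩
    refine ((h.hd u hu).div (hd_p1 A b c u) (n1 u hu)).congr_deriv ?_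
    have := n1 u hu
    field_simp
  have a2 : Adm (fun u => (V' u - V u * (p2 A b u / p1 A b c u)) / p1 A b c u)
      (fun u => (V'' u - 2 * V' u * (p2 A b u / p1 A b c u) - V u * (6 * A / p1 A b c u) +
        2 * V u * (p2 A b u / p1 A b c u) ^ 2) / p1 A b c u) := by
    refine ⟨fun u hu => ?_, by fun_prop (disch := assumption), by simp [h.z1, h'.z1],
      by simp [h.z4, h'.z4]⟩
    refine (((h'.hd u hu).sub ((h.hd u hu).mul ((hd_p2 A b u).div (hd_p1 A b c u) (n1 u hu)))).div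
      (hd_p1 A b c u) (n1 u hu)).congr_deriv ?_
    have := n1 u hu
    simp only [Pi.mul_apply, Pi.div_apply, Pi.sub_apply]
    field_simp
    ring
  have e1 := congrArg norm (a1.ibp A b c)
  rw [norm_mul, norm_neg, Os_congr (W := V) (fun u hu => div_mul_cancel₀ _ (n1 u hu))] at e1
  have e2 := mul_le_mul_of_nonneg_right one_le_tp (norm_nonneg (Os V A b c))
  have e3 := osc a2 (A := A) (b := b) (c := c) (m := fun _ => 10000 * a / μ ^ 2) le_rfl
    (fun u hu => by have := n1 u hu; positivity) (by fun_prop) fun u hu => by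
      have q0 := hp u hu
      have q1 : 0 < |p1 A b c u| := hμ.trans_le q0
      have q2 : |p2 A b u / p1 A b c u| ≤ 52 := by
        rw [abs_div, div_le_iff₀ q1]
        have : |p2 A b u| ≤ 52 * μ := by
          unfold p2
          rw [abs_le] at hA hb ⊢
          constructor <;> nlinarith [hu.1, hu.2]
        linarith
      have q3 : |6 * A / p1 A b c u| ≤ 12 := by
        rw [abs_div, div_le_iff₀ q1, abs_mul, abs_of_pos (by norm_num : (0 : ℝ) < 6)]
        linarith
      have q4 : |p2 A b u| = |p2 A b u / p1 A b c u| * |p1 A b c u| := by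
        rw [abs_div, div_mul_cancel₀ _ q1.ne']
      rw [q4]
      generalize p2 A b u / p1 A b c u = r at q2 ⊢
      generalize 6 * A / p1 A b c u = s at q3 ⊢
      have r0 := h0 u hu
      have r1 := h1 u hu
      have r2 := h2 u hu
      have s1 : |V u * r| ≤ a * 52 := by
        rw [abs_mul]; exact mul_le_mul r0 q2 (abs_nonneg _) ha
      have s2 : |V' u * r| ≤ a * 52 := by
        rw [abs_mul]; exact mul_le_mul r1 q2 (abs_nonneg _) ha
      have s3 : |V u * s| ≤ a * 12 := by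
        rw [abs_mul]; exact mul_le_mul r0 q3 (abs_nonneg _) ha
      have s4 : |V u * r * r| ≤ a * 52 * 52 := by
        rw [abs_mul]; exact mul_le_mul s1 q2 (abs_nonneg _) (by positivity)
      have t1 : |V' u - V u * r| ≤ 53 * a := by
        rw [abs_le] at *
        constructor <;> linarith [r1.1, r1.2, s1.1, s1.2]
      have t2 : |V'' u - 2 * V' u * r - V u * s + 2 * V u * r ^ 2| ≤ 5600 * a := by
        rw [abs_le] at *
        constructor <;> nlinarith [r2.1, r2.2, s2.1, s2.2, s3.1, s3.2, s4.1, s4.2]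
      have t3 : |V' u - V u * r| * |r| ≤ 53 * a * 52 :=
        mul_le_mul t1 q2 (abs_nonneg _) (by positivity)
      rw [abs_div, abs_div, zero_add, add_zero, ← sq_abs (p1 A b c u)]
      refine div_le_div₀ (by positivity) ?_ (by positivity) (pow_le_pow_left₀ hμ.le q0 2)
      rw [div_mul_cancel₀ _ q1.ne', ← mul_assoc, div_mul_eq_mul_div, div_mul_cancel₀ _ q1.ne']
      linarith
  simp only [intervalIntegral.integral_const, smul_eq_mul] at e3
  calc _ ≤ _ := by linarith
    _ ≤ _ := e3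
    _ = _ := by ring

end Pool.Agent.Lib.MP_0d68fc_nt
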