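import Pool.Agent.Lib.MP_0d68fc_nt.Amp

/-! Poisson summation for the smooth sums. -/

set_option autoImplicit false

namespace Pool.Agent.Lib.MP_0d68fc_nt

open Finset Pool.Agent.Lib.MP_028aa5_nt Pool.Agent.Lib.MP_786755_nt MeasureTheory
open scoped ComplexConjugate FourierTransform

noncomputable def om (j : Bool) (t : ℝ) : ℝ := (max 0 ((rt j t - 1) * (4 - rt j t))) ^ 2

@[fun_prop] lemma continuous_om (j : Bool) : Continuous (om j) := by unfold om; fun_prop

lemma om_nonneg (j : Bool) (t : ℝ) : 0 ≤ om j t := sq_nonneg _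

lemma om_le (j : Bool) (t : ℝ) : om j t ≤ 9 := by
  have h1 : (rt j t - 1) * (4 - rt j t) ≤ 3 := by nlinarith [sq_nonneg (2 * rt j t - 5)]
  have h2 : max 0 ((rt j t - 1) * (4 - rt j t)) ≤ 3 := max_le (by norm_num) h1
  exact (pow_le_pow_left₀ (le_max_left _ _) h2 2).trans (by norm_num)

lemma om_supp (j : Bool) {t : ℝ} (h : om j t ≠ 0) : 1 < t ∧ t < pw j 4 := by
  have h1 : 0 < (rt j t - 1) * (4 - rt j t) := by
    by_contra h1
    exact h (by rw [om, max_eq_left (not_lt.mp h1)]; norm_num)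
  have h2 : 1 < rt j t ∧ rt j t < 4 := by
    constructor <;> by_contra h2 <;> nlinarith
  cases j
  · exact ⟨(Real.lt_sqrt (by norm_num)).mp h2.1 |>.trans_le' (by norm_num),
      (Real.sqrt_lt' (by norm_num)).mp h2.2⟩
  · exact h2

lemma pw_le (j : Bool) : pw j 4 ≤ 16 := by cases j <;> norm_num [pw]

lemma rt_pw (j : Bool) {u : ℝ} (hu : 0 ≤ u) : rt j (pw j u) = u := by
  cases j
  · exact Real.sqrt_sq hu
  · rfl

lemma om_pw (j : Bool) {u : ℝ} (hu : u ∈ Set.Icc (1 : ℝ) 4) : om j (pw j u) = W u := by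
  rw [om, rt_pw j (by linarith [hu.1]),
    max_eq_right (mul_nonneg (by linarith [hu.1]) (by linarith [hu.2])), W]

lemma hd_pw (j : Bool) (u : ℝ) : HasDerivAt (pw j) (dw j u) u := by
  cases j
  · exact (hasDerivAt_pow 2 u).congr_deriv (by simp [dw])
  · exact hasDerivAt_id u

noncomputable def fz (j : Bool) (A M y : ℝ) : ℂ := om j (y / M) * e (A * rt j (y / M) ^ 3)

@[fun_prop] lemma continuous_fz (j : Bool) (A M : ℝ) : Continuous (fz j A M) := by
  unfold fz; fun_prop

lemma fz_supp (j : Bool) {A M y : ℝ} (hM : 0 < M) (h : fz j A M y ≠ 0) :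
    M < y ∧ y < M * pw j 4 := by
  have h1 := om_supp j (t := y / M) fun h0 => h (by simp [fz, h0])
  rw [one_lt_div hM, div_lt_iff₀' hM] at h1
  exact h1

lemma four (j : Bool) (A w : ℝ) {M : ℝ} (hM : 0 < M) :
    𝓕 (fz j A M) w = M * II j A (w * M) := by
  have h1 : ∀ v : ℝ, Complex.exp (((-2 * Real.pi * v * w : ℝ) : ℂ) * Complex.I) • fz j A M v =
      e (-(v * w)) * fz j A M v := fun v => by
    rw [e_eq, smul_eq_mul, show 2 * Real.pi * -(v * w) = -2 * Real.pi * v * w by ring]
  rw [Real.fourier_real_eq_integral_exp_smul]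
  simp only [h1]
  rw [← intervalIntegral.integral_eq_integral_of_support_subset (a := M * pw j 1) (b := M * pw j 4),
    ← intervalIntegral.integral_deriv_smul_comp (f := fun u => M * pw j u)
      (f' := fun u => M * dw j u) (fun u _ => (hd_pw j u).const_mul M) (by fun_prop) (by fun_prop),
    II, Os, ← intervalIntegral.integral_const_mul]
  · refine intervalIntegral.integral_congr fun u hu => ?_
    rw [Set.uIcc_of_le (by norm_num)] at hu
    simp only [Function.comp, fz]
    rw [mul_div_cancel_left₀ _ hM.ne', om_pw j hu, rt_pw j (by linarith [hu.1]), mul_left_comm,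
      ← e_add, show ph A (bif j then 0 else w * M) (bif j then w * M else 0) u =
        -(M * pw j u * w) + A * u ^ 3 by cases j <;> simp [ph, pw] <;> ring]
    simp only [Complex.real_smul]
    push_cast
    ring
  · intro y hy
    have h2 := fz_supp j hM (right_ne_zero_of_mul hy)
    exact ⟨by cases j <;> simpa [pw] using h2.1, h2.2.le⟩

lemma sum_tel {c : ℝ} (hc : 0 < c) (N : ℕ) :
    ∑ k ∈ range N, 1 / (1 + c * (k + 1)) ^ 2 ≤ 1 / c - 1 / (c * (1 + c * N)) := by
  induction N with
  | zero => simp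
  | succ n ih =>
    rw [sum_range_succ]
    have : 1 / (1 + c * (n + 1)) ^ 2 ≤ 1 / (c * (1 + c * n)) - 1 / (c * (1 + c * (n + 1))) := by
      rw [show 1 / (c * (1 + c * n)) - 1 / (c * (1 + c * (n + 1))) =
        1 / ((1 + c * n) * (1 + c * (n + 1))) by field_simp; ring, sq]
      gcongr
      linarith
    push_cast
    linarith

lemma sumd {η : ℝ} (hη : 0 < η) {d : ℕ} (hd : 0 < d) (s : Finset ℤ) :
    ∑ t ∈ s, (if t ≠ 0 ∧ (d : ℤ) ∣ t then 1 / (1 + η * |(t : ℝ)|) ^ 2 else 0) ≤ 2 / (η * d) := by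
  obtain ⟨N, hN⟩ : ∃ N : ℕ, ∀ t ∈ s, t.natAbs ≤ N := ⟨s.sup Int.natAbs, fun t ht => le_sup ht⟩
  have d0 : (0 : ℝ) < d := by exact_mod_cast hd
  rw [← sum_filter]
  refine (sum_le_sum_of_subset_of_nonneg (t := (range N ×ˢ (univ : Finset Bool)).image
    fun x => bif x.2 then (d * (x.1 + 1) : ℤ) else -(d * (x.1 + 1))) (fun t ht => ?_)
    fun _ _ _ => by positivity).trans ((sum_image_le_of_nonneg fun _ _ => by positivity).trans ?_)
  · obtain ⟨h1, h2, k, rfl⟩ : t ∈ s ∧ t ≠ 0 ∧ (d : ℤ) ∣ t := by simpa using ht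
    have h3 := hN _ h1
    have h4 : k ≠ 0 := right_ne_zero_of_mul h2
    rw [Int.natAbs_mul, Int.natAbs_natCast] at h3
    have h5 : k.natAbs ≤ N := le_trans (Nat.le_mul_of_pos_left _ hd) h3
    refine mem_image.mpr ⟨(k.natAbs - 1, decide (0 < k)), by simp; omega, ?_⟩
    by_cases h6 : 0 < k
    · simp only [h6, decide_true, cond_true]
      congr 1; omega
    · simp only [h6, decide_false, cond_false]
      rw [← mul_neg]
      congr 1; omega
  · have h1 := sum_tel (mul_pos hη d0) N
    have h2 : 0 ≤ 1 / (η * d * (1 + η * d * N)) := by positivity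
    have h3 : ∀ k : ℕ, |(d : ℝ) * (k + 1)| = d * (k + 1) := fun k => abs_of_pos (by positivity)
    rw [sum_product]
    simp only [Fintype.sum_bool, cond_true, cond_false]
    push_cast
    simp only [abs_neg, h3, ← mul_assoc]
    rw [sum_add_distrib, show 2 / (η * d) = 1 / (η * d) + 1 / (η * d) by ring]
    linarith

lemma hs_bound {c : ℤ → ℂ} {S : ℂ} (h : HasSum c S) (N : Finset ℤ) {B : ℝ}
    (hB : ∀ s : Finset ℤ, ∑ t ∈ s, (if t ∈ N then 0 else ‖c t‖) ≤ B) :
    ‖S - ∑ t ∈ N, c t‖ ≤ B := by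
  refine le_of_tendsto ((Filter.Tendsto.sub_const h (∑ t ∈ N, c t)).norm) ?_
  filter_upwards [Filter.eventually_ge_atTop N] with s hs
  rw [← sum_sdiff hs, add_sub_cancel_right]
  refine (norm_sum_le _ _).trans (le_trans (le_of_eq ?_) (hB (s \ N)))
  exact sum_congr rfl fun t ht => by rw [if_neg (mem_sdiff.mp ht).2]

lemma summ_II (j : Bool) (A : ℝ) {M : ℝ} (hM : 0 < M) :
    Summable fun t : ℤ => ‖II j A (t * M)‖ := by
  refine summable_of_sum_le (c := 1800 + 10 ^ 11 / √(1 + |A|) * (2 / (M / (1 + |A|) * (1 : ℕ))))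
    (fun _ => norm_nonneg _) fun s => ?_
  calc _ ≤ ∑ t ∈ s, ((if t = 0 then 1800 else 0) + 10 ^ 11 / √(1 + |A|) *
        if t ≠ 0 ∧ ((1 : ℕ) : ℤ) ∣ t then 1 / (1 + M / (1 + |A|) * |(t : ℝ)|) ^ 2 else 0) := by
        refine sum_le_sum fun t _ => ?_
        by_cases h : t = 0
        · simpa [h] using II_triv j A 0
        · refine (II_maj j A _).trans_eq ?_
          simp only [h, if_false, ne_eq, not_false_eq_true, Nat.cast_one, one_dvd, and_self,
            if_true, zero_add, abs_mul, abs_of_pos hM]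
          congr 4; ring
    _ ≤ _ := by
        rw [sum_add_distrib, ← mul_sum, sum_ite_eq']
        refine add_le_add (by split_ifs <;> norm_num) (mul_le_mul_of_nonneg_left
          (sumd (by positivity) one_pos s) (by positivity))

theorem pois (j : Bool) (A : ℝ) {M x : ℝ} (hM : 0 < M) (h0 : 0 ≤ x) (h1 : x ≤ 1) {L : ℕ}
    (hL : M * pw j 4 ≤ L) :
    HasSum (fun t : ℤ => M * II j A (t * M) * e (t * x)) (∑ n ∈ range L, fz j A M (x + n)) := by
  have s1 := summ_II j A hM
  have s2 : Summable fun t : ℤ => M * II j A (t * M) * e (t * x) :=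
    Summable.of_norm (by simpa using s1.mul_left |M|)
  have h := Real.tsum_eq_tsum_fourier_of_rpow_decay_of_summable (continuous_fz j A M) (b := 2)
    (by norm_num) (by
      refine Filter.EventuallyEq.trans_isBigO (f₂ := fun _ => (0 : ℂ)) ?_
        (Asymptotics.isBigO_zero _ _)
      filter_upwards [(isCompact_Icc (a := M) (b := M * pw j 4)).compl_mem_cocompact] with y hy
      by_contra h2
      exact hy ⟨(fz_supp j hM h2).1.le, (fz_supp j hM h2).2.le⟩)
    (by
      simp only [four j A _ hM]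
      exact (Summable.of_norm s1).mul_left _) x
  have h2 : ∀ t : ℤ, 𝓕 (fz j A M) t * fourier t (x : UnitAddCircle) =
      M * II j A (t * M) * e (t * x) := fun t => by
    rw [four j A _ hM, fourier_coe_apply, e]
    congr 2
    push_cast; ring
  simp only [h2] at h
  rw [tsum_eq_sum (s := (range L).image (Nat.cast : ℕ → ℤ)), sum_image (by simp)] at h
  · simp only [Int.cast_natCast] at h
    rw [h]
    exact s2.hasSum
  · intro n hn
    by_contra h3
    obtain ⟨h4, h5⟩ := fz_supp j hM h3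
    have h6 : (-1 : ℝ) < n := by linarith
    have h7 : (n : ℝ) < L := by linarith
    have h8 : -1 < n := by exact_mod_cast h6
    have h9 : n < L := by exact_mod_cast h7
    exact hn (mem_image.mpr ⟨n.toNat, mem_range.mpr (by omega), by omega⟩)

end Pool.Agent.Lib.MP_0d68fc_nt
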