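import Pool.Agent.Lib.MP_0d68fc_nt.Cnt

/-! The duality step for the fourth moment. -/

set_option autoImplicit false

namespace Pool.Agent.Lib.MP_0d68fc_nt

open Finset Pool.Agent.Lib.MP_028aa5_nt Pool.Agent.Lib.MP_786755_nt MeasureTheory
open scoped ComplexConjugate

noncomputable def Dy (M : ℝ) : Finset ℕ := Ioc ⌊M⌋₊ ⌊2 * M⌋₊

noncomputable def lam (j : Bool) (M : ℝ) (p : ℕ × ℕ) : ℝ :=
  rt j (p.1 / M) ^ 3 + rt j (p.2 / M) ^ 3

noncomputable def cnt (j : Bool) (M δ : ℝ) : ℝ := cw (Dy M ×ˢ Dy M) (fun _ => 1) (lam j M) δ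

def Hyp (γ C : ℝ) : Prop :=
  ∀ (j : Bool) (M δ : ℝ), 0 < M → 0 < δ → cnt j M δ ≤ C * (1 + δ * M ^ 2) * (1 + M) ^ γ

lemma mem_Dy {M : ℝ} (hM : 0 < M) {n : ℕ} (h : n ∈ Dy M) : M < n ∧ n ≤ 2 * M := by
  rw [Dy, mem_Ioc, Nat.floor_lt hM.le, Nat.le_floor_iff (by positivity)] at h
  exact h

lemma rt_Dy (j : Bool) {M : ℝ} (hM : 0 < M) {n : ℕ} (h : n ∈ Dy M) :
    1 ≤ rt j (n / M) ∧ rt j (n / M) ≤ 2 := by
  obtain ⟨h1, h2⟩ := mem_Dy hM h
  have h3 : 1 ≤ n / M := by rw [le_div_iff₀ hM]; linarith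
  have h4 : n / M ≤ 2 := by rw [div_le_iff₀ hM]; linarith
  cases j
  · exact ⟨Real.one_le_sqrt.mpr h3, Real.sqrt_le_iff.mpr ⟨by norm_num, by linarith⟩⟩
  · exact ⟨h3, h4⟩

lemma piece {γ C : ℝ} (H : Hyp γ C) (hC : 0 ≤ C) (j : Bool) {M X N : ℝ} (hM : 0 < M) (hX : 0 < X)
    (h1 : X ≤ N * M) (h2 : N * M ≤ 128 * X) {I : ℕ} (hI : 16 * X ≤ 2 ^ I) :
    ∫ A in X..2 * X, ‖∑ m ∈ Dy N, II j A (m * M)‖ ^ 4 ≤
      10 ^ 50 * (I + 1) * (C * (1 + 1 / X * N ^ 2) * (1 + N) ^ γ / X) := by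
  have hN : 0 < N := (mul_pos_iff_of_pos_right hM).mp (hX.trans_le h1)
  have hs : 0 < √X := Real.sqrt_pos.mpr hX
  have hs2 : √X * √X = X := Real.mul_self_sqrt hX.le
  have hm : ∀ m ∈ Dy N, X ≤ m * M ∧ m * M ≤ 256 * X := fun m hm => by
    obtain ⟨h3, h4⟩ := mem_Dy hN hm
    constructor <;> nlinarith
  have hA : ∀ m ∈ Dy N, ∀ A ∈ Set.Icc X (2 * X), ‖Am j (m * M) A‖ ≤ 10 ^ 10 / √X ∧
      ‖Am1 j (m * M) A‖ ≤ 10 ^ 10 / √X / X := fun m h A hA => by
    have h3 := Am_bd j (A := A) (B := m * M) (by linarith [hA.2, (hm m h).1])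
      (by linarith [hA.1, (hm m h).2]) (hX.trans_le hA.1)
    have := hA.1
    exact ⟨h3.1.trans (by gcongr), h3.2.trans (by gcongr)⟩
  have hst : ∀ A ∈ Set.Icc X (2 * X), 1 / 6 ≤ st j (N * M) A ∧ st j (N * M) A ≤ 171 :=
    fun A hA => st_bd j (by linarith [hA.2]) (by linarith [hA.1]) (hX.trans_le hA.1)
  have cs : ContinuousOn (st j (N * M)) (Set.Icc X (2 * X)) := fun A hA =>
    (hd_st j (hX.trans_le hA.1) (by positivity)).continuousAt.continuousWithinAt
  have q := quad (Dy N ×ˢ Dy N) (lam (!j) N)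
    (a := fun p A => Am j (p.1 * M) A * Am j (p.2 * M) A)
    (a1 := fun p A => Am1 j (p.1 * M) A * Am j (p.2 * M) A + Am j (p.1 * M) A * Am1 j (p.2 * M) A)
    (Ψ := ps j (N * M)) (p := fun A => st j (N * M) A ^ 3) (α0 := 10 ^ 20 / X)
    (α1 := 2 * 10 ^ 20 / X ^ 2) (pm := 171 ^ 3) (β := 10 ^ 47 / X) (δ := 1 / X)
    (B := C * (1 + 1 / X * N ^ 2) * (1 + N) ^ γ) (I := I) hX (by positivity)
    (fun p hp A h => ?_) (fun p hp => ?_) (fun A h => ⟨hd_ps j (hX.trans_le h.1) (by positivity), ?_⟩)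
    (by fun_prop) (by positivity) ?_ ?_ (fun p hp r hr => ?_) fun l => ?_
  · refine le_trans ?_ ((mul_le_mul_of_nonneg_left q (by norm_num : (0 : ℝ) ≤ 216)).trans ?_)
    · rw [← intervalIntegral.integral_const_mul]
      have e1 : ∀ A, ‖∑ p ∈ Dy N ×ˢ Dy N, Am j (p.1 * M) A * Am j (p.2 * M) A *
          e (lam (!j) N p * ps j (N * M) A)‖ ^ 2 = ‖∑ m ∈ Dy N, II j A (m * M)‖ ^ 4 := fun A => by
        rw [show 4 = 2 * 2 by norm_num, pow_mul, ← norm_pow (∑ m ∈ Dy N, II j A (m * M)),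
          sq (∑ m ∈ Dy N, II j A (m * M)), sum_mul_sum, ← sum_product']
        congr 2
        refine sum_congr rfl fun p _ => ?_
        have e2 : ∀ m : ℕ, ps j (m * M) A = rt (!j) (m / N) ^ 3 * ps j (N * M) A := fun m => by
          rw [← ps_mul j (by positivity), ← mul_assoc, div_mul_cancel₀ _ hN.ne']
        rw [II_eq, II_eq, e2, e2, lam, add_mul, e_add]
        ring
      simp only [e1]
      refine intervalIntegral.integral_mono_on (by linarith)
        (Continuous.intervalIntegrable (by fun_prop) _ _)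
        (ContinuousOn.intervalIntegrable_of_Icc (by linarith) (by fun_prop)) fun A h => ?_
      have e3 := pow_le_pow_left₀ (by norm_num) (hst A h).1 3
      have e4 := mul_le_mul_of_nonneg_right e3
        (by positivity : 0 ≤ ‖∑ m ∈ Dy N, II j A (m * M)‖ ^ 4)
      linarith
    · have : 0 ≤ (I + 1) * (C * (1 + 1 / X * N ^ 2) * (1 + N) ^ γ / X) := by positivity
      rw [show 216 * (2 * ((I : ℝ) + 1) * (10 ^ 47 / X) * (C * (1 + 1 / X * N ^ 2) * (1 + N) ^ γ)) =
        432 * 10 ^ 47 * ((I + 1) * (C * (1 + 1 / X * N ^ 2) * (1 + N) ^ γ / X)) by ring, mul_assoc]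
      linarith
  · rw [mem_product] at hp
    have A0 := hX.trans_le h.1
    have r1 := hA _ hp.1 A h
    have r2 := hA _ hp.2 A h
    refine ⟨(hd_Am j A0 (hX.trans_le (hm _ hp.1).1)).mul (hd_Am j A0 (hX.trans_le (hm _ hp.2).1)),
      ?_, (norm_add_le _ _).trans ?_⟩
    · rw [norm_mul]
      refine (mul_le_mul r1.1 r2.1 (norm_nonneg _) (by positivity)).trans_eq ?_
      rw [div_mul_div_comm, hs2]; norm_num
    · rw [norm_mul, norm_mul]
      refine (add_le_add (mul_le_mul r1.2 r2.1 (norm_nonneg _) (by positivity))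
        (mul_le_mul r1.1 r2.2 (norm_nonneg _) (by positivity))).trans_eq ?_
      rw [show 10 ^ 10 / √X / X * (10 ^ 10 / √X) + 10 ^ 10 / √X * (10 ^ 10 / √X / X) =
        2 * 10 ^ 20 / (√X * √X * X) by field_simp; ring, hs2, sq]
  · rw [mem_product] at hp
    have c1 := ct_Am1 j (Y := 2 * X) hX (hX.trans_le (hm _ hp.1).1)
    have c2 := ct_Am1 j (Y := 2 * X) hX (hX.trans_le (hm _ hp.2).1)
    have c3 : ∀ m ∈ Dy N, ContinuousOn (Am j (m * M)) (Set.Icc X (2 * X)) := fun m h A hA =>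
      (hd_Am j (hX.trans_le hA.1) (hX.trans_le (hm _ h).1)).continuousAt.continuousWithinAt
    exact (c1.mul (c3 _ hp.2)).add ((c3 _ hp.1).mul c2)
  · have := hst A h
    rw [abs_of_nonneg (pow_nonneg (by linarith [this.1]) 3)]
    exact pow_le_pow_left₀ (by linarith [this.1]) this.2 3
  · rw [show (10 ^ 20 / X) ^ 2 * 171 ^ 3 * X = 10 ^ 40 * 171 ^ 3 / X by field_simp]
    gcongr; norm_num
  · rw [show 2 * (10 ^ 20 / X) ^ 2 + 2 * (10 ^ 20 / X) * (2 * 10 ^ 20 / X ^ 2) * X =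
      6 * 10 ^ 40 / X * (1 / X) by field_simp; ring]
    gcongr; norm_num
  · have r : ∀ p ∈ Dy N ×ˢ Dy N, 0 ≤ lam (!j) N p ∧ lam (!j) N p ≤ 16 := fun p hp => by
      rw [mem_product] at hp
      have r1 := rt_Dy (!j) hN hp.1
      have r2 := rt_Dy (!j) hN hp.2
      have r3 := pow_le_pow_left₀ (by linarith [r1.1]) r1.2 3
      have r4 := pow_le_pow_left₀ (by linarith [r2.1]) r2.2 3
      have r5 := pow_nonneg (zero_le_one.trans r1.1) 3
      have r6 := pow_nonneg (zero_le_one.trans r2.1) 3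
      unfold lam
      constructor <;> linarith
    have : 16 ≤ 2 ^ I * (1 / X) := by rw [mul_one_div, le_div_iff₀ hX]; exact hI
    rw [abs_le]
    constructor <;> linarith [r p hp, r _ hr]
  · refine (H (!j) N _ hN (by positivity)).trans ?_
    rw [← mul_assoc]
    refine mul_le_mul_of_nonneg_right ?_ (by positivity)
    have : (1 : ℝ) ≤ 2 ^ l := one_le_pow₀ (by norm_num)
    nlinarith [mul_le_mul_of_nonneg_left this hC]

/-- the smooth sum -/
noncomputable def Sm (j : Bool) (M : ℝ) (L : ℕ) (A : ℝ) : ℂ := ∑ n ∈ range L, fz j A M n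

@[fun_prop] lemma continuous_Sm (j : Bool) (M : ℝ) (L : ℕ) : Continuous (Sm j M L) := by
  unfold Sm fz; fun_prop

lemma sum_Dy {y : ℝ} (hy : 0 < y) (f : ℕ → ℂ) (k : ℕ) :
    ∑ m ∈ Ioc ⌊y⌋₊ ⌊2 ^ k * y⌋₊, f m = ∑ i ∈ range k, ∑ m ∈ Dy (2 ^ i * y), f m := by
  induction k with
  | zero => simp
  | succ n ih =>
    have h1 : (1 : ℝ) ≤ 2 ^ n := one_le_pow₀ (by norm_num)
    rw [sum_range_succ, ← ih, Dy, sum_Ioc_consecutive _ (Nat.floor_mono (by nlinarith))
      (Nat.floor_mono (by nlinarith)), pow_succ', mul_assoc]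

lemma Sm_split (j : Bool) {M X A : ℝ} (hM : 0 < M) (hX : 1 ≤ X) (hA : A ∈ Set.Icc X (2 * X))
    {L : ℕ} (hL : 16 * M ≤ L) : ‖Sm j M L A‖ ≤ 10 ^ 9 * (M / X + 2) +
      M * ∑ i ∈ range 8, ‖∑ m ∈ Dy (2 ^ i * (X / M)), II j A (m * M)‖ := by
  have A1 := hA.1
  have A2 := hA.2
  have y0 : 0 < X / M := by positivity
  have h := hs_bound (pois j A hM le_rfl zero_le_one (L := L) (by nlinarith [pw_le j]))
    ((Ioc ⌊X / M⌋₊ ⌊2 ^ 8 * (X / M)⌋₊).image (Nat.cast : ℕ → ℤ)) (B := 10 ^ 9 * (M / X + 2))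
    fun s => ?_
  · rw [sum_image (by simp)] at h
    simp only [zero_add, mul_zero, e_zero, mul_one, Int.cast_natCast] at h
    rw [← mul_sum, sum_Dy y0] at h
    refine (norm_le_norm_sub_add _ _).trans (add_le_add h ?_)
    rw [norm_mul, Complex.norm_real, Real.norm_eq_abs, abs_of_pos hM]
    exact mul_le_mul_of_nonneg_left (norm_sum_le _ _) hM.le
  calc _ ≤ ∑ t ∈ s, ((if t = 0 then 10 ^ 9 * (M / X) else 0) + 10 ^ 9 * M *
        if t ≠ 0 ∧ ((1 : ℕ) : ℤ) ∣ t then 1 / (1 + M * |(t : ℝ)|) ^ 2 else 0) := by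
        refine sum_le_sum fun t _ => ?_
        by_cases h1 : t ∈ (Ioc ⌊X / M⌋₊ ⌊2 ^ 8 * (X / M)⌋₊).image (Nat.cast : ℕ → ℤ)
        · rw [if_pos h1]; split_ifs <;> positivity
        rw [if_neg h1, norm_mul, norm_mul, norm_e, mul_one, Complex.norm_real, Real.norm_eq_abs,
          abs_of_pos hM]
        have h2 := II_far j (A := A) (B := t * M) (by linarith) (by
          by_contra h2
          push Not at h2
          have h3 : X / M < t := by rw [div_lt_iff₀ hM]; linarith [h2.1]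
          have h4 : (t : ℝ) ≤ 2 ^ 8 * (X / M) := by
            rw [← mul_div_assoc, le_div_iff₀ hM]; linarith [h2.2]
          have h5 : 0 < t := by exact_mod_cast y0.trans h3
          lift t to ℕ using h5.le
          refine h1 (mem_image_of_mem _ ?_)
          rw [mem_Ioc, Nat.floor_lt y0.le, Nat.le_floor_iff (by positivity)]
          exact ⟨by exact_mod_cast h3, by exact_mod_cast h4⟩)
        refine (mul_le_mul_of_nonneg_left h2 hM.le).trans ?_
        by_cases h : t = 0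
        · simp only [h, if_true, ne_eq, not_true, false_and, if_false, Int.cast_zero, zero_mul,
            abs_zero, add_zero, mul_zero]
          rw [show M * (10 ^ 9 / (1 + A) ^ 2) = 10 ^ 9 * (M / (1 + A) ^ 2) by ring]
          gcongr
          nlinarith
        · simp only [h, if_false, ne_eq, not_false_eq_true, Nat.cast_one, one_dvd, and_self,
            if_true, zero_add, abs_mul, abs_of_pos hM]
          rw [show M * (10 ^ 9 / (1 + A + |(t : ℝ)| * M) ^ 2) =
            10 ^ 9 * M * (1 / (1 + A + M * |(t : ℝ)|) ^ 2) by rw [mul_comm |(t : ℝ)|]; ring]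
          gcongr
          linarith
    _ ≤ _ := by
        rw [sum_add_distrib, ← mul_sum, sum_ite_eq', mul_add]
        refine add_le_add (by split_ifs <;> [exact le_rfl; positivity])
          ((mul_le_mul_of_nonneg_left (sumd hM one_pos s) (by positivity)).trans_eq ?_)
        push_cast
        field_simp

lemma block {γ C : ℝ} (H : Hyp γ C) (hC : 0 ≤ C) (j : Bool) {M X B : ℝ} (hM : 1 ≤ M) (hX : 1 ≤ X)
    (hX2 : X ≤ 2 * M ^ 2) {I : ℕ} (hI : 16 * X ≤ 2 ^ I) {L : ℕ} (hL : 16 * M ≤ L)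
    (hB : ∀ N, 0 < N → N * M ≤ 128 * X → (1 + N) ^ γ / X ≤ B) :
    ∫ A in X..2 * X, ‖Sm j M L A‖ ^ 4 ≤ 10 ^ 60 * (I + 1) * (1 + C * B) * M ^ 4 := by
  have M0 : 0 < M := by linarith
  have X0 : 0 < X := by linarith
  have B0 : 0 ≤ B := le_trans (by positivity) (hB (X / M) (by positivity)
    (by rw [div_mul_cancel₀ _ M0.ne']; linarith))
  calc _ ≤ ∫ A in X..2 * X, (8 * (10 ^ 9 * (M / X + 2)) ^ 4 + 8 ^ 4 * M ^ 4 *
        ∑ i ∈ range 8, ‖∑ m ∈ Dy (2 ^ i * (X / M)), II j A (m * M)‖ ^ 4) := by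
        refine intervalIntegral.integral_mono_on (by linarith)
          (Continuous.intervalIntegrable (by fun_prop) _ _)
          (Continuous.intervalIntegrable (by fun_prop) _ _) fun A hA => ?_
        refine (pow_le_pow_left₀ (norm_nonneg _) (Sm_split j M0 hX hA hL) 4).trans
          ((add_pow_le (by positivity) (by positivity) 4).trans ?_)
        have h := pow_sum_le_card_mul_sum_pow (s := range 8)
          (f := fun i => ‖∑ m ∈ Dy (2 ^ i * (X / M)), II j A (m * M)‖) (fun _ _ => norm_nonneg _) 3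
        rw [card_range] at h
        have h2 := mul_le_mul_of_nonneg_left h (by positivity : 0 ≤ M ^ 4)
        rw [mul_pow M]
        push_cast at h2
        norm_num at h2 ⊢
        linarith
    _ ≤ X * (8 * (10 ^ 9 * (M / X + 2)) ^ 4) + 8 ^ 4 * M ^ 4 *
        ∑ i ∈ range 8, 10 ^ 50 * (I + 1) * (C * 40000 * B) := by
        rw [intervalIntegral.integral_add (by simp) (Continuous.intervalIntegrable (by fun_prop) _ _),
          intervalIntegral.integral_const, intervalIntegral.integral_const_mul,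
          intervalIntegral.integral_finsetSum fun i _ =>
            Continuous.intervalIntegrable (by fun_prop) _ _, smul_eq_mul,
          show 2 * X - X = X by ring]
        gcongr with i hi
        have h1 : (1 : ℝ) ≤ 2 ^ i := one_le_pow₀ (by norm_num)
        have h2 : (2 : ℝ) ^ i ≤ 2 ^ 7 :=
          pow_le_pow_right₀ (by norm_num) (by have := mem_range.mp hi; omega)
        have h3 : 2 ^ i * (X / M) * M = 2 ^ i * X := by field_simp
        have h4 : 2 ^ i * (X / M) * M ≤ 128 * X := by rw [h3]; nlinarith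
        refine (piece H hC j M0 X0 (by rw [h3]; nlinarith) h4 hI).trans ?_
        rw [mul_div_assoc]
        gcongr
        · have h5 : (2 ^ i * (X / M)) ^ 2 ≤ (128 * X / M) ^ 2 :=
            pow_le_pow_left₀ (by positivity) (by rwa [le_div_iff₀ M0]) 2
          have h6 : 1 / X * (128 * X / M) ^ 2 ≤ 128 ^ 2 * 2 := by
            rw [show 1 / X * (128 * X / M) ^ 2 = 128 ^ 2 * (X / M ^ 2) by field_simp]
            gcongr
            rwa [div_le_iff₀ (by positivity)]
          have := mul_le_mul_of_nonneg_left h5 (by positivity : 0 ≤ 1 / X)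
          linarith
        · exact hB _ (by positivity) h4
    _ ≤ _ := by
        have h1 : (M / X + 2) ^ 4 ≤ 2 ^ (4 - 1) * ((M / X) ^ 4 + 2 ^ 4) :=
          add_pow_le (by positivity) (by positivity) 4
        have h2 : X * (M / X) ^ 4 ≤ M ^ 4 := by
          rw [show X * (M / X) ^ 4 = M ^ 4 / X ^ 3 by field_simp]
          exact div_le_self (by positivity) (one_le_pow₀ hX)
        have h3 : M ^ 2 ≤ M ^ 4 := pow_le_pow_right₀ hM (by norm_num)
        have h4 : X * (M / X + 2) ^ 4 ≤ 300 * M ^ 4 := by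
          have := mul_le_mul_of_nonneg_left h1 X0.le
          norm_num at this
          nlinarith
        have h5 : (0 : ℝ) ≤ I * M ^ 4 := by positivity
        have h6 : (0 : ℝ) ≤ (I + 1) * (C * B) * M ^ 4 := by positivity
        have h7 : 0 ≤ M ^ 4 := by positivity
        rw [sum_const, card_range, nsmul_eq_mul, mul_pow]
        push_cast
        nlinarith

end Pool.Agent.Lib.MP_0d68fc_nt
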