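import Pool.Agent.Lib.MP_0d68fc_nt.RS

/-! The recursion for the fourth moment. -/

set_option autoImplicit false

namespace Pool.Agent.Lib.MP_0d68fc_nt

open Finset Pool.Agent.Lib.MP_028aa5_nt Pool.Agent.Lib.MP_786755_nt MeasureTheory
open scoped ComplexConjugate

noncomputable def cW (j : Bool) (M : ℝ) (L : ℕ) (δ : ℝ) : ℝ :=
  cw (range L ×ˢ range L) (fun p => om j (p.1 / M) * om j (p.2 / M)) (lam j M) δ

def WC (τ C : ℝ) : Prop := ∀ (j : Bool) (M δ : ℝ) (L : ℕ), 1 ≤ M → 0 < δ → 16 * M ≤ L →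
  L ≤ 17 * M → cW j M L δ ≤ C * (δ * M ^ 4 + M ^ 2) * M ^ τ

lemma Sm_sq (j : Bool) (M : ℝ) (L : ℕ) (A : ℝ) : Sm j M L A ^ 2 =
    ∑ p ∈ range L ×ˢ range L, ((om j (p.1 / M) * om j (p.2 / M) : ℝ) : ℂ) * e (lam j M p * A) := by
  rw [sq, Sm, sum_mul_sum, ← sum_product']
  refine sum_congr rfl fun p _ => ?_
  rw [lam, add_mul, e_add, fz, fz, mul_comm A, mul_comm A]
  push_cast
  ring

lemma Sm_neg (j : Bool) (M : ℝ) (L : ℕ) (A : ℝ) : ‖Sm j M L (-A)‖ = ‖Sm j M L A‖ := by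
  rw [← Complex.norm_conj (Sm j M L A), Sm, Sm, map_sum]
  congr 1
  refine sum_congr rfl fun n _ => ?_
  rw [fz, fz, map_mul, Complex.conj_ofReal, conj_e, neg_mul]

lemma Sm_triv (j : Bool) (M : ℝ) (L : ℕ) (A : ℝ) : ‖Sm j M L A‖ ≤ 9 * L := by
  refine (norm_sum_le _ _).trans ((sum_le_card_nsmul _ _ 9 fun n _ => ?_).trans_eq (by simp; ring))
  rw [fz, norm_mul, norm_e, mul_one, Complex.norm_real, Real.norm_eq_abs,
    abs_of_nonneg (om_nonneg _ _)]
  exact om_le _ _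

lemma dy_int {f : ℝ → ℝ} (hf : Continuous f) {b : ℝ} (h0 : ∫ x in (0 : ℝ)..1, f x ≤ b) (k : ℕ)
    (h : ∀ i < k, ∫ x in (2 ^ i : ℝ)..2 * 2 ^ i, f x ≤ b) :
    ∫ x in (0 : ℝ)..2 ^ k, f x ≤ (k + 1) * b := by
  induction k with
  | zero => simpa using h0
  | succ n ih =>
    rw [← intervalIntegral.integral_add_adjacent_intervals (b := 2 ^ n) (hf.intervalIntegrable _ _)
      (hf.intervalIntegrable _ _), pow_succ']
    push_cast
    linarith [ih fun i hi => h i (by omega), h n (by omega)]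

lemma klog {η : ℝ} (hη : 0 < η) {k : ℕ} {M : ℝ} (hM : 1 ≤ M) (h : 2 ^ k ≤ 2 * M ^ 2) :
    ((k : ℝ) + 5) ^ 2 ≤ (6 + 8 / η) ^ 2 * M ^ η := by
  have h1 := Real.log_le_log (by positivity) h
  rw [Real.log_pow, Real.log_mul (by norm_num) (by positivity), Real.log_pow] at h1
  have h2 := Real.log_le_rpow_div (by linarith : 0 ≤ M) (half_pos hη)
  have h3 := Real.log_two_gt_d9
  have h4 : 1 ≤ M ^ (η / 2) := Real.one_le_rpow hM (by positivity)
  have h5 := Real.log_nonneg hM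
  have h6 : (k : ℝ) ≤ 1 + 4 * Real.log M := by
    push_cast at h1
    by_contra h6
    nlinarith
  have h7 : M ^ η = (M ^ (η / 2)) ^ 2 := by
    rw [← Real.rpow_natCast, ← Real.rpow_mul (by linarith)]; congr 1; push_cast; ring
  rw [h7, ← mul_pow]
  refine pow_le_pow_left₀ (by positivity) ?_ 2
  rw [show M ^ (η / 2) / (η / 2) = 2 / η * M ^ (η / 2) by field_simp] at h2
  rw [show 8 / η = 4 * (2 / η) by ring]
  nlinarith

theorem stepA {γ C τ : ℝ} (H : Hyp γ C) (hC : 0 ≤ C) (h2 : 2 ≤ γ) (h4 : γ ≤ 4)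
    (hτ : 2 - γ / (γ - 1) < τ) : ∃ C', 0 ≤ C' ∧ WC τ C' := by
  obtain ⟨θ, hθ⟩ : ∃ θ, θ = γ / (γ - 1) := ⟨_, rfl⟩
  have θ1 : θ * (γ - 1) = γ := by rw [hθ, div_mul_cancel₀ _ (by linarith)]
  have θ0 : 0 ≤ θ := by rw [hθ]; exact div_nonneg (by linarith) (by linarith)
  have θ2 : θ ≤ 2 := by rw [hθ, div_le_iff₀ (by linarith)]; linarith
  rw [← hθ] at hτ
  obtain ⟨η, hη⟩ : ∃ η, η = τ - (2 - θ) := ⟨_, rfl⟩
  have η0 : 0 < η := by linarith
  refine ⟨12 * (10 ^ 60 * (1 + C * (8 * 129 ^ 4))) * (6 + 8 / η) ^ 2, by positivity,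
    fun j M δ L hM hδ hL hL' => ?_⟩
  have M0 : 0 < M := by linarith
  obtain ⟨n, n1, n2⟩ := exists_nat_pow_near (Real.one_le_rpow hM θ0) (by norm_num : (1 : ℝ) < 2)
  have m2 : M ^ θ ≤ M ^ 2 := by
    rw [← Real.rpow_natCast]; exact Real.rpow_le_rpow_of_exponent_le hM (by simpa using θ2)
  have k1 : (2 : ℝ) ^ (n + 1) ≤ 2 * M ^ θ := by rw [pow_succ]; linarith
  have k2 : (2 : ℝ) ^ (n + 1) ≤ 2 * M ^ 2 := by linarith
  generalize n + 1 = k at n2 k1 k2
  have hb : ∫ x in (0 : ℝ)..2 ^ k, ‖Sm j M L x‖ ^ 4 ≤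
      (k + 1) * (10 ^ 60 * ((k + 4 : ℕ) + 1) * (1 + C * (8 * 129 ^ 4)) * M ^ 4) := by
    refine dy_int (by fun_prop) ?_ k fun i hi => ?_
    · have h1 : ∫ x in (0 : ℝ)..1, ‖Sm j M L x‖ ^ 4 ≤ ∫ x in (0 : ℝ)..1, (153 * M) ^ 4 :=
        intervalIntegral.integral_mono_on zero_le_one
          (Continuous.intervalIntegrable (by fun_prop) _ _) (by simp) fun x _ =>
            pow_le_pow_left₀ (norm_nonneg _) ((Sm_triv j M L x).trans (by linarith)) 4
      rw [intervalIntegral.integral_const, sub_zero, one_smul, mul_pow] at h1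
      refine h1.trans (mul_le_mul_of_nonneg_right ?_ (by positivity))
      have : (0 : ℝ) ≤ (k + 4 : ℕ) * (1 + C * (8 * 129 ^ 4)) := by positivity
      nlinarith
    have i1 : (2 : ℝ) ^ i ≤ 2 ^ k := pow_le_pow_right₀ (by norm_num) hi.le
    have i0 : (1 : ℝ) ≤ 2 ^ i := one_le_pow₀ (by norm_num)
    refine block H hC j hM i0 (by linarith) (by rw [pow_add]; linarith) hL fun N N0 hN => ?_
    generalize (2 : ℝ) ^ i = X at i1 i0 hN
    have X0 : 0 < X := by linarith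
    have c1 : (129 : ℝ) ^ γ ≤ 129 ^ 4 := by
      rw [← Real.rpow_natCast]
      exact Real.rpow_le_rpow_of_exponent_le (by norm_num) (by simpa using h4)
    rw [div_le_iff₀ X0]
    rcases le_or_gt X M with h | h
    · have h1 : 1 + N ≤ 129 := by nlinarith
      have := Real.rpow_le_rpow (by positivity) h1 (by linarith : 0 ≤ γ)
      nlinarith
    · have h1 : 1 + N ≤ 129 * (X / M) := by
        rw [← mul_div_assoc, le_div_iff₀ M0]; linarith
      have h3 : X ^ (γ - 1) ≤ 8 * M ^ γ := by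
        refine (Real.rpow_le_rpow X0.le (i1.trans k1) (by linarith)).trans ?_
        rw [Real.mul_rpow (by norm_num) (by positivity), ← Real.rpow_mul M0.le, θ1]
        refine mul_le_mul_of_nonneg_right ?_ (by positivity)
        refine (Real.rpow_le_rpow_of_exponent_le (by norm_num)
          (by push_cast; linarith : γ - 1 ≤ (3 : ℕ))).trans ?_
        rw [Real.rpow_natCast]; norm_num
      refine (Real.rpow_le_rpow (by positivity) h1 (by linarith : 0 ≤ γ)).trans ?_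
      rw [Real.mul_rpow (by norm_num) (by positivity), Real.div_rpow X0.le M0.le]
      have h5 : X ^ γ / M ^ γ ≤ 8 * X := by
        rw [div_le_iff₀ (by positivity), show γ = γ - 1 + 1 by ring, Real.rpow_add X0, Real.rpow_one,
          show γ - 1 + 1 = γ by ring]
        nlinarith
      refine (mul_le_mul c1 h5 (by positivity) (by positivity)).trans_eq (by ring)
  obtain ⟨σ, hσ⟩ : ∃ σ, σ = min (1 / (2 * δ)) (2 ^ k) := ⟨_, rfl⟩
  have σ0 : 0 < σ := by rw [hσ]; positivity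
  have σ1 : σ ≤ 1 / (2 * δ) := hσ ▸ min_le_left _ _
  have σ2 : σ ≤ 2 ^ k := hσ ▸ min_le_right _ _
  have σ3 : 1 / σ ≤ 2 * δ + 1 / M ^ θ := by
    have : 0 < 1 / M ^ θ := by positivity
    rcases min_choice (1 / (2 * δ)) ((2 : ℝ) ^ k) with h | h <;> rw [hσ, h]
    · rw [one_div_one_div]; linarith
    · linarith [one_div_le_one_div_of_le (by positivity) n2.le]
  have hl := low (range L ×ˢ range L) (c := fun p => om j (p.1 / M) * om j (p.2 / M))
    (fun p => mul_nonneg (om_nonneg _ _) (om_nonneg _ _)) (lam j M) (δ := δ) σ0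
    (by rw [le_div_iff₀ (by positivity)] at σ1; linarith)
  simp only [← Sm_sq, norm_pow, ← pow_mul] at hl
  rw [sym_split (by fun_prop)] at hl
  simp only [Sm_neg, ← two_mul] at hl
  rw [intervalIntegral.integral_const_mul] at hl
  have hm : ∫ x in (0 : ℝ)..σ, ‖Sm j M L x‖ ^ (2 * 2) ≤ ∫ x in (0 : ℝ)..2 ^ k, ‖Sm j M L x‖ ^ 4 :=
    intervalIntegral.integral_mono_interval le_rfl σ0.le σ2 (ae_of_all _ fun x => by positivity)
      (Continuous.intervalIntegrable (by fun_prop) _ _)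
  have hk := klog η0 hM k2
  obtain ⟨K, hK⟩ : ∃ K, K = 10 ^ 60 * (1 + C * (8 * 129 ^ 4)) := ⟨_, rfl⟩
  have K0 : 0 ≤ K := by rw [hK]; positivity
  rw [← hK]
  have e1 : cW j M L δ ≤ 1 / σ * (6 * K * ((k + 5) ^ 2 * M ^ 4)) := by
    rw [one_div_mul_eq_div, le_div_iff₀ σ0]
    have e2 : ((k : ℝ) + 1) * (10 ^ 60 * ((k + 4 : ℕ) + 1) * (1 + C * (8 * 129 ^ 4)) * M ^ 4) ≤
        K * ((k + 5) ^ 2 * M ^ 4) := by
      rw [show ((k : ℝ) + 1) * (10 ^ 60 * ((k + 4 : ℕ) + 1) * (1 + C * (8 * 129 ^ 4)) * M ^ 4) =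
        K * (((k + 1) * (k + 5)) * M ^ 4) by rw [hK]; push_cast; ring, sq]
      gcongr
      norm_num
    unfold cW
    linarith
  have e3 : M ^ η ≤ M ^ τ := Real.rpow_le_rpow_of_exponent_le hM (by linarith)
  have e4 : 1 / M ^ θ * (M ^ η * M ^ 4) = M ^ 2 * M ^ τ := by
    rw [show τ = η + (2 : ℕ) - θ by push_cast; linarith, Real.rpow_sub M0, Real.rpow_add M0,
      Real.rpow_natCast]
    ring
  calc _ ≤ (2 * δ + 1 / M ^ θ) * (6 * K * ((6 + 8 / η) ^ 2 * M ^ η * M ^ 4)) :=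
        e1.trans (by gcongr)
    _ = 6 * K * (6 + 8 / η) ^ 2 * (2 * δ * M ^ 4 * M ^ η + 1 / M ^ θ * (M ^ η * M ^ 4)) := by ring
    _ ≤ 6 * K * (6 + 8 / η) ^ 2 * (2 * δ * M ^ 4 * M ^ τ + 2 * (M ^ 2 * M ^ τ)) := by
        rw [e4]
        have : 0 ≤ M ^ 2 * M ^ τ := by positivity
        exact mul_le_mul_of_nonneg_left (add_le_add (by gcongr) (by linarith)) (by positivity)
    _ = _ := by ring

lemma cnt_triv (j : Bool) {M : ℝ} (hM : 0 < M) (δ : ℝ) : cnt j M δ ≤ (1 + M) ^ 4 := by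
  have h1 : (#(Dy M) : ℝ) ≤ M + 1 := card_le_of_diam _ hM.le fun a ha b hb => by
    linarith [(mem_Dy hM ha).1, (mem_Dy hM hb).2]
  refine (sum_le_card_nsmul _ _ (#(Dy M ×ˢ Dy M) : ℝ) fun p _ => (sum_le_card_nsmul _ _ 1
    fun r _ => by split_ifs <;> norm_num).trans (by simp)).trans ?_
  rw [card_product, nsmul_eq_mul]
  push_cast
  rw [show (#(Dy M) : ℝ) * #(Dy M) * (#(Dy M) * #(Dy M)) = #(Dy M) ^ 4 by ring, add_comm]
  gcongr

theorem stepB {τ C : ℝ} (H : WC τ C) (hC : 0 ≤ C) (h0 : 0 ≤ τ) : Hyp (2 + τ) (1024 * C + 256) := by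
  intro j M δ hM hδ
  have e0 : 1 ≤ (1 + M) ^ (2 + τ) := Real.one_le_rpow (by linarith) (by linarith)
  have e1 : 0 ≤ δ * M ^ 2 := by positivity
  rcases le_or_gt M 3 with h3 | h3
  · have h1 : (1 + M) ^ 4 ≤ 4 ^ 4 := pow_le_pow_left₀ (by positivity) (by linarith) 4
    have h2 : 256 ≤ (1024 * C + 256) * (1 + δ * M ^ 2) := by nlinarith
    have := cnt_triv j hM δ
    nlinarith
  have p1 : 1 ≤ pw j (3 / 2) := by cases j <;> norm_num [pw]
  have p2 : pw j (3 / 2) ≤ 3 := by cases j <;> norm_num [pw]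
  obtain ⟨N, hN⟩ : ∃ N, N = M / pw j (3 / 2) := ⟨_, rfl⟩
  have N1 : 1 ≤ N := by rw [hN, le_div_iff₀ (by linarith)]; linarith
  have N2 : N ≤ M := hN ▸ div_le_self hM.le p1
  have N3 : M ≤ 3 * N := by
    rw [hN, ← mul_div_assoc, le_div_iff₀ (by linarith)]; nlinarith
  have hr : ∀ n : ℕ, rt j (n / N) = 3 / 2 * rt j (n / M) := fun n => by
    rw [show n / N = pw j (3 / 2) * (n / M) by rw [hN]; field_simp, rt_mul j (by linarith),
      rt_pw j (by norm_num)]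
  have ho : ∀ n ∈ Dy M, 1 / 4 ≤ om j (n / N) := fun n hn => by
    have h1 := rt_Dy j hM hn
    have h2 : 1 / 2 ≤ (rt j (n / N) - 1) * (4 - rt j (n / N)) := by rw [hr]; nlinarith [h1.1, h1.2]
    refine le_trans (by norm_num) (pow_le_pow_left₀ (by norm_num) (h2.trans (le_max_right _ _)) 2)
  have hs : Dy M ⊆ range ⌈16 * N⌉₊ := fun n hn => by
    rw [mem_range, Nat.lt_ceil]
    linarith [(mem_Dy hM hn).2]
  have h := H j N (4 * δ) ⌈16 * N⌉₊ N1 (by positivity) (Nat.le_ceil _)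
    (by linarith [Nat.ceil_lt_add_one (by positivity : 0 ≤ 16 * N)])
  have hc : cnt j M δ ≤ 256 * cW j N ⌈16 * N⌉₊ (4 * δ) := by
    have o := fun p : ℕ × ℕ => mul_nonneg (om_nonneg j (p.1 / N)) (om_nonneg j (p.2 / N))
    have o2 : ∀ p ∈ Dy M ×ˢ Dy M, 1 / 16 ≤ om j (p.1 / N) * om j (p.2 / N) := fun p hp => by
      rw [mem_product] at hp
      nlinarith [ho _ hp.1, ho _ hp.2]
    simp only [cnt, cW, cw, mul_sum]
    refine le_trans (sum_le_sum fun p hp => le_trans (sum_le_sum fun r hr' => ?_)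
      (sum_le_sum_of_subset_of_nonneg (product_subset_product hs hs) fun r _ _ => ?_))
      (sum_le_sum_of_subset_of_nonneg (product_subset_product hs hs) fun p _ _ =>
        sum_nonneg fun r _ => ?_)
    · by_cases h1 : |lam j M p - lam j M r| ≤ δ
      · rw [if_pos h1, if_pos]
        · nlinarith [o2 p hp, o2 r hr']
        · rw [show lam j N p - lam j N r = 27 / 8 * (lam j M p - lam j M r) by
            simp only [lam, hr]; ring, abs_mul, abs_of_pos (by norm_num : (0 : ℝ) < 27 / 8)]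
          linarith
      · rw [if_neg h1]
        have := mul_nonneg (o p) (o r)
        split_ifs <;> linarith
    · have := mul_nonneg (o p) (o r)
      split_ifs <;> linarith
    · have := mul_nonneg (o p) (o r)
      split_ifs <;> linarith
  have e2 : M ^ 2 * N ^ τ ≤ (1 + M) ^ (2 + τ) := by
    rw [Real.rpow_add (by positivity), Real.rpow_two]
    gcongr <;> linarith
  calc _ ≤ 256 * (C * (4 * δ * M ^ 4 + 4 * M ^ 2) * N ^ τ) := by
        refine hc.trans (mul_le_mul_of_nonneg_left (h.trans ?_) (by norm_num))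
        gcongr
        nlinarith
    _ = 1024 * C * (1 + δ * M ^ 2) * (M ^ 2 * N ^ τ) := by ring
    _ ≤ _ := by gcongr; linarith

lemma hyp_seq (k : ℕ) : ∃ C, 0 ≤ C ∧ Hyp (2 + 2 / (k + 1)) C := by
  induction k with
  | zero =>
    refine ⟨1, zero_le_one, fun j M δ hM hδ => (cnt_triv j hM δ).trans ?_⟩
    rw [show (2 : ℝ) + 2 / ((0 : ℕ) + 1) = (4 : ℕ) by norm_num, Real.rpow_natCast]
    have : 0 ≤ δ * M ^ 2 * (1 + M) ^ 4 := by positivity
    nlinarith
  | succ n ih =>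
    obtain ⟨C, C0, H⟩ := ih
    have h1 : (0 : ℝ) < 2 / (n + 1) := by positivity
    have h2 : (2 : ℝ) / (n + 1) ≤ 2 := div_le_self (by norm_num) (by simp)
    obtain ⟨C', C1, H'⟩ := stepA (τ := 2 / ((n + 1 : ℕ) + 1)) H C0 (by linarith) (by linarith) (by
      rw [show 2 - (2 + 2 / ((n : ℝ) + 1)) / (2 + 2 / (n + 1) - 1) = 2 / (n + 3) by
        rw [show 2 + 2 / ((n : ℝ) + 1) - 1 = (n + 3) / (n + 1) by field_simp; ring]
        field_simp; ring]
      push_cast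
      exact div_lt_div_of_pos_left (by norm_num) (by positivity) (by linarith))
    exact ⟨_, by positivity, stepB H' C1 (by positivity)⟩

/-- the fourth moment estimate -/
theorem fourth {ε : ℝ} (hε : 0 < ε) : ∃ C, 0 ≤ C ∧ WC ε C := by
  obtain ⟨n, hn⟩ := exists_nat_gt (2 / ε)
  obtain ⟨C, C0, H⟩ := hyp_seq n
  have h1 : (0 : ℝ) < 2 / (n + 1) := by positivity
  have h2 : (2 : ℝ) / (n + 1) ≤ 2 := div_le_self (by norm_num) (by simp)
  refine stepA H C0 (by linarith) (by linarith) ?_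
  rw [show 2 - (2 + 2 / ((n : ℝ) + 1)) / (2 + 2 / (n + 1) - 1) = 2 / (n + 3) by
    rw [show 2 + 2 / ((n : ℝ) + 1) - 1 = (n + 3) / (n + 1) by field_simp; ring]
    field_simp; ring, div_lt_iff₀ (by positivity)]
  rw [div_lt_iff₀ hε] at hn
  nlinarith

end Pool.Agent.Lib.MP_0d68fc_nt
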