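import Pool.Agent.Lib.MP_0d68fc_nt.Arcs

/-! The exceptional set at one scale. -/

set_option autoImplicit false

namespace Pool.Agent.Lib.MP_0d68fc_nt

open Finset Pool.Agent.Lib.MP_028aa5_nt Pool.Agent.Lib.MP_786755_nt MeasureTheory
open scoped ComplexConjugate

lemma continuous_Mq (u H q : ℕ) (r : ℤ) : Continuous (Mq u H q r) :=
  (continuous_bump (by positivity) _ _).add (continuous_bump (by positivity) _ _)

lemma continuous_Maj (u H : ℕ) : Continuous (Maj u H) :=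
  ((continuous_bump (by positivity) _ _).add (continuous_bump (by positivity) _ _)).add
    (continuous_finsetSum _ fun _ _ => continuous_finsetSum _ fun _ _ => continuous_Mq _ _ _ _)

lemma int_Maj {u H : ℕ} {E : ℝ} (hu : 2 ≤ u) (hE : EB u E) (hH : 1 ≤ H) (hH' : H ≤ u ^ 4) (τ : ℝ) :
    ∫ α in τ..τ + 1, Maj u H α ≤ 12 * E ^ 3 * u ^ 16 / H := by
  have E1 := hE.one hu
  have u1 : (1 : ℝ) ≤ u := by exact_mod_cast (by omega : 1 ≤ u)
  have H0 : (0 : ℝ) < H := by exact_mod_cast hH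
  have H4 : (H : ℝ) ≤ u ^ 4 := by exact_mod_cast hH'
  have i : ∀ {f : ℝ → ℝ}, Continuous f → IntervalIntegrable f volume τ (τ + 1) :=
    fun h => h.intervalIntegrable _ _
  have b : ∀ {N B : ℝ}, 0 < N → 0 ≤ B → ∀ c, ∫ α in τ..τ + 1, bump N B c α ≤ 2 * B / N :=
    fun h1 h2 c => int_bump h1 h2 c τ
  have h69 : u ^ 6 ≤ u ^ 9 := Nat.pow_le_pow_right (by omega) (by norm_num)
  have hL := (hE.pow hu (Nat.one_le_pow _ _ (by omega)) h69).2
  have h1 : ∀ q ∈ Icc 1 (u ^ 6), ∫ α in τ..τ + 1, ∑ r ∈ Icc (-(q : ℤ)) q, Mq u H q r α ≤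
      4 * E * u ^ 15 / H * (tq q ^ 2 / q + 1 / q) := fun q hq => by
    have q0 : (0 : ℝ) < q := by exact_mod_cast (mem_Icc.mp hq).1
    rw [intervalIntegral.integral_finsetSum fun r _ => i (continuous_Mq _ _ _ _)]
    calc _ ≤ ∑ r ∈ Icc (-(q : ℤ)) q, 2 * u ^ 15 / H * (tq q ^ 2 / q + 1 / q) * (1 / |(r : ℝ)|) := by
          refine sum_le_sum fun r _ => ?_
          unfold Mq
          rw [intervalIntegral.integral_add (i (continuous_bump (by positivity) _ _))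
            (i (continuous_bump (by positivity) _ _)), mul_add, add_mul]
          refine add_le_add ((b (by positivity) (by positivity) _).trans ?_)
            ((b (by positivity) (by positivity) _).trans_eq (by field_simp))
          rw [show 2 * ((u : ℝ) ^ 29 * (tq q ^ 2 / q) / H * (1 / |(r : ℝ)|)) / u ^ 15 =
            2 * u ^ 14 / H * (tq q ^ 2 / q) * (1 / |(r : ℝ)|) by field_simp]
          gcongr
          norm_num
      _ ≤ 2 * u ^ 15 / H * (tq q ^ 2 / q + 1 / q) * (2 * E) := by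
          rw [← mul_sum]
          gcongr
          exact (sum_inv_abs q).trans (by
            gcongr; exact (hE.pow hu (mem_Icc.mp hq).1 ((mem_Icc.mp hq).2.trans h69)).2)
      _ = _ := by ring
  unfold Maj
  have c1 := continuous_bump (N := u ^ 15) (by positivity) (u ^ 23) 0
  have c2 := continuous_bump (N := u ^ 9) (by positivity) (u ^ 21) 0
  rw [intervalIntegral.integral_add (i (by fun_prop)) (i (continuous_finsetSum _ fun _ _ =>
        continuous_finsetSum _ fun _ _ => continuous_Mq _ _ _ _)),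
    intervalIntegral.integral_add (i c1) (i c2), intervalIntegral.integral_finsetSum fun q _ =>
        i (continuous_finsetSum _ fun _ _ => continuous_Mq _ _ _ _)]
  have h2 := sum_le_sum h1
  rw [← mul_sum, sum_add_distrib] at h2
  have h3 : ∑ q ∈ Icc 1 (u ^ 6), (tq q : ℝ) ^ 2 / q ≤ E ^ 2 := (sum_tq_le _).trans (by gcongr)
  have h4 : ∑ q ∈ Icc 1 (u ^ 6), (1 : ℝ) / q ≤ E ^ 2 :=
    (sum_inv_le_log _).trans (hL.trans (by nlinarith))
  have h5 : 4 * E * u ^ 15 / H * (∑ q ∈ Icc 1 (u ^ 6), (tq q : ℝ) ^ 2 / q +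
      ∑ q ∈ Icc 1 (u ^ 6), (1 : ℝ) / q) ≤ 4 * E * u ^ 16 / H * (E ^ 2 + E ^ 2) := by
    gcongr
    norm_num
  have h6 := b (N := u ^ 15) (B := u ^ 23) (by positivity) (by positivity) 0
  have h7 := b (N := u ^ 9) (B := u ^ 21) (by positivity) (by positivity) 0
  rw [show 2 * (u : ℝ) ^ 23 / u ^ 15 = 2 * u ^ 8 by field_simp] at h6
  rw [show 2 * (u : ℝ) ^ 21 / u ^ 9 = 2 * u ^ 12 by field_simp] at h7
  have h8 : (u : ℝ) ^ 8 ≤ u ^ 12 := pow_le_pow_right₀ u1 (by norm_num)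
  have h9 : (u : ℝ) ^ 12 ≤ E ^ 3 * u ^ 16 / H := by
    rw [le_div_iff₀ H0, show E ^ 3 * (u : ℝ) ^ 16 = u ^ 12 * (E ^ 3 * u ^ 4) by ring]
    gcongr
    exact H4.trans (le_mul_of_one_le_left (by positivity) (one_le_pow₀ E1))
  rw [show 4 * E * u ^ 16 / H * (E ^ 2 + E ^ 2) = 8 * (E ^ 3 * u ^ 16 / H) by ring] at h5
  rw [show 12 * E ^ 3 * u ^ 16 / H = 12 * (E ^ 3 * u ^ 16 / H) by ring]
  linarith

@[fun_prop] lemma continuous_GG (u H Y : ℕ) : Continuous (GG u H Y) := by unfold GG; fun_prop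

def WB (u : ℕ) (E : ℝ) : Prop := ∀ δ : ℝ, 0 < δ →
  cW true (u ^ 5 : ℕ) (16 * u ^ 5) δ ≤ E * (δ * (u ^ 5 : ℕ) ^ 4 + (u ^ 5 : ℕ) ^ 2)

lemma int_GG {u H Y : ℕ} {E : ℝ} (hu : 2 ≤ u) (E0 : 0 ≤ E) (hW : WB u E) (hH : 1 ≤ H)
    (hH' : H ≤ u ^ 4) (hY : H ≤ Y) (τ : ℝ) : ∫ α in τ..τ + 1, GG u H Y α ≤ 8 * E * u ^ 10 / H := by
  have u1 : (1 : ℝ) ≤ u := by exact_mod_cast (by omega : 1 ≤ u)
  have H0 : (0 : ℝ) < H := by exact_mod_cast hH
  have H4 : (H : ℝ) ≤ u ^ 5 := by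
    exact_mod_cast hH'.trans (Nat.pow_le_pow_right (by omega) (by norm_num))
  have h1 : ∀ J : ℕ, H ≤ J →
      ∫ α in τ..τ + 1, ‖gg (u ^ 5) α ^ 2 * kk J α‖ ^ 2 ≤ 2 * E * u ^ 10 / H := fun J hJ => by
    have J1 : (H : ℝ) ≤ J := by exact_mod_cast hJ
    have J0 : (0 : ℝ) < J := H0.trans_le J1
    refine (mean_gk (by positivity) (by omega) τ).trans
      ((div_le_div_of_nonneg_right (hW _ (by positivity)) J0.le).trans ?_)
    push_cast
    rw [show E * (J / ((u : ℝ) ^ 5) ^ 3 * (u ^ 5) ^ 4 + (u ^ 5) ^ 2) / J =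
      E * (u ^ 10 / u ^ 5 + u ^ 10 / J) by field_simp,
      show 2 * E * u ^ 10 / H = E * (u ^ 10 / H + u ^ 10 / H) by ring]
    gcongr
  calc _ ≤ ∫ α in τ..τ + 1, (2 * ‖gg (u ^ 5) α ^ 2 * kk H α‖ ^ 2 +
        2 * ‖gg (u ^ 5) α ^ 2 * kk Y α‖ ^ 2) := by
        refine intervalIntegral.integral_mono_on (by linarith)
          (Continuous.intervalIntegrable (by fun_prop) _ _)
          (Continuous.intervalIntegrable (by fun_prop) _ _) fun α _ => ?_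
        have e1 : ‖kk H α - kk Y α‖ ^ 2 ≤ 2 * ‖kk H α‖ ^ 2 + 2 * ‖kk Y α‖ ^ 2 := by
          have := pow_le_pow_left₀ (norm_nonneg _) (norm_sub_le (kk H α) (kk Y α)) 2
          nlinarith [sq_nonneg (‖kk H α‖ - ‖kk Y α‖)]
        refine (mul_le_mul_of_nonneg_left e1 (by positivity)).trans_eq ?_
        simp only [norm_mul, norm_pow]
        ring
    _ ≤ _ := by
        rw [intervalIntegral.integral_add (Continuous.intervalIntegrable (by fun_prop) _ _)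
          (Continuous.intervalIntegrable (by fun_prop) _ _), intervalIntegral.integral_const_mul,
          intervalIntegral.integral_const_mul,
          show 8 * E * u ^ 10 / H = 2 * (2 * E * u ^ 10 / H) + 2 * (2 * E * u ^ 10 / H) by ring]
        linarith [h1 H le_rfl, h1 Y hY]

lemma int_all {u H Y : ℕ} {E : ℝ} (hu : 2 ≤ u) (hE : EB u E) (hW : WB u E) (hH : 1 ≤ H)
    (hH' : H ≤ u ^ 4) (hY : Y = 2 ^ 18 * u ^ 12) (hHY : H ≤ Y) :
    ∫ α in (-(1 / 2) : ℝ)..-(1 / 2) + 1, GG u H Y α * ((256 * u ^ 6 : ℕ) + 2 * FF u α) ≤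
      10 ^ 62 * E ^ 32 * u ^ 16 / H := by
  have E1 := hE.one hu
  have c1 := continuous_Maj u H
  have c2 : Continuous (FF u) := continuous_Fs _ _ _
  calc _ ≤ ∫ α in (-(1 / 2) : ℝ)..-(1 / 2) + 1,
        (2 ^ 32 * E * u ^ 6 * GG u H Y α + 2 * 10 ^ 60 * E ^ 29 * Maj u H α) := by
        refine intervalIntegral.integral_mono_on (by linarith)
          (Continuous.intervalIntegrable (by fun_prop) _ _)
          (Continuous.intervalIntegrable (by fun_prop) _ _) fun α hα => ?_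
        have h1 := pt hu hE hH hH' hY (α := α) (abs_le.mpr ⟨hα.1, by linarith [hα.2]⟩)
        have h2 : 0 ≤ u ^ 6 * GG u H Y α := by unfold GG; positivity
        have h3 := mul_le_mul_of_nonneg_right E1 h2
        push_cast
        linarith
    _ ≤ 2 ^ 32 * E * u ^ 6 * (8 * E * u ^ 10 / H) +
        2 * 10 ^ 60 * E ^ 29 * (12 * E ^ 3 * u ^ 16 / H) := by
        rw [intervalIntegral.integral_add (Continuous.intervalIntegrable (by fun_prop) _ _)
          (Continuous.intervalIntegrable (by fun_prop) _ _), intervalIntegral.integral_const_mul,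
          intervalIntegral.integral_const_mul]
        exact add_le_add (mul_le_mul_of_nonneg_left (int_GG hu (by linarith) hW hH hH' hHY _)
          (by positivity)) (mul_le_mul_of_nonneg_left (int_Maj hu hE hH hH' _) (by positivity))
    _ = 2 ^ 35 * (E ^ 2 * (u ^ 16 / H)) + 24 * 10 ^ 60 * (E ^ 32 * (u ^ 16 / H)) := by ring
    _ ≤ _ := by
        have h1 : E ^ 2 * (u ^ 16 / H) ≤ E ^ 32 * (u ^ 16 / H) := by gcongr; norm_num
        have h2 : 0 ≤ E ^ 32 * (u ^ 16 / H) := by positivity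
        rw [show 10 ^ 62 * E ^ 32 * u ^ 16 / H = 10 ^ 62 * (E ^ 32 * (u ^ 16 / H)) by ring]
        linarith

/-- the interval `(n, n + H]` holds a sum of three positive cubes -/
def Hit (H n : ℕ) : Prop := ∃ x y z : ℕ, 0 < x ∧ 0 < y ∧ 0 < z ∧
  n < x ^ 3 + y ^ 3 + z ^ 3 ∧ x ^ 3 + y ^ 3 + z ^ 3 ≤ n + H

lemma exists_x {u s : ℕ} (h1 : u ^ 18 ≤ s) (h2 : s ≤ 2 ^ 21 * u ^ 18) (hu : 1 ≤ u) :
    ∃ x ∈ Ioc (u ^ 6) (256 * u ^ 6), ∃ h ∈ Icc 1 (2 ^ 18 * u ^ 12), x ^ 3 = s + h := by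
  have hex : ∃ x, s < x ^ 3 := ⟨s + 1, lt_of_lt_of_le (Nat.lt_succ_self s)
    (Nat.le_self_pow (by norm_num) _)⟩
  have e1 := Nat.find_spec hex
  have e2 : u ^ 6 < Nat.find hex := by
    refine lt_of_pow_lt_pow_left₀ 3 (Nat.zero_le _) ?_
    rw [← pow_mul]; exact h1.trans_lt e1
  obtain ⟨y, hy⟩ : ∃ y, Nat.find hex = y + 1 := ⟨Nat.find hex - 1, by omega⟩
  have e3 : y ^ 3 ≤ s := not_lt.mp (Nat.find_min hex (by omega))
  have e4 : y ≤ 128 * u ^ 6 := by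
    refine (pow_le_pow_iff_left₀ (Nat.zero_le _) (Nat.zero_le _) three_ne_zero).mp (e3.trans ?_)
    rw [mul_pow, ← pow_mul]; exact h2.trans_eq (by norm_num)
  have e5 : 1 ≤ u ^ 6 := Nat.one_le_pow _ _ hu
  rw [hy] at e1 e2
  refine ⟨y + 1, mem_Ioc.mpr ⟨e2, by omega⟩, (y + 1) ^ 3 - s, mem_Icc.mpr ⟨by omega, ?_⟩, by omega⟩
  have e6 : (y + 1) ^ 3 ≤ y ^ 3 + 2 ^ 18 * u ^ 12 := by
    rw [show u ^ 12 = u ^ 6 * u ^ 6 by ring]
    nlinarith
  omega

theorem scale {u H : ℕ} {E : ℝ} (hu : 2 ≤ u) (hE : EB u E) (hW : WB u E) (hH : 1 ≤ H)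
    (hH' : H ≤ u ^ 4) (T : Finset ℕ)
    (hT : ∀ n ∈ T, 8 * u ^ 18 < n ∧ n ≤ 2 ^ 21 * u ^ 18 ∧ ¬ Hit H n) :
    (#T : ℝ) ≤ 10 ^ 73 * E ^ 32 * u ^ 20 / H := by
  obtain ⟨Y, hY⟩ : ∃ Y, Y = 2 ^ 18 * u ^ 12 := ⟨_, rfl⟩
  obtain ⟨Q, hQ⟩ : ∃ Q, Q = u ^ 5 := ⟨_, rfl⟩
  have E1 := hE.one hu
  have HY : H ≤ Y := hY ▸ hH'.trans ((Nat.pow_le_pow_right (by omega) (by norm_num)).trans
    (Nat.le_mul_of_pos_left _ (by norm_num)))
  have u0 : (0 : ℝ) < u := by exact_mod_cast (by omega : 0 < u)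
  have H0 : (0 : ℝ) < H := by exact_mod_cast hH
  have Y0 : (0 : ℝ) < Y := by exact_mod_cast (by omega : 0 < Y)
  have Q0 : (0 : ℝ) < Q := by rw [hQ]; positivity
  have p1 : u ^ 12 ≤ u ^ 15 := Nat.pow_le_pow_right (by omega) (by norm_num)
  have p2 : 8 * u ^ 15 ≤ u ^ 18 := by
    rw [show u ^ 18 = u ^ 3 * u ^ 15 by ring]
    exact Nat.mul_le_mul_right _ (Nat.pow_le_pow_left hu 3)
  have p3 : Q ^ 3 = u ^ 15 := by rw [hQ]; ring
  have h := var ((range (16 * Q) ×ˢ range (16 * Q)) ×ˢ Icc 1 Y)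
    (fun z => ((om true (z.1.1 / Q) * om true (z.1.2 / Q) *
      ((if z.2 ≤ H then (1 : ℝ) / H else 0) - 1 / Y) : ℝ) : ℂ))
    (fun z => (z.1.1 : ℤ) ^ 3 + (z.1.2 : ℤ) ^ 3 - z.2) (a := u ^ 6) (b := 256 * u ^ 6)
    (K := 2 ^ 17 * u ^ 3) (fun i hi l hl => by
      simp only [mem_product, mem_range, mem_Icc] at hi hl
      have e1 := Nat.pow_le_pow_left hl.1.1.le 3
      have e2 := Nat.pow_le_pow_left hl.1.2.le 3
      rw [mul_pow, p3] at e1 e2
      have e3 : l.1.1 ^ 3 + l.1.2 ^ 3 + i.2 ≤ 3 * (u ^ 6) ^ 2 * (2 ^ 17 * u ^ 3) := by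
        rw [show 3 * (u ^ 6) ^ 2 * (2 ^ 17 * u ^ 3) = 3 * 2 ^ 17 * u ^ 15 by ring]
        omega
      have e4 : (l.1.1 : ℤ) ^ 3 + (l.1.2 : ℤ) ^ 3 + i.2 ≤
        3 * ((u ^ 6 : ℕ) : ℤ) ^ 2 * (2 ^ 17 * u ^ 3 : ℕ) := by exact_mod_cast e3
      have e5 : (0 : ℤ) ≤ (i.1.1 : ℤ) ^ 3 + (i.1.2 : ℤ) ^ 3 + l.2 := by positivity
      linarith) T (-(1 / 2))
  have hk : ∀ α : ℝ, ∑ h ∈ Icc 1 Y, (((if h ≤ H then (1 : ℝ) / H else 0) - 1 / Y : ℝ) : ℂ) *
      e (-(α * h)) = kk H α - kk Y α := fun α => by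
    simp only [Complex.ofReal_sub, sub_mul, sum_sub_distrib, kk]
    congr 1
    rw [← sum_subset (Icc_subset_Icc_right HY) fun h h1 h2 => by
      rw [if_neg (by simp only [mem_Icc] at h1 h2; omega)]; simp]
    exact sum_congr rfl fun h hh => by rw [if_pos (mem_Icc.mp hh).2]
  simp only [← gk_eq Q Y (fun h => (if h ≤ H then (1 : ℝ) / H else 0) - 1 / Y), hk, norm_mul, norm_pow,
    mul_pow, ← pow_mul] at h
  rw [hQ] at h
  have h2 := h.trans (int_all hu hE hW hH hH' hY HY)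
  rw [← hQ] at h2
  have h3 := (card_nsmul_le_sum T _ (((Q : ℝ) ^ 2 / Y) ^ 2) fun n hn => ?_).trans h2
  · rw [nsmul_eq_mul, ← le_div_iff₀ (by positivity)] at h3
    refine h3.trans ?_
    rw [hQ, hY]
    push_cast
    rw [show 10 ^ 62 * E ^ 32 * u ^ 16 / H / (((u : ℝ) ^ 5) ^ 2 / (262144 * u ^ 12)) ^ 2 =
      10 ^ 62 * 262144 ^ 2 * E ^ 32 * u ^ 20 / H by field_simp]
    gcongr
    norm_num
  obtain ⟨n1, n2, n3⟩ := hT n hn
  refine pow_le_pow_left₀ (by positivity) ?_ 2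
  have o := fun p : ℕ × ℕ => mul_nonneg (om_nonneg true (p.1 / Q)) (om_nonneg true (p.2 / Q))
  rw [sum_congr rfl (g := fun x : ℕ => ((-∑ z ∈ (range (16 * Q) ×ˢ range (16 * Q)) ×ˢ Icc 1 Y,
    (if (x : ℤ) ^ 3 + ((z.1.1 : ℤ) ^ 3 + (z.1.2 : ℤ) ^ 3 - z.2) = n then
      om true (z.1.1 / Q) * om true (z.1.2 / Q) / Y else 0) : ℝ) : ℂ)) fun x hx => ?_]
  · rw [← Complex.ofReal_sum, Complex.norm_real, sum_neg_distrib, norm_neg]
    refine le_trans ?_ (le_abs_self _)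
    have t0 : ∀ (x : ℕ) (z : (ℕ × ℕ) × ℕ), 0 ≤ (if (x : ℤ) ^ 3 + ((z.1.1 : ℤ) ^ 3 +
        (z.1.2 : ℤ) ^ 3 - z.2) = n then om true (z.1.1 / Q) * om true (z.1.2 / Q) / Y else 0) :=
      fun x z => by
        have := o z.1
        split_ifs <;> positivity
    have hs : Ioc (2 * Q) (3 * Q) ⊆ range (16 * Q) := fun y hy => by
      simp only [mem_Ioc, mem_range] at hy ⊢; omega
    have ho : ∀ y ∈ Ioc (2 * Q) (3 * Q), 1 ≤ om true (y / Q) := fun y hy => by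
      have e1 : 2 * (Q : ℝ) ≤ y := by exact_mod_cast (mem_Ioc.mp hy).1.le
      have e2 : (y : ℝ) ≤ 3 * Q := by exact_mod_cast (mem_Ioc.mp hy).2
      rw [← le_div_iff₀ Q0] at e1
      rw [← div_le_iff₀ Q0] at e2
      refine one_le_pow₀ (le_trans ?_ (le_max_right _ _))
      simp only [rt]
      nlinarith
    rw [sum_comm, sum_product]
    refine le_trans ?_ (sum_le_sum_of_subset_of_nonneg (product_subset_product hs hs)
      fun p _ _ => sum_nonneg fun h _ => sum_nonneg fun x _ => t0 x (p, h))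
    refine le_trans (le_of_eq ?_) (card_nsmul_le_sum _ _ (1 / (Y : ℝ)) fun p hp => ?_)
    · rw [card_product, Nat.card_Ioc, show 3 * Q - 2 * Q = Q by omega, nsmul_eq_mul]
      push_cast; ring
    rw [mem_product] at hp
    have e1 := Nat.pow_le_pow_left (mem_Ioc.mp hp.1).2 3
    have e2 := Nat.pow_le_pow_left (mem_Ioc.mp hp.2).2 3
    rw [mul_pow, p3] at e1 e2
    obtain ⟨x, hx, h, hh, e3⟩ := exists_x (u := u) (s := n - p.1 ^ 3 - p.2 ^ 3) (by omega) (by omega)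
      (by omega)
    rw [← hY] at hh
    refine le_trans ?_ (single_le_sum (fun h _ => sum_nonneg fun x _ => t0 x (p, h)) hh)
    refine le_trans ?_ (single_le_sum (fun x _ => t0 x (p, h)) hx)
    have e4 : x ^ 3 + p.1 ^ 3 + p.2 ^ 3 = n + h := by omega
    have e5 : (x : ℤ) ^ 3 + (p.1 : ℤ) ^ 3 + (p.2 : ℤ) ^ 3 = n + h := by exact_mod_cast e4
    rw [if_pos (by simp only; linarith)]
    gcongr
    exact one_le_mul_of_one_le_of_one_le (ho _ hp.1) (ho _ hp.2)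
  · rw [← sum_neg_distrib, Complex.ofReal_sum]
    refine sum_congr rfl fun z hz => ?_
    split_ifs with h1 h2
    · have e0 : om true (z.1.1 / Q) * om true (z.1.2 / Q) = 0 := by
        by_contra e0
        have e1 := (om_supp true (left_ne_zero_of_mul e0)).1
        have e2 := (om_supp true (right_ne_zero_of_mul e0)).1
        rw [one_lt_div Q0] at e1 e2
        have e3 : (x : ℤ) ^ 3 + (z.1.1 : ℤ) ^ 3 + (z.1.2 : ℤ) ^ 3 = n + z.2 := by linarith
        have e4 : x ^ 3 + z.1.1 ^ 3 + z.1.2 ^ 3 = n + z.2 := by exact_mod_cast e3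
        have e5 := (mem_Icc.mp (mem_product.mp hz).2).1
        exact n3 ⟨x, z.1.1, z.1.2, by have := (mem_Ioc.mp hx).1; omega,
          by exact_mod_cast Q0.trans e1, by exact_mod_cast Q0.trans e2, by omega, by omega⟩
      simp [e0]
    · congr 1; ring
    · simp

end Pool.Agent.Lib.MP_0d68fc_nt
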